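import Pool.Agent.Lib.MP_3eff7f_gt.Family

set_option autoImplicit false

open Set Filter Topology Metric

namespace Pool.Agent.Lib.MP_3eff7f_gt

variable {M : Type*} [MetricSpace M]

/-- Maps joined to the identity by a chain of uniformly small steps hit `p`. -/
def ChainSurj (M : Type*) [MetricSpace M] (p : M) : Prop :=
  ∃ ε > 0, ∀ b : ℕ → M → M, (∀ k, Continuous (b k)) → (∀ x, b 0 x = x) →
    (∀ k x, dist (b k x) (b (k + 1) x) < ε) → ∀ k, p ∈ range (b k)

namespace GeoData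

variable {r : ℝ} (G : GeoData M r)
include G

/-- Passing to the limit in the length bound. -/
theorem hasShortGeodesic_of_forall [CompactSpace M] {σ : M → M} (hσ : Isometry σ) (o : ℕ)
    (ho : 0 < o) (hσo : ∀ x, σ^[o] x = x) {N : ℕ} (hN : 0 < N) {a : ℝ} (ha : a < r) {η : ℝ}
    (hη : 0 < η) {T : ℝ} (hT : 0 ≤ T)
    (h : ∀ ε > 0, ∃ x ∈ XS σ N a, η ≤ En N x ∧ En N x ≤ En N (Phi x) ∧
      N * En N x ≤ (T + ε) ^ 2) : HasShortGeodesic M (o * T) := by
  have hXS := isClosed_XS hσ.continuous N a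
  have hcl : IsClosed (XS σ N a ∩ (fun x => En N (Phi x) - En N x) ⁻¹' Ici 0) :=
    (((continuous_En N).comp_continuousOn (G.continuousOn_Phi ha)).sub
      (continuous_En N).continuousOn).preimage_isClosed_of_isClosed hXS isClosed_Ici
  have hK : IsCompact ((XS σ N a ∩ (fun x => En N (Phi x) - En N x) ⁻¹' Ici 0) ∩
      {x | η ≤ En N x}) :=
    (hcl.inter (isClosed_le continuous_const (continuous_En N))).isCompact
  obtain ⟨x₁, hx₁, h1, h2, -⟩ := h 1 one_pos
  obtain ⟨x₀, hx₀, hmin⟩ := hK.exists_isMinOn (f := En N)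
    ⟨x₁, ⟨hx₁, sub_nonneg.2 h2⟩, h1⟩ (continuous_En N).continuousOn
  refine G.hasShortGeodesic_of_critical hσ o ho hσo hN ha hx₀.1.1 (sub_nonneg.1 hx₀.1.2)
    (hη.trans_le hx₀.2) hT ?_
  have ht : Tendsto (fun ε : ℝ => (T + ε) ^ 2) (𝓝[>] 0) (𝓝 ((T + 0) ^ 2)) := by
    apply Tendsto.mono_left _ nhdsWithin_le_nhds
    exact (by fun_prop : Continuous fun ε : ℝ => (T + ε) ^ 2).tendsto 0
  rw [add_zero] at ht
  apply ge_of_tendsto ht
  filter_upwards [self_mem_nhdsWithin] with ε hε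
  obtain ⟨x, hx, h1, h2, h3⟩ := h ε hε
  have : En N x₀ ≤ En N x := hmin (show x ∈ _ from ⟨⟨hx, sub_nonneg.2 h2⟩, h1⟩)
  have hNpos : (0 : ℝ) ≤ N := by positivity
  nlinarith

theorem abstract_main [CompactSpace M] {m : ℝ} (hm : 0 < m) (hcov : SmallCover M m)
    {R : ℝ → M → M} (hRc : Continuous fun p : ℝ × M => R p.1 p.2) (hRi : ∀ a, Isometry (R a))
    {z : M} (hRz : ∀ a, R a z = z) (hR0 : ∀ x, R 0 x = x) (σ : M ≃ᵢ M) (hR1 : ∀ x, R 1 x = σ x)
    (o : ℕ) (ho : 0 < o) (hσo : ∀ x, σ^[o] x = x) {p : M} (hp : σ p ≠ p) (hH : ChainSurj M p)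
    {D : ℝ} (hD : ∀ x, dist x z ≤ D) : HasShortGeodesic M (o * (2 * D * m)) := by
  obtain ⟨εH, hεH, hH⟩ := hH
  have hD0 : 0 ≤ D := dist_nonneg.trans (hD z)
  have hr := G.pos
  set T₁ := 2 * D * m + 1 with hT₁
  have hT₁pos : 0 < T₁ := by positivity
  obtain ⟨N, hNgt⟩ := exists_nat_gt (T₁ / min r εH)
  have hmin : 0 < min r εH := lt_min hr hεH
  have hNpos : (0 : ℝ) < N := lt_trans (by positivity) hNgt
  have hN : 0 < N := by exact_mod_cast hNpos
  have ha : T₁ / N < min r εH := by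
    rw [div_lt_iff₀ hmin] at hNgt
    rw [div_lt_iff₀ hNpos]
    linarith
  have hρ : 0 < dist p (σ p) := dist_pos.2 hp.symm
  refine G.hasShortGeodesic_of_forall σ.isometry o ho hσo hN (ha.trans_le (min_le_left _ _))
    (η := dist p (σ p) ^ 2 / N) (by positivity) (by positivity) ?_
  intro ε hε
  set ε' := min ε 1 with hε'
  have hε'pos : 0 < ε' := lt_min hε one_pos
  set T := 2 * D * m + ε' with hT
  have hTpos : 0 < T := by positivity
  have hTle : T / N ≤ T₁ / N := by
    gcongr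
    linarith [min_le_right ε 1]
  have haT : T / N < r := (hTle.trans_lt ha).trans_le (min_le_left _ _)
  by_contra hcon
  push Not at hcon
  obtain ⟨K, hK⟩ := G.exists_iterate_lt σ.isometry (N := N) haT
    (η := dist p (σ p) ^ 2 / N) (by positivity) (by
      intro x hx hη
      by_contra hlt
      have h1 := hcon x (XS_mono hTle hx) hη (le_of_not_gt hlt)
      have h2 := En_le hx
      have h3 : N * En N x ≤ T ^ 2 := by
        calc N * En N x ≤ N * (N * (T / N) ^ 2) := by gcongr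
          _ = T ^ 2 := by field_simp
      have h4 : T ^ 2 ≤ (2 * D * m + ε) ^ 2 := by
        apply pow_le_pow_left₀ hTpos.le
        linarith [min_le_left ε 1]
      linarith)
  obtain ⟨Γ, hΓc, hΓl, hΓ0, hΓ1⟩ := G.exists_family hcov hRc hRi hRz hR0 hD
    (ε := ε' / (2 * m)) (by positivity)
  obtain ⟨P, hPc, hPm, hP0⟩ := exists_samples σ hΓc hΓl hN (a := T / N) (by positivity) (by
    intro y
    rw [hΓ0 y 0 le_rfl, hΓ1, hR1]
    apply le_of_eq
    rw [hT]
    field_simp)
  obtain ⟨y, hy⟩ := hH (fun k y => Phi^[k] (P y) 0)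
    (fun k => (continuous_apply 0).comp (G.continuous_iterate σ.isometry haT hPc hPm k))
    (fun y => by simp [hP0, hΓ0 y 0 le_rfl]) (by
      intro k y
      rw [Function.iterate_succ_apply']
      have h1 := G.dist_Phi_base (G.iterate_mem σ.isometry haT (hPm y) k)
      have h2 : T / N < εH := (hTle.trans_lt ha).trans_le (min_le_right _ _)
      have h3 : 0 < T / N := by positivity
      linarith) K
  have h1 := dist_base_sq_le (G.iterate_mem σ.isometry haT (hPm y) K)
  have h2 := hK _ (hPm y)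
  simp only at hy
  rw [hy] at h1
  rw [lt_div_iff₀ hNpos] at h2
  linarith

end GeoData

end Pool.Agent.Lib.MP_3eff7f_gt
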