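import Pool.Agent.Lib.MP_3eff7f_gt.Chart

set_option autoImplicit false

open Set Filter Topology Metric Bundle Manifold MeasureTheory
open scoped Manifold ContDiff ENNReal

namespace Pool.Agent.Lib.MP_3eff7f_gt

/-- A bi-Lipschitz chart around `p`. -/
structure BiChart (W : Type*) [NormedAddCommGroup W] {M : Type*} [MetricSpace M] (p : M) where
  φ : M → W
  ψ : W → M
  L : ℝ
  s : ℝ
  one_le : 1 ≤ L
  pos : 0 < s
  lipφ : ∀ x y, dist x p < s → dist y p < s → ‖φ x - φ y‖ ≤ L * dist x y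
  lipψ : ∀ u v, ‖u - φ p‖ < s → ‖v - φ p‖ < s → dist (ψ u) (ψ v) ≤ L * ‖u - v‖
  left : ∀ x, dist x p < s → ψ (φ x) = x
  right : ∀ u, ‖u - φ p‖ < s → φ (ψ u) = u

theorem BiChart.transport {W W' : Type*} [NormedAddCommGroup W] [NormedSpace ℝ W]
    [NormedAddCommGroup W'] [NormedSpace ℝ W'] {M : Type*} [MetricSpace M] {p : M}
    (D : BiChart W p) (A : W ≃L[ℝ] W') : Nonempty (BiChart W' p) := by
  set a := ‖(A : W →L[ℝ] W')‖ + ‖(A.symm : W' →L[ℝ] W)‖ + 1 with ha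
  have h0 := norm_nonneg (A : W →L[ℝ] W')
  have h0' := norm_nonneg (A.symm : W' →L[ℝ] W)
  have ha1 : 1 ≤ a := by linarith
  have h1 : ∀ w, ‖A w‖ ≤ a * ‖w‖ := fun w =>
    ((A : W →L[ℝ] W').le_opNorm w).trans (by gcongr; linarith)
  have h2 : ∀ w, ‖A.symm w‖ ≤ a * ‖w‖ := fun w =>
    ((A.symm : W' →L[ℝ] W).le_opNorm w).trans (by gcongr; linarith)
  have hs := D.pos
  have hL := D.one_le
  have hsa : D.s / a ≤ D.s := div_le_self hs.le ha1
  have h3 : ∀ u, ‖u - A (D.φ p)‖ < D.s / a → ‖A.symm u - D.φ p‖ < D.s := by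
    intro u hu
    have := h2 (u - A (D.φ p))
    rw [map_sub, A.symm_apply_apply] at this
    rw [lt_div_iff₀ (by linarith)] at hu
    linarith
  refine ⟨⟨A ∘ D.φ, D.ψ ∘ A.symm, a * D.L, D.s / a, by nlinarith, by positivity, ?_, ?_, ?_, ?_⟩⟩
  · intro x y hx hy
    simp only [Function.comp, ← map_sub, mul_assoc]
    refine (h1 _).trans ?_
    gcongr
    exact D.lipφ x y (hx.trans_le hsa) (hy.trans_le hsa)
  · intro u v hu hv
    refine (D.lipψ _ _ (h3 u hu) (h3 v hv)).trans ?_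
    rw [← map_sub, mul_comm a, mul_assoc]
    gcongr
    exact h2 _
  · intro x hx
    simp [D.left x (hx.trans_le hsa)]
  · intro u hu
    simp [D.right _ (h3 u hu)]

variable {E : Type*} [NormedAddCommGroup E] [NormedSpace ℝ E]
  {M : Type*} [MetricSpace M] [ChartedSpace E M] [IsManifold 𝓘(ℝ, E) ∞ M]
  [RiemannianBundle (fun x : M => TangentSpace 𝓘(ℝ, E) x)]

theorem contRiem [h : IsContMDiffRiemannianBundle 𝓘(ℝ, E) ∞ E
    (fun x : M => TangentSpace 𝓘(ℝ, E) x)] :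
    IsContinuousRiemannianBundle E (fun x : M => TangentSpace 𝓘(ℝ, E) x) := by
  obtain ⟨g, hg, e⟩ := h.exists_contMDiff
  exact ⟨g, hg.continuous, e⟩

set_option backward.isDefEq.respectTransparency false in
theorem nonempty_biChart [IsRiemannianManifold 𝓘(ℝ, E) M]
    [IsContMDiffRiemannianBundle 𝓘(ℝ, E) ∞ E (fun x : M => TangentSpace 𝓘(ℝ, E) x)]
    (p : M) : Nonempty (BiChart E p) := by
  have := contRiem (E := E) (M := M)
  obtain ⟨C₁, hC₁, h1⟩ := eventually_norm_trivializationAt_lt E (TangentSpace 𝓘(ℝ, E)) p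
  obtain ⟨C₂, hC₂, h2⟩ := eventually_norm_symmL_trivializationAt_lt E (TangentSpace 𝓘(ℝ, E)) p
  set φ := extChartAt 𝓘(ℝ, E) p with hφ
  set T := trivializationAt E (TangentSpace 𝓘(ℝ, E)) p with hT
  obtain ⟨s₁, hs₁, hb1⟩ := Metric.mem_nhds_iff.1 (inter_mem h1 (chart_source_mem_nhds E p))
  have h3 : ∀ᶠ u in 𝓝 (φ p), ‖T.symmL ℝ (φ.symm u)‖ < C₂ := by
    have : Tendsto φ.symm (𝓝 (φ p)) (𝓝 p) := by
      have := continuousAt_extChartAt_symm (I := 𝓘(ℝ, E)) p
      rwa [ContinuousAt, extChartAt_to_inv] at this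
    exact this.eventually h2
  obtain ⟨s₂, hs₂, hb2⟩ := Metric.mem_nhds_iff.1 (inter_mem h3 (extChartAt_target_mem_nhds p))
  have m1 := min_le_left (s₁ / 3) s₂
  have m2 := min_le_right (s₁ / 3) s₂
  refine ⟨⟨φ, φ.symm, C₁ + C₂ + 1, min (s₁ / 3) s₂, by linarith, lt_min (by linarith) hs₂,
    ?_, ?_, ?_, ?_⟩⟩
  · intro x y hx hy
    obtain ⟨ℓ, hℓ1, hℓ2⟩ := exists_dual_vector'' ℝ (φ x - φ y)
    have hz : ∀ z, dist y z < 2 * (s₁ / 3) → z ∈ ball p s₁ := fun z hz => by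
      have := dist_triangle_left z p y
      rw [mem_ball]
      linarith
    have := functional_le_dist p (x := y) (x' := x) (δ := 2 * (s₁ / 3)) hC₁.le ℓ
      (by linarith [dist_triangle_right y x p]) (fun z h => (hb1 (hz z h)).2) (by
        intro z h w
        have hb : z ∈ T.baseSet := by simpa [hT] using (hb1 (hz z h)).2
        have e1 : |ℓ w| ≤ ‖w‖ := (ℓ.le_opNorm w).trans (mul_le_of_le_one_left (norm_nonneg _) hℓ1)
        refine e1.trans ?_
        conv_lhs => rw [← T.continuousLinearMapAt_symmL (R := ℝ) hb w]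
        refine (ContinuousLinearMap.le_opNorm _ _).trans ?_
        gcongr
        exact le_of_lt (hb1 (hz z h)).1)
    rw [hℓ2, dist_comm] at this
    refine ((le_abs_self _).trans this).trans ?_
    gcongr
    linarith
  · intro u v hu hv
    have hm : ∀ t ∈ Icc (0 : ℝ) 1, u + t • (v - u) ∈ ball (φ p) s₂ := fun t ht =>
      (convex_ball (φ p) s₂).add_smul_sub_mem (mem_ball_iff_norm.2 (by linarith))
        (mem_ball_iff_norm.2 (by linarith)) ht
    refine dist_symm_le p (by positivity) (fun t ht => (hb2 (hm t ht)).2) fun t ht => ?_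
    refine (ContinuousLinearMap.le_opNorm _ _).trans ?_
    rw [norm_sub_rev]
    gcongr
    linarith [show ‖T.symmL ℝ (φ.symm (u + t • (v - u)))‖ < C₂ from (hb2 (hm t ht)).1]
  · intro x hx
    apply φ.left_inv
    rw [hφ, extChartAt_source]
    exact (hb1 (mem_ball.2 (by linarith))).2
  · intro u hu
    exact φ.right_inv (hb2 (mem_ball_iff_norm.2 (by linarith))).2

section Maps

variable {V : Type*} [NormedAddCommGroup V] [NormedSpace ℝ V]

omit [IsManifold 𝓘(ℝ, E) ∞ M] in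
set_option backward.isDefEq.respectTransparency false in
theorem dist_le_of_mfderiv [IsRiemannianManifold 𝓘(ℝ, E) M] {F : V → M}
    (hF : ContMDiff 𝓘(ℝ, V) 𝓘(ℝ, E) 1 F) {y y' : V} {B : ℝ} (hB : 0 ≤ B)
    (hb : ∀ t ∈ Icc (0 : ℝ) 1, ‖mfderiv 𝓘(ℝ, V) 𝓘(ℝ, E) F (y + t • (y' - y)) (y' - y)‖ ≤ B) :
    dist (F y) (F y') ≤ B := by
  let η : ℝ → V := fun t => y + t • (y' - y)
  have η_smooth : ContMDiff 𝓘(ℝ, ℝ) 𝓘(ℝ, V) 1 η := by
    rw [contMDiff_iff_contDiff]
    fun_prop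
  have h1 : riemannianEDist 𝓘(ℝ, E) (F y) (F y') ≤ pathELength 𝓘(ℝ, E) (F ∘ η) 0 1 := by
    apply riemannianEDist_le_pathELength _ _ _ zero_le_one
    · exact (hF.comp η_smooth).contMDiffOn
    · simp [η]
    · simp [η]
  have h2 : pathELength 𝓘(ℝ, E) (F ∘ η) 0 1 ≤ ENNReal.ofReal B := by
    rw [pathELength_eq_lintegral_mfderiv_Icc]
    calc ∫⁻ t in Icc (0 : ℝ) 1, ‖mfderiv 𝓘(ℝ, ℝ) 𝓘(ℝ, E) (F ∘ η) t 1‖ₑ
        ≤ ∫⁻ t in Icc (0 : ℝ) 1, ENNReal.ofReal B := by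
          apply setLIntegral_mono' measurableSet_Icc (fun t ht => ?_)
          have e2 : mfderiv 𝓘(ℝ, ℝ) 𝓘(ℝ, V) η t 1 = y' - y := by
            rw [mfderiv_eq_fderiv]
            have hd : HasDerivAt η (y' - y) t := by
              have := ((hasDerivAt_id t).smul_const (y' - y)).const_add y
              rwa [one_smul] at this
            exact hd.deriv
          have e3 : mfderiv 𝓘(ℝ, ℝ) 𝓘(ℝ, E) (F ∘ η) t 1 =
              mfderiv 𝓘(ℝ, V) 𝓘(ℝ, E) F (η t) (y' - y) := by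
            rw [mfderiv_comp t (hF.mdifferentiable one_ne_zero _)
              (η_smooth.mdifferentiable one_ne_zero _)]
            exact congrArg (mfderiv 𝓘(ℝ, V) 𝓘(ℝ, E) F (η t)) e2
          rw [e3, ← ofReal_norm]
          exact ENNReal.ofReal_le_ofReal (hb t ht)
      _ = ENNReal.ofReal B := by simp
  have h3 := h1.trans h2
  rw [← IsRiemannianManifold.out, edist_dist] at h3
  exact (ENNReal.ofReal_le_ofReal_iff hB).1 h3

set_option backward.isDefEq.respectTransparency false in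
theorem continuous_norm_mfderiv
    [IsContMDiffRiemannianBundle 𝓘(ℝ, E) ∞ E (fun x : M => TangentSpace 𝓘(ℝ, E) x)] {F : V → M}
    (hF : ContMDiff 𝓘(ℝ, V) 𝓘(ℝ, E) 1 F) (v : V) :
    Continuous fun x => ‖mfderiv 𝓘(ℝ, V) 𝓘(ℝ, E) F x v‖ := by
  have := contRiem (E := E) (M := M)
  have h1 : Continuous fun x : V => (⟨x, v⟩ : TangentBundle 𝓘(ℝ, V) V) :=
    (tangentBundleModelSpaceHomeomorph 𝓘(ℝ, V)).symm.continuous.comp
      (f := fun x : V => ((x, v) : V × V)) (by fun_prop)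
  have h2 := (hF.continuous_tangentMap le_rfl).comp h1
  have h3 := Continuous.inner_bundle (F := E) (E := fun x : M => TangentSpace 𝓘(ℝ, E) x)
    (b := F) (v := fun x => mfderiv 𝓘(ℝ, V) 𝓘(ℝ, E) F x v)
    (w := fun x => mfderiv 𝓘(ℝ, V) 𝓘(ℝ, E) F x v) h2 h2
  simp only [norm_eq_sqrt_real_inner]
  exact h3.sqrt

end Maps

end Pool.Agent.Lib.MP_3eff7f_gt
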