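import Pool.Agent.Lib.MP_3eff7f_gt.Seg

set_option autoImplicit false

open Set Filter Topology Metric

namespace Pool.Agent.Lib.MP_3eff7f_gt

variable {M : Type*} [MetricSpace M]

/-- There is a unit speed periodic geodesic with period at most `T`. -/
def HasShortGeodesic (M : Type*) [MetricSpace M] (T : ℝ) : Prop :=
  ∃ (γ : ℝ → M) (L : ℝ), 0 < L ∧ L ≤ T ∧ Function.Periodic γ L ∧
    ∀ t : ℝ, ∃ ε > 0, ∀ a b : ℝ, |a - t| < ε → |b - t| < ε → dist (γ a) (γ b) = |a - b|

theorem HasShortGeodesic.mono {T T' : ℝ} (h : HasShortGeodesic M T) (hT : T ≤ T') :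
    HasShortGeodesic M T' := by
  obtain ⟨γ, L, h1, h2, h3, h4⟩ := h
  exact ⟨γ, L, h1, h2.trans hT, h3, h4⟩

def XS (σ : M → M) (N : ℕ) (a : ℝ) : Set (ℤ → M) :=
  {x | (∀ i, x (i + N) = σ (x i)) ∧ ∀ i, dist (x i) (x (i + 1)) ≤ a}

noncomputable def En (N : ℕ) (x : ℤ → M) : ℝ :=
  ∑ i ∈ Finset.range N, dist (x i) (x (i + 1)) ^ 2

noncomputable def Phi (x : ℤ → M) : ℤ → M := fun i => mid (x i) (x (i + 1))

theorem XS_mono {σ : M → M} {N : ℕ} {a b : ℝ} (h : a ≤ b) : XS σ N a ⊆ XS σ N b :=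
  fun _ hx => ⟨hx.1, fun i => (hx.2 i).trans h⟩

theorem isClosed_XS {σ : M → M} (hσ : Continuous σ) (N : ℕ) (a : ℝ) : IsClosed (XS σ N a) := by
  have : XS σ N a = (⋂ i : ℤ, {x : ℤ → M | x (i + N) = σ (x i)}) ∩
      ⋂ i : ℤ, {x : ℤ → M | dist (x i) (x (i + 1)) ≤ a} := by
    ext x; simp [XS]
  rw [this]
  refine IsClosed.inter (isClosed_iInter fun i => ?_) (isClosed_iInter fun i => ?_)
  · exact isClosed_eq (continuous_apply _) (hσ.comp (continuous_apply _))
  · exact isClosed_le (by fun_prop) continuous_const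

theorem continuous_En (N : ℕ) : Continuous (En (M := M) N) := by
  unfold En
  fun_prop

theorem En_nonneg (N : ℕ) (x : ℤ → M) : 0 ≤ En N x :=
  Finset.sum_nonneg fun _ _ => sq_nonneg _

theorem En_le {σ : M → M} {N : ℕ} {a : ℝ} {x : ℤ → M} (hx : x ∈ XS σ N a) :
    En N x ≤ N * a ^ 2 := by
  unfold En
  calc ∑ i ∈ Finset.range N, dist (x i) (x (i + 1)) ^ 2 ≤ ∑ _i ∈ Finset.range N, a ^ 2 := by
        apply Finset.sum_le_sum
        intro i _
        exact pow_le_pow_left₀ dist_nonneg (hx.2 i) 2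
    _ = N * a ^ 2 := by simp

theorem dist_base_sq_le {σ : M → M} {N : ℕ} {a : ℝ} {x : ℤ → M} (hx : x ∈ XS σ N a) :
    dist (x 0) (σ (x 0)) ^ 2 ≤ N * En N x := by
  have h1 : dist (x 0) (σ (x 0)) ≤ ∑ i ∈ Finset.range N, dist (x i) (x (i + 1)) := by
    have := dist_le_range_sum_dist (fun i : ℕ => x i) N
    rw [← hx.1 0]
    simpa using this
  have h2 := sq_sum_le_card_mul_sum_sq (s := Finset.range N)
    (f := fun i : ℕ => dist (x i) (x (i + 1)))
  rw [Finset.card_range] at h2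
  exact (pow_le_pow_left₀ dist_nonneg h1 2).trans h2

theorem periodic_int_ext {α : Type*} {f : ℤ → α} {N : ℕ} (hN : 0 < N)
    (hf : ∀ i, f (i + N) = f i) (i : ℤ) : ∃ k ∈ Finset.range N, f i = f k := by
  have hp : Function.Periodic f (N : ℤ) := hf
  have hN' : (0 : ℤ) < N := by exact_mod_cast hN
  refine ⟨(i % N).toNat, ?_, ?_⟩
  · rw [Finset.mem_range]
    have := Int.emod_lt_of_pos i hN'
    have := Int.emod_nonneg i hN'.ne'
    omega
  · rw [Int.toNat_of_nonneg (Int.emod_nonneg i hN'.ne')]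
    have := hp.int_mul (i / N) (i % N)
    rw [← this]
    congr 1
    have := Int.emod_add_mul_ediv i N
    push_cast
    linarith

namespace GeoData

variable {r : ℝ} (G : GeoData M r)
include G

theorem dist_Phi_le (x : ℤ → M) (i : ℤ) : dist (Phi x i) (Phi x (i + 1)) ≤
    (dist (x i) (x (i + 1)) + dist (x (i + 1)) (x (i + 1 + 1))) / 2 := by
  have h1 := G.dist_mid_right (x i) (x (i + 1))
  have h2 := G.dist_left_mid (x (i + 1)) (x (i + 1 + 1))
  have h3 := dist_triangle (Phi x i) (x (i + 1)) (Phi x (i + 1))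
  unfold Phi at h3 ⊢
  linarith

theorem Phi_mem {σ : M → M} (hσ : Isometry σ) {N : ℕ} {a : ℝ} (ha : a < r) {x : ℤ → M}
    (hx : x ∈ XS σ N a) : Phi x ∈ XS σ N a := by
  refine ⟨fun i => ?_, fun i => ?_⟩
  · unfold Phi
    rw [hx.1, add_right_comm, hx.1, G.mid_isometry hσ ((hx.2 i).trans_lt ha)]
  · have h1 := G.dist_Phi_le x i
    have h2 := hx.2 i
    have h3 := hx.2 (i + 1)
    linarith

theorem continuousOn_Phi [CompactSpace M] {σ : M → M} {N : ℕ} {a : ℝ} (ha : a < r) :
    ContinuousOn (Phi (M := M)) (XS σ N a) := by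
  rw [continuousOn_pi]
  intro i
  have h : Continuous fun x : ℤ → M => (x i, x (i + 1)) := by fun_prop
  exact G.continuousOn_mid.comp h.continuousOn fun x hx => (hx.2 i).trans_lt ha

theorem dist_Phi_base {σ : M → M} {N : ℕ} {a : ℝ} {x : ℤ → M} (hx : x ∈ XS σ N a) :
    dist (x 0) (Phi x 0) ≤ a / 2 := by
  have h1 := G.dist_left_mid (x 0) (x (0 + 1))
  have h2 := hx.2 0
  exact h1.trans (div_le_div_of_nonneg_right h2 (by norm_num))

omit G in
theorem sum_shift {f : ℤ → ℝ} {N : ℕ} (hf : ∀ i, f (i + N) = f i) :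
    ∑ i ∈ Finset.range N, f (i + 1) = ∑ i ∈ Finset.range N, f i := by
  have h1 := Finset.sum_range_succ (fun i : ℕ => f i) N
  have h2 := Finset.sum_range_succ' (fun i : ℕ => f i) N
  have h3 := hf 0
  simp only [zero_add] at h3
  push_cast at h2
  linarith

omit G in
theorem En_sub_Phi {σ : M → M} (hσ : Isometry σ) {N : ℕ} {a : ℝ} {x : ℤ → M}
    (hx : x ∈ XS σ N a) : En N x - En N (Phi x) = ∑ i ∈ Finset.range N,
      ((dist (x i) (x (i + 1)) ^ 2 + dist (x (i + 1)) (x (i + 1 + 1)) ^ 2) / 2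
        - dist (Phi x i) (Phi x (i + 1)) ^ 2) := by
  have hper : ∀ i : ℤ, dist (x (i + N)) (x (i + N + 1)) ^ 2 = dist (x i) (x (i + 1)) ^ 2 := by
    intro i
    rw [hx.1, add_right_comm, hx.1, hσ.dist_eq]
  have h := sum_shift (f := fun i => dist (x i) (x (i + 1)) ^ 2) hper
  rw [Finset.sum_sub_distrib, ← Finset.sum_div, Finset.sum_add_distrib, h]
  unfold En
  ring

theorem term_nonneg (x : ℤ → M) (i : ℤ) :
    0 ≤ (dist (x i) (x (i + 1)) ^ 2 + dist (x (i + 1)) (x (i + 1 + 1)) ^ 2) / 2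
        - dist (Phi x i) (Phi x (i + 1)) ^ 2 := by
  have h1 := pow_le_pow_left₀ dist_nonneg (G.dist_Phi_le x i) 2
  nlinarith [sq_nonneg (dist (x i) (x (i + 1)) - dist (x (i + 1)) (x (i + 1 + 1)))]

theorem En_Phi_le {σ : M → M} (hσ : Isometry σ) {N : ℕ} {a : ℝ} {x : ℤ → M}
    (hx : x ∈ XS σ N a) : En N (Phi x) ≤ En N x := by
  have h := En_sub_Phi hσ hx
  have : 0 ≤ En N x - En N (Phi x) := by
    rw [h]
    exact Finset.sum_nonneg fun i _ => G.term_nonneg x i
  linarith

theorem critical {σ : M → M} (hσ : Isometry σ) {N : ℕ} (hN : 0 < N) {a : ℝ} (ha : a < r)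
    {x : ℤ → M} (hx : x ∈ XS σ N a) (hc : En N x ≤ En N (Phi x)) (i : ℤ) :
    dist (x i) (x (i + 1)) = dist (x 0) (x 1) ∧
      dist (Phi x i) (Phi x (i + 1)) = dist (x 0) (x 1) := by
  have h := En_sub_Phi hσ hx
  have h0 : ∑ i ∈ Finset.range N,
      ((dist (x i) (x (i + 1)) ^ 2 + dist (x (i + 1)) (x (i + 1 + 1)) ^ 2) / 2
        - dist (Phi x i) (Phi x (i + 1)) ^ 2) = 0 := by
    apply le_antisymm (by linarith)
    exact Finset.sum_nonneg fun i _ => G.term_nonneg x i
  replace h0 := (Finset.sum_eq_zero_iff_of_nonneg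
    fun (i : ℕ) _ => G.term_nonneg x (i : ℤ)).1 h0
  have hy := G.Phi_mem hσ ha hx
  have hall : ∀ i : ℤ, (dist (x i) (x (i + 1)) ^ 2 + dist (x (i + 1)) (x (i + 1 + 1)) ^ 2) / 2
        - dist (Phi x i) (Phi x (i + 1)) ^ 2 = 0 := by
    intro i
    obtain ⟨k, hk, e⟩ := periodic_int_ext hN
      (f := fun i => (dist (x i) (x (i + 1)) ^ 2 + dist (x (i + 1)) (x (i + 1 + 1)) ^ 2) / 2
        - dist (Phi x i) (Phi x (i + 1)) ^ 2) (by
        intro i
        have e1 : i + N + 1 = i + 1 + N := by ring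
        have e2 : i + N + 1 + 1 = i + 1 + 1 + N := by ring
        rw [e2, e1, hx.1, hx.1, hx.1, hy.1, hy.1, hσ.dist_eq, hσ.dist_eq, hσ.dist_eq]) i
    rw [e]
    exact h0 k hk
  have hstep : ∀ i : ℤ, dist (x i) (x (i + 1)) = dist (x (i + 1)) (x (i + 1 + 1)) ∧
      dist (Phi x i) (Phi x (i + 1)) = dist (x i) (x (i + 1)) := by
    intro i
    have e := hall i
    have h1 := pow_le_pow_left₀ dist_nonneg (G.dist_Phi_le x i) 2
    have h2 : (dist (x i) (x (i + 1)) - dist (x (i + 1)) (x (i + 1 + 1))) ^ 2 = 0 := by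
      apply le_antisymm _ (sq_nonneg _)
      nlinarith
    have h3 : dist (x i) (x (i + 1)) = dist (x (i + 1)) (x (i + 1 + 1)) := by
      have := pow_eq_zero_iff (two_ne_zero) |>.1 h2
      linarith
    refine ⟨h3, ?_⟩
    rw [← h3] at e
    have h4 : dist (Phi x i) (Phi x (i + 1)) ^ 2 = dist (x i) (x (i + 1)) ^ 2 := by linarith
    exact (pow_left_inj₀ dist_nonneg dist_nonneg two_ne_zero).1 h4
  have hconst : ∀ i : ℤ, dist (x i) (x (i + 1)) = dist (x 0) (x 1) := by
    intro i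
    induction i using Int.induction_on with
    | zero => simp
    | succ k ih => rw [← (hstep k).1, ih]
    | pred k ih =>
      have := (hstep (-(k : ℤ) - 1)).1
      rw [this]
      simpa using ih
  exact ⟨hconst i, (hstep i).2.trans (hconst i)⟩

/-- A fixed point of the energy gives a periodic geodesic. -/
theorem hasShortGeodesic_of_critical {σ : M → M} (hσ : Isometry σ) (o : ℕ) (ho : 0 < o)
    (hσo : ∀ x, σ^[o] x = x) {N : ℕ} (hN : 0 < N) {a : ℝ} (ha : a < r)
    {x : ℤ → M} (hx : x ∈ XS σ N a) (hc : En N x ≤ En N (Phi x)) (hpos : 0 < En N x) {T : ℝ}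
    (hT0 : 0 ≤ T) (hT : N * En N x ≤ T ^ 2) : HasShortGeodesic M (o * T) := by
  have hcr := G.critical hσ hN ha hx hc
  set s := dist (x 0) (x 1) with hs
  have hE : En N x = N * s ^ 2 := by
    unfold En
    rw [Finset.sum_congr rfl fun i _ => by rw [(hcr i).1]]
    simp
  have hNpos : (0 : ℝ) < N := by exact_mod_cast hN
  have hs0 : 0 < s := by
    rcases (dist_nonneg : 0 ≤ s).lt_or_eq with h | h
    · exact h
    · have h' : s = 0 := h.symm
      rw [hE, h'] at hpos
      simp at hpos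
  have hNs : N * s ≤ T := by
    rw [hE] at hT
    apply le_of_sq_le_sq _ hT0
    nlinarith
  have hy := G.Phi_mem hσ ha hx
  have hxo : ∀ (y : ℤ → M), (∀ i, y (i + N) = σ (y i)) → ∀ (k : ℕ) (i : ℤ),
      y (i + k * N) = σ^[k] (y i) := by
    intro y hy k i
    induction k with
    | zero => simp
    | succ k ih =>
      rw [Function.iterate_succ_apply', ← ih, ← hy]
      congr 1
      push_cast
      ring
  let z : ℤ → M := fun j => if j % 2 = 0 then x (j / 2) else Phi x (j / 2)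
  have hm1 : ∀ i, dist (x i) (Phi x i) = s / 2 ∧ dist (Phi x i) (x (i + 1)) = s / 2 := by
    intro i
    have h1 := G.dist_left_mid (x i) (x (i + 1))
    have h2 := G.dist_mid_right (x i) (x (i + 1))
    have h3 := dist_triangle (x i) (Phi x i) (x (i + 1))
    have h4 := (hcr i).1
    unfold Phi at h3 ⊢
    constructor <;> linarith
  obtain ⟨γ, hper, hloc⟩ := exists_periodic_geodesic G.geo z (s := s / 2) (by linarith)
    (by
      intro j
      rcases Int.emod_two_eq_zero_or_one j with h | h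
      · have e1 : (j + 1) % 2 ≠ 0 := by omega
        have e2 : (j + 1) / 2 = j / 2 := by omega
        simp only [z, h, e1, e2, if_true, if_false]
        exact (hm1 _).1
      · have e0 : j % 2 ≠ 0 := by omega
        have e1 : (j + 1) % 2 = 0 := by omega
        have e2 : (j + 1) / 2 = j / 2 + 1 := by omega
        simp only [z, e0, e1, e2, if_true, if_false]
        exact (hm1 _).2)
    (by
      intro j
      have e1 : (j + 2) % 2 = j % 2 := by omega
      have e2 : (j + 2) / 2 = j / 2 + 1 := by omega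
      simp only [z, e1, e2]
      split_ifs
      · rw [(hcr _).1]; ring
      · rw [(hcr _).2]; ring)
    (2 * (o * N)) (by
      intro j
      have e1 : (j + 2 * (o * N)) % 2 = j % 2 := by omega
      have e2 : (j + 2 * (o * N)) / 2 = j / 2 + o * N := by omega
      simp only [z, e1, e2]
      rw [hxo x hx.1, hxo _ hy.1, hσo, hσo])
  have hopos : (0 : ℝ) < o := by exact_mod_cast ho
  refine ⟨γ, _, ?_, ?_, hper, hloc⟩
  · push_cast
    positivity
  · push_cast
    nlinarith

/-- Without critical points, iterating the Birkhoff map makes the energy small. -/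
theorem exists_iterate_lt [CompactSpace M] {σ : M → M} (hσ : Isometry σ) {N : ℕ} {a : ℝ}
    (ha : a < r) {η : ℝ} (hη : 0 < η)
    (hno : ∀ x ∈ XS σ N a, η ≤ En N x → En N (Phi x) < En N x) :
    ∃ K : ℕ, ∀ x ∈ XS σ N a, En N (Phi^[K] x) < η := by
  have hK : IsCompact (XS σ N a ∩ {x | η ≤ En N x}) :=
    ((isClosed_XS hσ.continuous N a).inter
      (isClosed_le continuous_const (continuous_En N))).isCompact
  obtain ⟨δ, hδ, hδle⟩ : ∃ δ > 0, ∀ x ∈ XS σ N a, η ≤ En N x → En N (Phi x) ≤ En N x - δ := by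
    rcases (XS σ N a ∩ {x | η ≤ En N x}).eq_empty_or_nonempty with he | hne
    · refine ⟨1, one_pos, fun x hx hx' => ?_⟩
      have : x ∈ XS σ N a ∩ {x | η ≤ En N x} := ⟨hx, hx'⟩
      rw [he] at this
      exact this.elim
    · obtain ⟨x₀, hx₀, hmin⟩ := hK.exists_isMinOn (f := fun x => En N x - En N (Phi x)) hne
        ((continuous_En N).continuousOn.sub ((continuous_En N).comp_continuousOn
          ((G.continuousOn_Phi ha).mono inter_subset_left)))
      refine ⟨En N x₀ - En N (Phi x₀), sub_pos.2 (hno x₀ hx₀.1 hx₀.2), fun x hx hx' => ?_⟩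
      have : En N x₀ - En N (Phi x₀) ≤ En N x - En N (Phi x) := hmin (show x ∈ _ from ⟨hx, hx'⟩)
      linarith
  have key : ∀ k : ℕ, ∀ x ∈ XS σ N a, Phi^[k] x ∈ XS σ N a ∧
      (En N (Phi^[k] x) < η ∨ En N (Phi^[k] x) ≤ N * a ^ 2 - k * δ) := by
    intro k x hx
    induction k with
    | zero => exact ⟨hx, Or.inr (by simpa using En_le hx)⟩
    | succ k ih =>
      rw [Function.iterate_succ_apply']
      refine ⟨G.Phi_mem hσ ha ih.1, ?_⟩
      by_cases h : En N (Phi^[k] x) < η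
      · exact Or.inl ((G.En_Phi_le hσ ih.1).trans_lt h)
      · right
        have h1 := hδle _ ih.1 (le_of_not_gt h)
        have h2 := ih.2.resolve_left h
        push_cast
        linarith
  obtain ⟨K, hKgt⟩ := exists_nat_gt (N * a ^ 2 / δ)
  refine ⟨K, fun x hx => ?_⟩
  rcases (key K x hx).2 with h | h
  · exact h
  · rw [div_lt_iff₀ hδ] at hKgt
    linarith

theorem iterate_mem {σ : M → M} (hσ : Isometry σ) {N : ℕ} {a : ℝ} (ha : a < r) {x : ℤ → M}
    (hx : x ∈ XS σ N a) (k : ℕ) : Phi^[k] x ∈ XS σ N a := by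
  induction k with
  | zero => exact hx
  | succ k ih => rw [Function.iterate_succ_apply']; exact G.Phi_mem hσ ha ih

theorem continuous_iterate [CompactSpace M] {Y : Type*} [TopologicalSpace Y] {σ : M → M}
    (hσ : Isometry σ) {N : ℕ} {a : ℝ} (ha : a < r) {P : Y → ℤ → M} (hP : Continuous P)
    (hPm : ∀ y, P y ∈ XS σ N a) (k : ℕ) : Continuous fun y => Phi^[k] (P y) := by
  induction k with
  | zero => exact hP
  | succ k ih =>
    simp only [Function.iterate_succ_apply']
    exact (G.continuousOn_Phi ha).comp_continuous ih fun y => G.iterate_mem hσ ha (hPm y) k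

end GeoData

end Pool.Agent.Lib.MP_3eff7f_gt
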