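import Pool.Agent.Lib.MP_3eff7f_gt.Geo

set_option autoImplicit false

open Set Filter Topology Metric Bundle Manifold MeasureTheory
open scoped Manifold ContDiff ENNReal

namespace Pool.Agent.Lib.MP_3eff7f_gt

variable {E : Type*} [NormedAddCommGroup E] [NormedSpace ℝ E]
  {M : Type*} [MetricSpace M] [ChartedSpace E M] [IsManifold 𝓘(ℝ, E) ∞ M]
  [RiemannianBundle (fun x : M => TangentSpace 𝓘(ℝ, E) x)]

omit [IsManifold 𝓘(ℝ, E) ∞ M] in
theorem approx_between [IsRiemannianManifold 𝓘(ℝ, E) M] (u v : M) (τ : ℝ) (h0 : 0 ≤ τ)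
    (h1 : τ ≤ dist u v) (ε : ℝ) (hε : 0 < ε) :
    ∃ w, dist u w ≤ τ ∧ dist w v ≤ dist u v - τ + ε := by
  have hlt : riemannianEDist 𝓘(ℝ, E) u v < ENNReal.ofReal (dist u v + ε) := by
    rw [← IsRiemannianManifold.out, edist_dist]
    exact (ENNReal.ofReal_lt_ofReal_iff (by positivity)).2 (by linarith)
  obtain ⟨γ, hγ0, hγ1, hγs, hγl⟩ := exists_lt_of_riemannianEDist_lt hlt
  have hc : ContinuousOn (fun t => dist u (γ t)) (Icc 0 1) :=
    (continuous_const.dist continuous_id).comp_continuousOn hγs.continuousOn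
  obtain ⟨t, ht, htτ⟩ := intermediate_value_Icc zero_le_one hc
    (show τ ∈ Icc (dist u (γ 0)) (dist u (γ 1)) by simp [hγ0, hγ1, h0, h1])
  simp only at htτ
  refine ⟨γ t, htτ.le, ?_⟩
  have e1 : edist u (γ t) ≤ pathELength 𝓘(ℝ, E) γ 0 t := by
    rw [IsRiemannianManifold.out (I := 𝓘(ℝ, E))]
    exact riemannianEDist_le_pathELength (hγs.mono (Icc_subset_Icc le_rfl ht.2)) hγ0 rfl ht.1
  have e2 : edist (γ t) v ≤ pathELength 𝓘(ℝ, E) γ t 1 := by
    rw [IsRiemannianManifold.out (I := 𝓘(ℝ, E))]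
    exact riemannianEDist_le_pathELength (hγs.mono (Icc_subset_Icc ht.1 le_rfl)) rfl hγ1 ht.2
  have e3 := (add_le_add e1 e2).trans_lt (by rwa [pathELength_add ht.1 ht.2])
  rw [edist_dist, edist_dist, ← ENNReal.ofReal_add dist_nonneg dist_nonneg,
    ENNReal.ofReal_lt_ofReal_iff (by positivity)] at e3
  linarith

omit [IsManifold 𝓘(ℝ, E) ∞ M] in
theorem geo_of_riemannian [IsRiemannianManifold 𝓘(ℝ, E) M] [CompactSpace M] (u v : M) :
    ∃ c, IsSeg u v c :=
  exists_isSeg (exists_between_of_approx (approx_between (E := E))) u v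

set_option backward.isDefEq.respectTransparency false in
theorem metric_in_chart
    [h : IsContMDiffRiemannianBundle 𝓘(ℝ, E) ∞ E (fun x : M => TangentSpace 𝓘(ℝ, E) x)]
    (p : M) : ∃ g : M → E →L[ℝ] E →L[ℝ] ℝ,
      ContMDiffAt 𝓘(ℝ, E) 𝓘(ℝ, E →L[ℝ] E →L[ℝ] ℝ) ∞ g p ∧
      ∀ x ∈ (chartAt E p).source, ∀ v w : E, g x v w =
        inner ℝ ((trivializationAt E (TangentSpace 𝓘(ℝ, E)) p).symmL ℝ x v)
          ((trivializationAt E (TangentSpace 𝓘(ℝ, E)) p).symmL ℝ x w) := by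
  rcases h.exists_contMDiff with ⟨g, g_smooth, hg⟩
  refine ⟨fun y => ContinuousLinearMap.inCoordinates E (fun x : M => TangentSpace 𝓘(ℝ, E) x)
    (E →L[ℝ] ℝ) (fun x : M => TangentSpace 𝓘(ℝ, E) x →L[ℝ] ℝ) p y p y (g y), ?_, ?_⟩
  · have W := g_smooth.contMDiffAt (x := p)
    rw [contMDiffAt_hom_bundle] at W
    exact W.2
  · intro x hx v w
    have h'x : x ∈ (trivializationAt E (TangentSpace 𝓘(ℝ, E)) p).baseSet := by simpa using hx
    rw [inCoordinates_apply_eq₂ h'x h'x (Set.mem_univ _), hg]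
    rw [Trivialization.symmL_apply _ h'x, Trivialization.symmL_apply _ h'x]
    simp

set_option backward.isDefEq.respectTransparency false in
theorem dist_symm_le [IsRiemannianManifold 𝓘(ℝ, E) M] (p : M) {y y' : E} {B : ℝ} (hB : 0 ≤ B)
    (hseg : ∀ t ∈ Icc (0 : ℝ) 1, y + t • (y' - y) ∈ (extChartAt 𝓘(ℝ, E) p).target)
    (hb : ∀ t ∈ Icc (0 : ℝ) 1, ‖(trivializationAt E (TangentSpace 𝓘(ℝ, E)) p).symmL ℝ
      ((extChartAt 𝓘(ℝ, E) p).symm (y + t • (y' - y))) (y' - y)‖ ≤ B) :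
    dist ((extChartAt 𝓘(ℝ, E) p).symm y) ((extChartAt 𝓘(ℝ, E) p).symm y') ≤ B := by
  let η : ℝ → E := fun t => y + t • (y' - y)
  set γ := (extChartAt 𝓘(ℝ, E) p).symm ∘ η with hγ
  have η_smooth : ContMDiff 𝓘(ℝ, ℝ) 𝓘(ℝ, E) 1 η := by
    rw [contMDiff_iff_contDiff]
    fun_prop
  have h1 : riemannianEDist 𝓘(ℝ, E) ((extChartAt 𝓘(ℝ, E) p).symm y)
      ((extChartAt 𝓘(ℝ, E) p).symm y') ≤ pathELength 𝓘(ℝ, E) γ 0 1 := by
    apply riemannianEDist_le_pathELength _ _ _ zero_le_one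
    · exact (contMDiffOn_extChartAt_symm p).comp η_smooth.contMDiffOn hseg
    · simp [γ, η]
    · simp [γ, η]
  have h2 : pathELength 𝓘(ℝ, E) γ 0 1 ≤ ENNReal.ofReal B := by
    rw [pathELength_eq_lintegral_mfderivWithin_Icc]
    calc ∫⁻ t in Icc (0 : ℝ) 1, ‖mfderivWithin 𝓘(ℝ, ℝ) 𝓘(ℝ, E) γ (Icc 0 1) t 1‖ₑ
        ≤ ∫⁻ t in Icc (0 : ℝ) 1, ENNReal.ofReal B := by
          apply setLIntegral_mono' measurableSet_Icc (fun t ht => ?_)
          have e1 : mfderivWithin 𝓘(ℝ, ℝ) 𝓘(ℝ, E) γ (Icc 0 1) t =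
              (mfderivWithin 𝓘(ℝ, E) 𝓘(ℝ, E) (extChartAt 𝓘(ℝ, E) p).symm (range 𝓘(ℝ, E)) (η t))
                ∘L (mfderivWithin 𝓘(ℝ, ℝ) 𝓘(ℝ, E) η (Icc 0 1) t) := by
            apply mfderivWithin_comp
            · exact mdifferentiableWithinAt_extChartAt_symm (hseg t ht)
            · exact η_smooth.contMDiffOn.mdifferentiableOn one_ne_zero t ht
            · intro s _
              simp
            · rw [uniqueMDiffWithinAt_iff_uniqueDiffWithinAt]
              exact uniqueDiffOn_Icc zero_lt_one t ht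
          have e2 : mfderivWithin 𝓘(ℝ, ℝ) 𝓘(ℝ, E) η (Icc 0 1) t 1 = y' - y := by
            rw [mfderivWithin_eq_fderivWithin]
            have hd : HasDerivAt η (y' - y) t := by
              have := ((hasDerivAt_id t).smul_const (y' - y)).const_add y
              rwa [one_smul] at this
            have := hd.hasDerivWithinAt.derivWithin (uniqueDiffOn_Icc zero_lt_one t ht)
            rw [← this, ← fderivWithin_derivWithin]
            rfl
          have hsrc : (extChartAt 𝓘(ℝ, E) p).symm (η t) ∈ (chartAt E p).source := by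
            have := (extChartAt 𝓘(ℝ, E) p).map_target (hseg t ht)
            rwa [extChartAt_source] at this
          have e3 := TangentBundle.symmL_trivializationAt (I := 𝓘(ℝ, E)) hsrc
          rw [(extChartAt 𝓘(ℝ, E) p).right_inv (hseg t ht)] at e3
          have e4 : mfderivWithin 𝓘(ℝ, ℝ) 𝓘(ℝ, E) γ (Icc 0 1) t 1 =
              (trivializationAt E (TangentSpace 𝓘(ℝ, E)) p).symmL ℝ
                ((extChartAt 𝓘(ℝ, E) p).symm (η t)) (y' - y) := by
            rw [e1, e3]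
            exact congrArg (mfderivWithin 𝓘(ℝ, E) 𝓘(ℝ, E) (extChartAt 𝓘(ℝ, E) p).symm
              (range 𝓘(ℝ, E)) (η t)) e2
          rw [e4, ← ofReal_norm]
          exact ENNReal.ofReal_le_ofReal (hb t ht)
      _ = ENNReal.ofReal B := by simp
  have h3 := h1.trans h2
  rw [← IsRiemannianManifold.out, edist_dist] at h3
  exact (ENNReal.ofReal_le_ofReal_iff hB).1 h3

set_option backward.isDefEq.respectTransparency false in
theorem functional_le_dist [IsRiemannianManifold 𝓘(ℝ, E) M] (p : M) {x x' : M} {δ B : ℝ}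
    (hB : 0 ≤ B) (ℓ : E →L[ℝ] ℝ) (hδ : dist x x' < δ)
    (hsrc : ∀ z, dist x z < δ → z ∈ (chartAt E p).source)
    (hb : ∀ z, dist x z < δ → ∀ w : E, |ℓ w| ≤
      B * ‖(trivializationAt E (TangentSpace 𝓘(ℝ, E)) p).symmL ℝ z w‖) :
    |ℓ (extChartAt 𝓘(ℝ, E) p x' - extChartAt 𝓘(ℝ, E) p x)| ≤ B * dist x x' := by
  have key : ∀ c, dist x x' < c → c ≤ δ →
      |ℓ (extChartAt 𝓘(ℝ, E) p x' - extChartAt 𝓘(ℝ, E) p x)| ≤ B * c := by
    intro c hc hcδ
    have hc0 : 0 < c := dist_nonneg.trans_lt hc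
    have hlt : riemannianEDist 𝓘(ℝ, E) x x' < ENNReal.ofReal c := by
      rw [← IsRiemannianManifold.out, edist_dist]
      exact (ENNReal.ofReal_lt_ofReal_iff hc0).2 hc
    obtain ⟨γ, hγ0, hγ1, hγs, hγl, -, -⟩ :=
      exists_lt_locally_constant_of_riemannianEDist_lt hlt zero_lt_one
    have hin : ∀ t ∈ Icc (0 : ℝ) 1, dist x (γ t) < δ := by
      intro t ht
      have e1 : edist x (γ t) ≤ pathELength 𝓘(ℝ, E) γ 0 t := by
        rw [IsRiemannianManifold.out (I := 𝓘(ℝ, E))]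
        exact riemannianEDist_le_pathELength hγs.contMDiffOn hγ0 rfl ht.1
      have e2 := (e1.trans (pathELength_mono le_rfl ht.2)).trans_lt hγl
      rw [edist_dist, ENNReal.ofReal_lt_ofReal_iff hc0] at e2
      linarith
    let γ' := extChartAt 𝓘(ℝ, E) p ∘ γ
    have hC : ContMDiffOn 𝓘(ℝ, ℝ) 𝓘(ℝ, E) 1 γ' (Icc 0 1) :=
      contMDiffOn_extChartAt.comp (I' := 𝓘(ℝ, E)) (t := (chartAt E p).source)
        hγs.contMDiffOn (fun t ht => hsrc _ (hin t ht))
    have hC' : ContDiffOn ℝ 1 γ' (Icc 0 1) := by rwa [← contMDiffOn_iff_contDiffOn]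
    have hF : ContDiffOn ℝ 1 (fun t => ℓ (γ' t)) (Icc 0 1) := ℓ.contDiff.comp_contDiffOn hC'
    have e1 := enorm_sub_le_lintegral_derivWithin_Icc_of_contDiffOn_Icc hF zero_le_one
    have e2 : ∫⁻ t in Icc (0 : ℝ) 1, ‖derivWithin (fun t => ℓ (γ' t)) (Icc 0 1) t‖ₑ ≤
        ∫⁻ t in Icc (0 : ℝ) 1, ENNReal.ofReal B *
          ‖mfderivWithin 𝓘(ℝ, ℝ) 𝓘(ℝ, E) γ (Icc 0 1) t 1‖ₑ := by
      apply setLIntegral_mono' measurableSet_Icc (fun t ht => ?_)
      have hu := uniqueDiffOn_Icc zero_lt_one t ht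
      have hd : HasDerivWithinAt γ' (derivWithin γ' (Icc 0 1) t) (Icc 0 1) t :=
        (hC'.differentiableOn one_ne_zero t ht).hasDerivWithinAt
      have hd2 : derivWithin (fun t => ℓ (γ' t)) (Icc 0 1) t = ℓ (derivWithin γ' (Icc 0 1) t) :=
        (ℓ.hasFDerivAt.comp_hasDerivWithinAt t hd).derivWithin hu
      have e3 : mfderivWithin 𝓘(ℝ, ℝ) 𝓘(ℝ, E) γ' (Icc 0 1) t =
          (mfderiv 𝓘(ℝ, E) 𝓘(ℝ, E) (extChartAt 𝓘(ℝ, E) p) (γ t)) ∘L
            (mfderivWithin 𝓘(ℝ, ℝ) 𝓘(ℝ, E) γ (Icc 0 1) t) := by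
        apply mfderiv_comp_mfderivWithin
        · exact mdifferentiableAt_extChartAt (hsrc _ (hin t ht))
        · exact (hγs.mdifferentiable one_ne_zero).mdifferentiableOn _ ht
        · rw [uniqueMDiffWithinAt_iff_uniqueDiffWithinAt]
          exact hu
      have e4 : derivWithin γ' (Icc 0 1) t =
          (trivializationAt E (TangentSpace 𝓘(ℝ, E)) p).continuousLinearMapAt ℝ (γ t)
            (mfderivWithin 𝓘(ℝ, ℝ) 𝓘(ℝ, E) γ (Icc 0 1) t 1) := by
        rw [TangentBundle.continuousLinearMapAt_trivializationAt (hsrc _ (hin t ht)),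
          ← fderivWithin_derivWithin, ← mfderivWithin_eq_fderivWithin, e3]
        rfl
      have h'x : γ t ∈ (trivializationAt E (TangentSpace 𝓘(ℝ, E)) p).baseSet := by
        simpa using hsrc _ (hin t ht)
      have e5 := hb _ (hin t ht) (derivWithin γ' (Icc 0 1) t)
      rw [e4, Trivialization.symmL_continuousLinearMapAt _ h'x, ← e4] at e5
      rw [hd2, ← ofReal_norm, ← ofReal_norm, ← ENNReal.ofReal_mul hB]
      exact ENNReal.ofReal_le_ofReal e5
    rw [lintegral_const_mul' _ _ ENNReal.ofReal_ne_top,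
      ← pathELength_eq_lintegral_mfderivWithin_Icc] at e2
    have e3 := (e1.trans e2).trans (mul_le_mul_right hγl.le _)
    rw [← ofReal_norm, ← ENNReal.ofReal_mul hB,
      ENNReal.ofReal_le_ofReal_iff (by positivity)] at e3
    simpa [γ', hγ0, hγ1] using e3
  have ht : Tendsto (fun c : ℝ => B * c) (𝓝[>] (dist x x')) (𝓝 (B * dist x x')) :=
    ((by fun_prop : Continuous fun c : ℝ => B * c).tendsto _).mono_left nhdsWithin_le_nhds
  apply ge_of_tendsto ht
  filter_upwards [Ioo_mem_nhdsGT hδ] with c hc using key c hc.1 hc.2.le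

end Pool.Agent.Lib.MP_3eff7f_gt
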