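import Pool.Agent.Lib.MP_3eff7f_gt.Chart

set_option autoImplicit false

open Set Filter Topology Metric Bundle Manifold MeasureTheory
open scoped Manifold ContDiff ENNReal

namespace Pool.Agent.Lib.MP_3eff7f_gt

/-- The local information on the distance near `p`, read in a chart. -/
structure ChartData (E : Type*) [NormedAddCommGroup E] [NormedSpace ℝ E] {M : Type*}
    [MetricSpace M] (p : M) where
  φ : M → E
  ψ : E → M
  g : E → E →L[ℝ] E →L[ℝ] ℝ
  ρ : ℝ
  ρ' : ℝ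
  lam : ℝ
  C : ℝ
  ρ'_pos : 0 < ρ'
  lam_pos : 0 < lam
  C_nonneg : 0 ≤ C
  maps : ∀ x, dist x p < ρ' → φ x ∈ ball (φ p) ρ
  left : ∀ x, dist x p < ρ' → ψ (φ x) = x
  symm : ∀ y ∈ ball (φ p) ρ, ∀ v w, g y v w = g y w v
  coer : ∀ y ∈ ball (φ p) ρ, ∀ v, lam * ‖v‖ ^ 2 ≤ g y v v
  lip : ∀ y ∈ ball (φ p) ρ, ∀ y' ∈ ball (φ p) ρ, ‖g y - g y'‖ ≤ C * ‖y - y'‖
  second : ∀ y h, y + h ∈ ball (φ p) ρ → y - h ∈ ball (φ p) ρ →
    ‖g (y + h) + g (y - h) - (g y + g y)‖ ≤ C * ‖h‖ ^ 2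
  upper : ∀ ε > 0, ∃ δ > 0, ∀ y ∈ ball (φ p) ρ, ∀ y' ∈ ball (φ p) ρ, ‖y' - y‖ < δ →
    dist (ψ y) (ψ y') ^ 2 ≤ (1 + ε) * g y (y' - y) (y' - y)
  lower : ∀ ε > 0, ∃ δ > 0, ∀ x x', dist x p < ρ' → dist x x' < δ →
    g (φ x) (φ x' - φ x) (φ x' - φ x) ≤ (1 + ε) * dist x x' ^ 2

theorem second_diff_le {E F : Type*} [NormedAddCommGroup E] [NormedSpace ℝ E]
    [NormedAddCommGroup F] [NormedSpace ℝ F] {g : E → F} {s : Set E} (hs : Convex ℝ s)
    (hd : ∀ y ∈ s, DifferentiableAt ℝ g y) {K : ℝ} (hK0 : 0 ≤ K)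
    (hK : ∀ y ∈ s, ∀ y' ∈ s, ‖fderiv ℝ g y - fderiv ℝ g y'‖ ≤ K * ‖y - y'‖) {y h : E}
    (h1 : y + h ∈ s) (h2 : y - h ∈ s) :
    ‖g (y + h) + g (y - h) - (g y + g y)‖ ≤ 2 * K * ‖h‖ ^ 2 := by
  have hmem : ∀ t ∈ Icc (-1 : ℝ) 1, y + t • h ∈ s := by
    intro t ht
    have := hs h1 h2 (a := (1 + t) / 2) (b := (1 - t) / 2) (by linarith [ht.1])
      (by linarith [ht.2]) (by ring)
    convert this using 1
    module
  have hder : ∀ t ∈ Icc (0 : ℝ) 1, HasDerivWithinAt (fun t : ℝ => g (y + t • h) + g (y + (-t) • h))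
      (fderiv ℝ g (y + t • h) h - fderiv ℝ g (y + (-t) • h) h) (Icc 0 1) t := by
    intro t ht
    have e1 : HasDerivAt (fun t : ℝ => y + t • h) h t := by
      have := ((hasDerivAt_id t).smul_const h).const_add y
      rwa [one_smul] at this
    have e2 : HasDerivAt (fun t : ℝ => y + (-t) • h) (-h) t := by
      have := (((hasDerivAt_id t).neg).smul_const h).const_add y
      rwa [neg_one_smul] at this
    have d1 := (hd _ (hmem t ⟨by linarith [ht.1], ht.2⟩)).hasFDerivAt.comp_hasDerivAt t e1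
    have d2 := (hd _ (hmem (-t) ⟨by linarith [ht.2], by linarith [ht.1]⟩)).hasFDerivAt.comp_hasDerivAt
      t e2
    have := (d1.add d2).hasDerivWithinAt (s := Icc 0 1)
    rw [map_neg, ← sub_eq_add_neg] at this
    exact this
  have := norm_image_sub_le_of_norm_deriv_le_segment_01' hder (C := 2 * K * ‖h‖ ^ 2) (by
    intro t ht
    rw [← sub_apply]
    refine (ContinuousLinearMap.le_opNorm _ _).trans ?_
    have e := hK _ (hmem t ⟨by linarith [ht.1], ht.2.le⟩) _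
      (hmem (-t) ⟨by linarith [ht.2], by linarith [ht.1]⟩)
    have e2 : ‖y + t • h - (y + (-t) • h)‖ ≤ 2 * ‖h‖ := by
      have : y + t • h - (y + (-t) • h) = (2 * t) • h := by module
      rw [this, norm_smul, Real.norm_eq_abs, abs_of_nonneg (by linarith [ht.1])]
      have := norm_nonneg h
      nlinarith [ht.2]
    calc ‖fderiv ℝ g (y + t • h) - fderiv ℝ g (y + (-t) • h)‖ * ‖h‖
        ≤ (K * (2 * ‖h‖)) * ‖h‖ := by
          gcongr
          exact e.trans (by gcongr)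
      _ = 2 * K * ‖h‖ ^ 2 := by ring)
  simpa [sub_eq_add_neg] using this

theorem bilin_le_add {E : Type*} [NormedAddCommGroup E] [NormedSpace ℝ E]
    (A B : E →L[ℝ] E →L[ℝ] ℝ) (w : E) : A w w ≤ B w w + ‖A - B‖ * ‖w‖ ^ 2 := by
  have h1 := (A - B).le_opNorm₂ w w
  have h2 : (A - B) w w ≤ ‖(A - B) w w‖ := Real.le_norm_self _
  simp only [sub_apply] at h1 h2
  nlinarith

variable {E : Type*} [NormedAddCommGroup E] [NormedSpace ℝ E]
  {M : Type*} [MetricSpace M] [ChartedSpace E M] [IsManifold 𝓘(ℝ, E) ∞ M]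
  [RiemannianBundle (fun x : M => TangentSpace 𝓘(ℝ, E) x)]

set_option backward.isDefEq.respectTransparency false in
theorem nonempty_chartData [CompactSpace M] [IsRiemannianManifold 𝓘(ℝ, E) M]
    [IsContMDiffRiemannianBundle 𝓘(ℝ, E) ∞ E (fun x : M => TangentSpace 𝓘(ℝ, E) x)]
    (p : M) : Nonempty (ChartData E p) := by
  obtain ⟨g0, hg0, hg⟩ := metric_in_chart (E := E) p
  set φ := extChartAt 𝓘(ℝ, E) p with hφ
  set T := trivializationAt E (TangentSpace 𝓘(ℝ, E)) p with hT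
  have htgt : φ.target ∈ 𝓝 (φ p) := extChartAt_target_mem_nhds p
  have hsrc_eq : φ.source = (chartAt E p).source := extChartAt_source _ p
  have hgd : ContDiffAt ℝ 2 (g0 ∘ φ.symm) (φ p) := by
    rw [← contMDiffAt_iff_contDiffAt]
    have h1 : ContMDiffAt 𝓘(ℝ, E) 𝓘(ℝ, E) 2 φ.symm (φ p) :=
      (contMDiffOn_extChartAt_symm p).contMDiffAt htgt
    have h2 : ContMDiffAt 𝓘(ℝ, E) 𝓘(ℝ, E →L[ℝ] E →L[ℝ] ℝ) 2 g0 (φ.symm (φ p)) := by
      rw [extChartAt_to_inv]
      exact hg0.of_le (by norm_cast)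
    exact h2.comp _ h1
  set g := g0 ∘ φ.symm with hg_def
  obtain ⟨K₁, t₁, ht₁, hK₁⟩ := (hgd.of_le one_le_two).exists_lipschitzOnWith
  obtain ⟨K₂, t₂, ht₂, hK₂⟩ := (hgd.fderiv_right (m := 1) (by norm_num)).exists_lipschitzOnWith
  have ht₃ : ∀ᶠ y in 𝓝 (φ p), DifferentiableAt ℝ g y := by
    filter_upwards [hgd.eventually (by simp)] with y hy using hy.differentiableAt (by simp)
  have hp_src : p ∈ (chartAt E p).source := mem_chart_source E p
  have hp_base : p ∈ T.baseSet := by simp [hT]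
  set A := ‖T.continuousLinearMapAt ℝ p‖ + 1 with hA
  have hApos : 0 < A := by positivity
  have hcoer0 : ∀ v : E, (1 / A ^ 2) * ‖v‖ ^ 2 ≤ g (φ p) v v := by
    intro v
    have e1 : g (φ p) v v = ‖T.symmL ℝ p v‖ ^ 2 := by
      simp only [hg_def, Function.comp_apply, hφ, extChartAt_to_inv]
      rw [hg p hp_src, real_inner_self_eq_norm_sq]
    have e2 : ‖v‖ ≤ A * ‖T.symmL ℝ p v‖ := by
      conv_lhs => rw [← T.continuousLinearMapAt_symmL (R := ℝ) hp_base v]
      refine (ContinuousLinearMap.le_opNorm _ _).trans ?_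
      gcongr
      linarith
    rw [e1, one_div, inv_mul_le_iff₀ (by positivity), ← mul_pow]
    exact pow_le_pow_left₀ (norm_nonneg _) e2 2
  set C : ℝ := K₁ + 2 * K₂ with hC
  have hK₁0 : (0 : ℝ) ≤ K₁ := K₁.2
  have hK₂0 : (0 : ℝ) ≤ K₂ := K₂.2
  have hC0 : 0 ≤ C := by positivity
  obtain ⟨ρ₀, hρ₀, hball⟩ := Metric.mem_nhds_iff.1
    (inter_mem (inter_mem htgt ht₁) (inter_mem ht₂ ht₃))
  set lam := (1 / A ^ 2) / 2 with hlam
  have hlam0 : 0 < lam := by positivity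
  set ρ := min ρ₀ (lam / (C + 1)) with hρ
  have hρpos : 0 < ρ := lt_min hρ₀ (by positivity)
  have hsub : ball (φ p) ρ ⊆ ball (φ p) ρ₀ := ball_subset_ball (min_le_left _ _)
  have hlip : ∀ y ∈ ball (φ p) ρ, ∀ y' ∈ ball (φ p) ρ, ‖g y - g y'‖ ≤ C * ‖y - y'‖ := by
    intro y hy y' hy'
    have := hK₁.dist_le_mul y (hball (hsub hy)).1.2 y' (hball (hsub hy')).1.2
    rw [dist_eq_norm, dist_eq_norm] at this
    refine this.trans ?_
    gcongr
    linarith
  have hcoer : ∀ y ∈ ball (φ p) ρ, ∀ v, lam * ‖v‖ ^ 2 ≤ g y v v := by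
    intro y hy v
    have e1 := bilin_le_add (g (φ p)) (g y) v
    have e2 := hlip _ (mem_ball_self hρpos) y hy
    have e3 : ‖φ p - y‖ < lam / (C + 1) := by
      rw [← dist_eq_norm, dist_comm]
      exact lt_of_lt_of_le hy (min_le_right _ _)
    have e4 : C * ‖φ p - y‖ ≤ lam := by
      rw [lt_div_iff₀ (by positivity)] at e3
      nlinarith [norm_nonneg (φ p - y)]
    have e5 := hcoer0 v
    have e6 : ‖g (φ p) - g y‖ * ‖v‖ ^ 2 ≤ lam * ‖v‖ ^ 2 := by
      gcongr
      exact e2.trans e4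
    have e7 : 1 / A ^ 2 = 2 * lam := by rw [hlam]; ring
    rw [e7] at e5
    linarith
  have hcomp : ∀ ε > 0, ∀ y ∈ ball (φ p) ρ, ∀ y' ∈ ball (φ p) ρ,
      ‖y' - y‖ ≤ ε * lam / (C + 1) → ∀ w, g y' w w ≤ (1 + ε) * g y w w := by
    intro ε hε y hy y' hy' hyy w
    have e1 := bilin_le_add (g y') (g y) w
    have e2 := hlip y' hy' y hy
    have e3 : C * ‖y' - y‖ ≤ ε * lam := by
      rw [le_div_iff₀ (by positivity)] at hyy
      nlinarith [norm_nonneg (y' - y)]
    have e4 := hcoer y hy w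
    have e5 : ‖g y' - g y‖ * ‖w‖ ^ 2 ≤ ε * lam * ‖w‖ ^ 2 := by
      gcongr
      exact e2.trans e3
    nlinarith
  have hO : (chartAt E p).source ∩ φ ⁻¹' ball (φ p) ρ ∈ 𝓝 p :=
    inter_mem (chart_source_mem_nhds E p)
      ((continuousAt_extChartAt p).preimage_mem_nhds (ball_mem_nhds _ hρpos))
  obtain ⟨ρ₁, hρ₁, hρ₁sub⟩ := Metric.mem_nhds_iff.1 hO
  have hgS : ∀ y ∈ ball (φ p) ρ, ∀ v w, g y v w =
      inner ℝ (T.symmL ℝ (φ.symm y) v) (T.symmL ℝ (φ.symm y) w) := by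
    intro y hy v w
    apply hg
    rw [← hsrc_eq]
    exact φ.map_target (hball (hsub hy)).1.1
  have hgS' : ∀ x, dist x p < ρ₁ → ∀ v w, g (φ x) v w =
      inner ℝ (T.symmL ℝ x v) (T.symmL ℝ x w) := by
    intro x hx v w
    have hx' : x ∈ φ.source := by rw [hsrc_eq]; exact (hρ₁sub hx).1
    simp only [hg_def, Function.comp_apply]
    rw [φ.left_inv hx']
    exact hg x (hρ₁sub hx).1 v w
  refine ⟨⟨φ, φ.symm, g, ρ, ρ₁ / 3, lam, C, by positivity, hlam0, hC0, ?_, ?_, ?_, hcoer, hlip,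
    ?_, ?_, ?_⟩⟩
  · intro x hx
    exact (hρ₁sub (show dist x p < ρ₁ by linarith)).2
  · intro x hx
    apply φ.left_inv
    rw [hsrc_eq]
    exact (hρ₁sub (show dist x p < ρ₁ by linarith)).1
  · intro y hy v w
    rw [hgS y hy, hgS y hy, real_inner_comm]
  · intro y h h1 h2
    refine (second_diff_le (g := g) (convex_ball (φ p) ρ) (fun y hy => by have := (hball (hsub hy)).2.2; simpa using this) hK₂0
      (fun y hy y' hy' => ?_) h1 h2).trans ?_
    · have := hK₂.dist_le_mul y (hball (hsub hy)).2.1 y' (hball (hsub hy')).2.1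
      rwa [dist_eq_norm, dist_eq_norm] at this
    · gcongr
      linarith
  · intro ε hε
    refine ⟨ε * lam / (C + 1), by positivity, fun y hy y' hy' hyy => ?_⟩
    have hmem : ∀ t ∈ Icc (0 : ℝ) 1, y + t • (y' - y) ∈ ball (φ p) ρ := fun t ht =>
      (convex_ball (φ p) ρ).add_smul_sub_mem hy hy' ht
    have hnn : 0 ≤ (1 + ε) * g y (y' - y) (y' - y) :=
      mul_nonneg (by linarith) (le_trans (by positivity) (hcoer y hy _))
    have := dist_symm_le p (y := y) (y' := y') (Real.sqrt_nonneg ((1 + ε) * g y (y' - y) (y' - y)))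
      (fun t ht => (hball (hsub (hmem t ht))).1.1) (fun t ht => by
        apply Real.le_sqrt_of_sq_le
        rw [← real_inner_self_eq_norm_sq, ← hgS _ (hmem t ht)]
        apply hcomp ε hε y hy _ (hmem t ht)
        rw [add_sub_cancel_left, norm_smul, Real.norm_eq_abs, abs_of_nonneg ht.1]
        nlinarith [ht.2, norm_nonneg (y' - y)])
    calc dist (φ.symm y) (φ.symm y') ^ 2 ≤ (√((1 + ε) * g y (y' - y) (y' - y))) ^ 2 :=
          pow_le_pow_left₀ dist_nonneg this 2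
      _ = _ := Real.sq_sqrt hnn
  · intro ε hε
    have hK : IsCompact (closedBall p (2 * ρ₁ / 3)) := isClosed_closedBall.isCompact
    have hKsub : closedBall p (2 * ρ₁ / 3) ⊆ ball p ρ₁ := closedBall_subset_ball (by linarith)
    have huc : UniformContinuousOn φ (closedBall p (2 * ρ₁ / 3)) := by
      apply hK.uniformContinuousOn_of_continuous
      apply (continuousOn_extChartAt p).mono
      intro x hx
      rw [extChartAt_source]
      exact (hρ₁sub (hKsub hx)).1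
    obtain ⟨δ, hδ, hδu⟩ := Metric.uniformContinuousOn_iff.1 huc (ε * lam / (C + 1)) (by positivity)
    refine ⟨min δ (ρ₁ / 3), lt_min hδ (by positivity), fun x x' hx hxx => ?_⟩
    have hz : ∀ z, dist x z < min δ (ρ₁ / 3) → dist z p ≤ 2 * ρ₁ / 3 := by
      intro z hz
      have := dist_triangle z x p
      rw [dist_comm z x] at this
      linarith [min_le_right δ (ρ₁ / 3)]
    have hx1 : dist x p < ρ₁ := by linarith
    set w := φ x' - φ x with hw
    have hww : g (φ x) w w = ‖T.symmL ℝ x w‖ ^ 2 := by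
      rw [hgS' x hx1, real_inner_self_eq_norm_sq]
    have key := functional_le_dist p (x := x) (x' := x') (B := ‖T.symmL ℝ x w‖ * √(1 + ε))
      (by positivity) (g (φ x) w) hxx (fun z hz' => (hρ₁sub (hKsub (hz z hz'))).1) (by
        intro z hz' u
        have hz1 : dist z p < ρ₁ := hKsub (hz z hz')
        rw [hgS' x hx1, mul_assoc]
        refine (abs_real_inner_le_norm _ _).trans ?_
        gcongr
        have e1 : g (φ x) u u ≤ (1 + ε) * g (φ z) u u := by
          apply hcomp ε hε _ (hρ₁sub hz1).2 _ (hρ₁sub hx1).2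
          rw [← dist_eq_norm]
          exact (hδu x (show dist x p ≤ _ by linarith) z (hz z hz')
            (hz'.trans_le (min_le_left _ _))).le
        rw [hgS' x hx1, hgS' z hz1, real_inner_self_eq_norm_sq, real_inner_self_eq_norm_sq] at e1
        apply le_of_sq_le_sq _ (by positivity)
        rw [mul_pow, Real.sq_sqrt (by linarith)]
        exact e1)
    change |g (φ x) w w| ≤ _ at key
    rw [hww] at key ⊢
    have h2 : ‖T.symmL ℝ x w‖ ≤ √(1 + ε) * dist x x' := by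
      rcases (norm_nonneg (T.symmL ℝ x w)).eq_or_lt with h | h
      · rw [← h]; positivity
      · have := (le_abs_self _).trans key
        rw [pow_two, mul_assoc] at this
        exact le_of_mul_le_mul_left this h
    calc ‖T.symmL ℝ x w‖ ^ 2 ≤ (√(1 + ε) * dist x x') ^ 2 := pow_le_pow_left₀ (norm_nonneg _) h2 2
      _ = _ := by rw [mul_pow, Real.sq_sqrt (by linarith)]

end Pool.Agent.Lib.MP_3eff7f_gt
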