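import Mathlib

set_option autoImplicit false

open Finset

namespace Pool.Agent.Lib.MP_3eff7f_gt

/-- The unit cells of the cube of side `2 ^ K`. -/
def cells (k K : ℕ) : Finset (Fin k → ℕ) := Fintype.piFinset fun _ => range (2 ^ K)

theorem prod_convex {ι : Type*} (S : Finset ι) (D : ι → ℝ) (hD : ∀ i, 0 ≤ D i) :
    ∏ i ∈ S, (1 + 3 / 4 * D i) ≤ 1 / 4 + 3 / 4 * ∏ i ∈ S, (1 + D i) := by
  classical
  induction S using Finset.induction_on with
  | empty => norm_num
  | insert j S hj ih =>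
    rw [prod_insert hj, prod_insert hj]
    have h1 : 1 ≤ ∏ i ∈ S, (1 + D i) := by
      have := Finset.prod_le_prod (s := S) (f := fun _ => (1 : ℝ)) (g := fun i => 1 + D i)
        (fun _ _ => zero_le_one) (fun i _ => by linarith [hD i])
      simpa using this
    have h2 := hD j
    have h3 := mul_le_mul_of_nonneg_left ih (show 0 ≤ 1 + 3 / 4 * D j by linarith)
    nlinarith [mul_nonneg h2 (sub_nonneg.2 h1)]

theorem exists_offset_step {k K : ℕ} {θ : ℝ} (hθ : 0 ≤ θ) (hθk : (1 + θ) ^ k ≤ 7 / 6)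
    {e : (Fin k → ℕ) → ℝ} (he : ∀ a, 0 ≤ e a) {Q : ℕ} (hQ : 0 < Q) (D : Fin k → ℕ → ℝ) :
    ∃ o : Fin k → ℕ, (∀ m, o m < Q) ∧ ((∀ m t, 0 ≤ D m t) →
      ∑ a ∈ cells k K, e a * ∏ m, (1 + D m (a m)) ≤ 7 / 3 * ∑ a ∈ cells k K, e a →
      ∑ a ∈ cells k K, e a * ∏ m, (1 + (3 / 4 * D m (a m) +
        if a m % Q = o m then θ * Q else 0)) ≤ 7 / 3 * ∑ a ∈ cells k K, e a) := by
  have hne : (Fintype.piFinset fun _ : Fin k => range Q).Nonempty :=
    ⟨fun _ => 0, by simp [hQ]⟩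
  have hsum : ∑ o ∈ Fintype.piFinset fun _ : Fin k => range Q, ∑ a ∈ cells k K,
      e a * ∏ m, (1 + (3 / 4 * D m (a m) + if a m % Q = o m then θ * Q else 0)) ≤
      ∑ _o ∈ Fintype.piFinset fun _ : Fin k => range Q,
        ∑ a ∈ cells k K, e a * ∏ m, (1 + 3 / 4 * D m (a m) + θ) := by
    apply le_of_eq
    rw [sum_comm, sum_const, nsmul_eq_mul, mul_sum]
    apply sum_congr rfl
    intro a _
    rw [← mul_sum, ← prod_univ_sum (fun _ : Fin k => range Q)
      (fun m t => (1 + (3 / 4 * D m (a m) + if a m % Q = t then θ * Q else 0)))]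
    have h1 : ∀ m, ∑ t ∈ range Q, (1 + (3 / 4 * D m (a m) + if a m % Q = t then θ * Q else 0)) =
        Q * (1 + 3 / 4 * D m (a m) + θ) := by
      intro m
      simp only [sum_add_distrib, sum_const, card_range, nsmul_eq_mul, sum_ite_eq, mem_range,
        Nat.mod_lt _ hQ, if_true]
      ring
    simp only [h1, prod_mul_distrib, prod_const, card_univ, Fintype.card_fin,
      Fintype.card_piFinset, card_range]
    push_cast
    ring
  obtain ⟨o, ho, hle⟩ := exists_le_of_sum_le hne hsum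
  refine ⟨o, fun m => by simpa using (Fintype.mem_piFinset.1 ho) m, fun hD h => hle.trans ?_⟩
  calc ∑ a ∈ cells k K, e a * ∏ m, (1 + 3 / 4 * D m (a m) + θ)
      ≤ ∑ a ∈ cells k K, 7 / 6 * (1 / 4 * e a + 3 / 4 * (e a * ∏ m, (1 + D m (a m)))) := by
        apply sum_le_sum
        intro a _
        have h1 : ∏ m, (1 + 3 / 4 * D m (a m) + θ) ≤ ∏ m, ((1 + θ) * (1 + 3 / 4 * D m (a m))) := by
          apply prod_le_prod
          · intro m _
            linarith [hD m (a m)]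
          · intro m _
            nlinarith [hD m (a m)]
        rw [prod_mul_distrib, prod_const, card_univ, Fintype.card_fin] at h1
        have h2 := prod_convex univ (fun m => D m (a m)) fun m => hD m (a m)
        have h3 : 0 ≤ ∏ m, (1 + 3 / 4 * D m (a m)) :=
          prod_nonneg fun m _ => by linarith [hD m (a m)]
        have h4 : ∏ m, (1 + 3 / 4 * D m (a m) + θ) ≤
            7 / 6 * (1 / 4 + 3 / 4 * ∏ m, (1 + D m (a m))) :=
          h1.trans (mul_le_mul hθk h2 h3 (by norm_num))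
        nlinarith [mul_le_mul_of_nonneg_left h4 (he a)]
    _ = 7 / 6 * (1 / 4 * ∑ a ∈ cells k K, e a +
          3 / 4 * ∑ a ∈ cells k K, e a * ∏ m, (1 + D m (a m))) := by
        rw [← mul_sum, sum_add_distrib, ← mul_sum, ← mul_sum]
    _ ≤ _ := by linarith

theorem exists_offsets {k K : ℕ} {θ : ℝ} (hθ : 0 ≤ θ) (hθk : (1 + θ) ^ k ≤ 7 / 6)
    {e : (Fin k → ℕ) → ℝ} (he : ∀ a, 0 ≤ e a) :
    ∃ (o : ℕ → Fin k → ℕ) (D : ℕ → Fin k → ℕ → ℝ), (∀ l m, o l m < 2 ^ (K - l)) ∧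
      (∀ j m t, 0 ≤ D j m t) ∧
      (∀ j, ∑ a ∈ cells k K, e a * ∏ m, (1 + D j m (a m)) ≤ 7 / 3 * ∑ a ∈ cells k K, e a) ∧
      ∀ j l m t, 1 ≤ l → l ≤ j → t % 2 ^ (K - l) = o l m →
        θ * 2 ^ (K - l) * (3 / 4) ^ (j - l) ≤ D j m t := by
  choose O hO1 hO2 using fun (l : ℕ) (D : Fin k → ℕ → ℝ) =>
    exists_offset_step (K := K) hθ hθk he (Q := 2 ^ (K - l)) (by positivity) D
  let D : ℕ → Fin k → ℕ → ℝ := fun j => Nat.rec (fun _ _ => 0) (fun j Dj m t =>
    3 / 4 * Dj m t + if t % 2 ^ (K - (j + 1)) = O (j + 1) Dj m then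
      θ * (2 ^ (K - (j + 1)) : ℕ) else 0) j
  have hD0 : ∀ m t, D 0 m t = 0 := fun _ _ => rfl
  have hDs : ∀ j m t, D (j + 1) m t = 3 / 4 * D j m t +
      if t % 2 ^ (K - (j + 1)) = O (j + 1) (D j) m then θ * (2 ^ (K - (j + 1)) : ℕ) else 0 :=
    fun _ _ _ => rfl
  have hDn : ∀ j m t, 0 ≤ D j m t := by
    intro j m t
    induction j with
    | zero => exact le_rfl
    | succ j ih =>
      rw [hDs]
      split_ifs <;> positivity
  refine ⟨fun l => O l (D (l - 1)), D, fun l m => hO1 _ _ m, hDn, fun j => ?_, ?_⟩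
  · induction j with
    | zero =>
      simp only [hD0, add_zero, prod_const_one, mul_one]
      linarith [sum_nonneg fun a (_ : a ∈ cells k K) => he a]
    | succ j ih => exact hO2 (j + 1) (D j) (hDn j) ih
  · intro j l m t h1 hl ht
    induction j, hl using Nat.le_induction with
    | base =>
      obtain ⟨l, rfl⟩ := Nat.exists_eq_add_of_le' h1
      rw [hDs]
      simp only [Nat.add_sub_cancel] at ht
      rw [if_pos ht]
      simp only [Nat.sub_self, pow_zero, mul_one, Nat.cast_pow, Nat.cast_ofNat]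
      linarith [hDn l m t]
    | succ j hl ih =>
      rw [hDs, Nat.sub_add_comm hl, pow_succ]
      have : (0 : ℝ) ≤ if t % 2 ^ (K - (j + 1)) = O (j + 1) (D j) m then
        θ * (2 ^ (K - (j + 1)) : ℕ) else 0 := by split_ifs <;> positivity
      linarith

theorem grid {k n : ℕ} (hk : 1 ≤ k) (hkn : k ≤ n) :
    ∀ (K : ℕ) (ρ : (Fin k → ℕ) → ℝ) (ε : ℝ), (∀ a, 0 ≤ ρ a) → 0 ≤ ε →
      ((2 : ℝ) ^ K) ^ (n - k) * ∑ a ∈ cells k K, ρ a ^ n ≤ ε ^ n →
      ∃ o : ℕ → Fin k → ℕ, (∀ l m, o l m < 2 ^ (K - l)) ∧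
        ∀ (j : ℕ) (i : Fin k) (a lv : Fin k → ℕ) (p q s : ℕ), j ≤ K →
          (∀ m, m ≠ i → a m < 2 ^ K ∧ 1 ≤ lv m ∧ lv m ≤ j ∧ a m % 2 ^ (K - lv m) = o (lv m) m) →
          q ≤ 2 ^ K → q ≤ p + 2 ^ (K - j) → s ≤ j →
          (k < n ∨ s = 0 ∨ ∃ m, m ≠ i ∧ lv m + s ≤ j) →
          ∑ t ∈ Ico p q, ρ (Function.update a i t) ≤ 10 * k * ε * (1 - 1 / (3 * n : ℝ)) ^ s := by
  have hkR : (1 : ℝ) ≤ k := by exact_mod_cast hk
  obtain ⟨θ, hθ, hθk, hc1⟩ : ∃ θ : ℝ, 0 < θ ∧ (1 + θ) ^ k ≤ 7 / 6 ∧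
      7 / 3 / θ ^ (k - 1) ≤ (10 * k) ^ n := by
    refine ⟨1 / (7 * k), by positivity, ?_, ?_⟩
    · calc (1 + 1 / (7 * k : ℝ)) ^ k ≤ Real.exp (1 / (7 * k)) ^ k := by
            apply pow_le_pow_left₀ (by positivity)
            linarith [Real.add_one_le_exp (1 / (7 * k : ℝ))]
        _ = Real.exp (1 / 7) := by
            rw [← Real.exp_nat_mul]
            congr 1
            field_simp
        _ ≤ 7 / 6 := (Real.exp_bound_div_one_sub_of_interval (by norm_num) (by norm_num)).trans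
            (by norm_num)
    · rw [one_div, inv_pow, div_inv_eq_mul]
      calc 7 / 3 * (7 * k : ℝ) ^ (k - 1) ≤ (10 * k) * (10 * k) ^ (k - 1) := by
            gcongr
            · linarith
            · norm_num
        _ = (10 * k) ^ k := by rw [← pow_succ', Nat.sub_add_cancel hk]
        _ ≤ _ := pow_le_pow_right₀ (by linarith) hkn
  have hn : 0 < n := by omega
  have hnk : k - 1 + (n - k) = n - 1 := by omega
  have hnR : (1 : ℝ) ≤ n := by exact_mod_cast hn
  have hθk' : 0 < θ ^ (k - 1) := by positivity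
  have hβ0 : 0 ≤ 1 - 1 / (3 * n : ℝ) := by
    rw [sub_nonneg, div_le_one (by linarith)]
    linarith
  have hβn : 2 / 3 ≤ (1 - 1 / (3 * n : ℝ)) ^ n := by
    have := one_add_mul_le_pow (a := -(1 / (3 * n : ℝ))) (by linarith) n
    rw [← sub_eq_add_neg] at this
    refine le_trans (le_of_eq ?_) this
    field_simp
    norm_num
  intro K ρ ε hρ hε hE
  obtain ⟨o, D, ho, hD0, hD1, hD2⟩ := exists_offsets (K := K) hθ.le hθk
    (e := fun a => ρ a ^ n) fun a => pow_nonneg (hρ a) n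
  refine ⟨o, ho, fun j i a lv p q s hj ha hq hpq hs hcase => ?_⟩
  set Ψ := ∑ a ∈ cells k K, ρ a ^ n with hΨ
  have hΨ0 : 0 ≤ Ψ := sum_nonneg fun a _ => pow_nonneg (hρ a) n
  set Q : ℝ := 2 ^ (K - j) with hQ
  have hQ1 : 1 ≤ Q := one_le_pow₀ one_le_two
  set S := ∑ t ∈ Ico p q, ρ (Function.update a i t) ^ n with hS
  have hS0 : 0 ≤ S := sum_nonneg fun a _ => pow_nonneg (hρ _) n
  have hw : ∀ m, m ≠ i → θ * Q * (3 / 2) ^ (j - lv m) ≤ 1 + D j m (a m) := by
    intro m hm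
    obtain ⟨-, h1, h2, h3⟩ := ha m hm
    have := hD2 j (lv m) m (a m) h1 h2 h3
    have e : (2 : ℝ) ^ (K - lv m) = Q * 2 ^ (j - lv m) := by
      rw [hQ, ← pow_add]
      congr 1
      omega
    rw [e, mul_assoc, mul_assoc, ← mul_pow] at this
    norm_num at this
    rw [mul_assoc]
    linarith
  have h1 : (∏ m ∈ univ.erase i, (1 + D j m (a m))) * S ≤ 7 / 3 * Ψ := by
    refine le_trans ?_ (hD1 j)
    rw [hS, mul_sum]
    calc ∑ t ∈ Ico p q, (∏ m ∈ univ.erase i, (1 + D j m (a m))) * ρ (Function.update a i t) ^ n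
        ≤ ∑ t ∈ Ico p q, ρ (Function.update a i t) ^ n *
            ∏ m, (1 + D j m (Function.update a i t m)) := by
          apply sum_le_sum
          intro t _
          rw [mul_comm, ← mul_prod_erase univ _ (mem_univ i)]
          apply mul_le_mul_of_nonneg_left _ (pow_nonneg (hρ _) n)
          have e : ∏ m ∈ univ.erase i, (1 + D j m (Function.update a i t m)) =
              ∏ m ∈ univ.erase i, (1 + D j m (a m)) :=
            prod_congr rfl fun m hm => by rw [Function.update_of_ne (ne_of_mem_erase hm)]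
          rw [e]
          have h3 : 0 ≤ ∏ m ∈ univ.erase i, (1 + D j m (a m)) :=
            prod_nonneg fun m _ => by linarith [hD0 j m (a m)]
          nlinarith [hD0 j i (Function.update a i t i)]
      _ = ∑ b ∈ (Ico p q).image (Function.update a i), ρ b ^ n * ∏ m, (1 + D j m (b m)) := by
          rw [sum_image]
          intro t _ t' _ h
          simpa using congrFun h i
      _ ≤ _ := by
          apply sum_le_sum_of_subset_of_nonneg
          · intro b hb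
            obtain ⟨t, ht, rfl⟩ := mem_image.1 hb
            rw [cells, Fintype.mem_piFinset]
            intro m
            by_cases hm : m = i
            · subst hm
              rw [Function.update_self, mem_range]
              exact (mem_Ico.1 ht).2.trans_le hq
            · rw [Function.update_of_ne hm, mem_range]
              exact (ha m hm).1
          · intro b _ _
            exact mul_nonneg (pow_nonneg (hρ _) n)
              (prod_nonneg fun m _ => by linarith [hD0 j m (b m)])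
  have hcard : (univ.erase i).card = k - 1 := by simp
  have h2 : ∀ s', (s' = 0 ∨ ∃ m, m ≠ i ∧ lv m + s' ≤ j) →
      (θ * Q) ^ (k - 1) * (3 / 2) ^ s' ≤ ∏ m ∈ univ.erase i, (1 + D j m (a m)) := by
    intro s' hs'
    have e1 : ∏ m ∈ univ.erase i, (θ * Q * (3 / 2) ^ (j - lv m)) ≤
        ∏ m ∈ univ.erase i, (1 + D j m (a m)) :=
      prod_le_prod (fun m _ => by positivity) fun m hm => hw m (ne_of_mem_erase hm)
    refine le_trans ?_ e1
    rw [prod_mul_distrib, prod_const, hcard]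
    apply mul_le_mul_of_nonneg_left _ (by positivity)
    have e2 : ∀ T : Finset (Fin k), (1 : ℝ) ≤ ∏ m ∈ T, (3 / 2 : ℝ) ^ (j - lv m) := fun T => by
      have := Finset.prod_le_prod (s := T) (f := fun _ => (1 : ℝ))
        (g := fun m => (3 / 2 : ℝ) ^ (j - lv m))
        (fun _ _ => zero_le_one) (fun i _ => one_le_pow₀ (by norm_num))
      simpa using this
    rcases hs' with rfl | ⟨m, hm, hm'⟩
    · simpa using e2 _
    · rw [← mul_prod_erase _ _ (mem_erase.2 ⟨hm, mem_univ m⟩)]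
      have e3 : (3 / 2 : ℝ) ^ s' ≤ (3 / 2) ^ (j - lv m) :=
        pow_le_pow_right₀ (by norm_num) (by omega)
      have e4 := e2 ((univ.erase i).erase m)
      have e5 : (0 : ℝ) ≤ (3 / 2) ^ (j - lv m) := by positivity
      nlinarith
  have h3 : (∑ t ∈ Ico p q, ρ (Function.update a i t)) ^ n ≤ Q ^ (n - 1) * S := by
    obtain ⟨n', rfl⟩ := Nat.exists_eq_add_of_le' hn
    refine (pow_sum_le_card_mul_sum_pow (fun t _ => hρ _) n').trans ?_
    apply mul_le_mul_of_nonneg_right _ hS0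
    rw [Nat.add_sub_cancel]
    apply pow_le_pow_left₀ (by positivity)
    rw [Nat.card_Ico, hQ]
    exact_mod_cast Nat.sub_le_iff_le_add'.2 hpq
  have h4 : Q ^ (n - k) * Ψ * (2 ^ j) ^ (n - k) ≤ ε ^ n := by
    refine le_trans (le_of_eq ?_) hE
    have : (2 : ℝ) ^ K = Q * 2 ^ j := by
      rw [hQ, ← pow_add]
      congr 1
      omega
    rw [this, mul_pow]
    ring
  have h5 : ∃ s', (s' = 0 ∨ ∃ m, m ≠ i ∧ lv m + s' ≤ j) ∧
      (3 / 2 : ℝ) ^ s ≤ (3 / 2) ^ s' * (2 ^ j) ^ (n - k) := by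
    have e1 : (1 : ℝ) ≤ (2 ^ j) ^ (n - k) := one_le_pow₀ (one_le_pow₀ one_le_two)
    rcases hcase with h | h
    · refine ⟨0, Or.inl rfl, ?_⟩
      rw [pow_zero, one_mul]
      calc (3 / 2 : ℝ) ^ s ≤ (3 / 2) ^ j := pow_le_pow_right₀ (by norm_num) hs
        _ ≤ 2 ^ j := pow_le_pow_left₀ (by norm_num) (by norm_num) j
        _ ≤ _ := le_self_pow₀ (one_le_pow₀ one_le_two) (by omega)
    · exact ⟨s, h, le_mul_of_one_le_right (by positivity) e1⟩
  obtain ⟨s', hs', h5⟩ := h5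
  have h6 : θ ^ (k - 1) * (3 / 2) ^ s * (Q ^ (n - 1) * S) ≤ 7 / 3 * ε ^ n := by
    have e1 := (mul_le_mul_of_nonneg_right (h2 s' hs') hS0).trans h1
    have e2 : Q ^ (n - 1) = Q ^ (k - 1) * Q ^ (n - k) := by
      rw [← pow_add, hnk]
    calc θ ^ (k - 1) * (3 / 2) ^ s * (Q ^ (n - 1) * S)
        ≤ θ ^ (k - 1) * ((3 / 2) ^ s' * (2 ^ j) ^ (n - k)) * (Q ^ (n - 1) * S) := by gcongr
      _ = ((θ * Q) ^ (k - 1) * (3 / 2) ^ s' * S) * (Q ^ (n - k) * (2 ^ j) ^ (n - k)) := by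
          rw [e2, mul_pow]
          ring
      _ ≤ (7 / 3 * Ψ) * (Q ^ (n - k) * (2 ^ j) ^ (n - k)) := by gcongr
      _ = 7 / 3 * (Q ^ (n - k) * Ψ * (2 ^ j) ^ (n - k)) := by ring
      _ ≤ _ := by linarith
  apply le_of_pow_le_pow_left₀ hn.ne' (by positivity)
  refine h3.trans ?_
  calc Q ^ (n - 1) * S = (θ ^ (k - 1) * (3 / 2) ^ s * (Q ^ (n - 1) * S)) *
        ((2 / 3) ^ s / θ ^ (k - 1)) := by
        have : (3 / 2 : ℝ) ^ s * (2 / 3) ^ s = 1 := by
          rw [← mul_pow]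
          norm_num
        field_simp
        rw [mul_assoc, this, mul_one]
    _ ≤ (7 / 3 * ε ^ n) * ((2 / 3) ^ s / θ ^ (k - 1)) := by gcongr
    _ = (7 / 3 / θ ^ (k - 1)) * ε ^ n * (2 / 3) ^ s := by ring
    _ ≤ (10 * k) ^ n * ε ^ n * ((1 - 1 / (3 * n : ℝ)) ^ n) ^ s := by gcongr
    _ = _ := by rw [mul_pow (10 * (k:ℝ) * ε), mul_pow (10 * (k:ℝ)) ε, ← pow_mul, ← pow_mul, mul_comm n s]

end Pool.Agent.Lib.MP_3eff7f_gt
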