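import Mathlib

set_option autoImplicit false

open Finset

namespace Pool.Agent.Lib.MP_3eff7f_gt

/-- Cut points of level `l` of the interval `[0, 2 ^ K]`. -/
def cut (K : ℕ) (o : ℕ → ℕ) : ℕ → ℕ → ℕ
  | 0, N => N * 2 ^ K
  | l + 1, N =>
    if N % 3 = 0 then cut K o l (N / 3)
    else min (cut K o l (N / 3 + 1)) (cut K o l (N / 3) +
      (o (l + 1) + 2 ^ (K - (l + 1)) - cut K o l (N / 3) % 2 ^ (K - (l + 1))) % 2 ^ (K - (l + 1))
        + (N % 3 - 1) * 2 ^ (K - (l + 1)))

variable {K : ℕ} {o : ℕ → ℕ}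

theorem cut_three (l N : ℕ) : cut K o (l + 1) (3 * N) = cut K o l N := by
  simp [cut]

theorem cut_zero (l : ℕ) : cut K o l 0 = 0 := by
  induction l with
  | zero => simp [cut]
  | succ l ih => simpa using (cut_three (K := K) (o := o) l 0).trans ih

theorem cut_top (l : ℕ) : cut K o l (3 ^ l) = 2 ^ K := by
  induction l with
  | zero => simp [cut]
  | succ l ih => rw [pow_succ', cut_three, ih]

theorem cut_step (l N : ℕ) : cut K o l N ≤ cut K o l (N + 1) ∧
    (l ≤ K → cut K o l (N + 1) ≤ cut K o l N + 2 ^ (K - l)) := by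
  induction l generalizing N with
  | zero => simp [cut, add_mul]
  | succ l ih =>
    obtain ⟨h1, h2⟩ := ih (N / 3)
    have hQ : 0 < 2 ^ (K - (l + 1)) := by positivity
    have hx := Nat.mod_lt
      (o (l + 1) + 2 ^ (K - (l + 1)) - cut K o l (N / 3) % 2 ^ (K - (l + 1))) hQ
    have h3 : l + 1 ≤ K → 2 ^ (K - l) = 2 * 2 ^ (K - (l + 1)) := fun h => by
      rw [← pow_succ']
      congr 1
      omega
    have h4 : N % 3 = 0 ∨ N % 3 = 1 ∨ N % 3 = 2 := by omega
    rcases h4 with h | h | h
    · have e1 : (N + 1) % 3 = 1 := by omega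
      have e2 : (N + 1) / 3 = N / 3 := by omega
      simp only [cut, h, e1, e2, if_true, one_ne_zero, if_false]
      constructor
      · omega
      · intro _
        omega
    · have e1 : (N + 1) % 3 = 2 := by omega
      have e2 : (N + 1) / 3 = N / 3 := by omega
      simp only [cut, h, e1, e2, one_ne_zero, if_false, OfNat.ofNat_ne_zero]
      constructor
      · omega
      · intro _
        omega
    · have e1 : (N + 1) % 3 = 0 := by omega
      have e2 : (N + 1) / 3 = N / 3 + 1 := by omega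
      simp only [cut, h, e1, e2, if_false, OfNat.ofNat_ne_zero, if_true]
      constructor
      · omega
      · intro hl
        have := h2 (by omega)
        rw [h3 hl] at this
        omega

theorem cut_mono (l : ℕ) : Monotone (cut K o l) :=
  monotone_nat_of_le_succ fun N => (cut_step l N).1

theorem cut_le {l N : ℕ} (h : N ≤ 3 ^ l) : cut K o l N ≤ 2 ^ K :=
  (cut_mono l h).trans_eq (cut_top l)

theorem cut_level (ho : ∀ l, o l < 2 ^ (K - l)) {l N : ℕ} (h : N ≤ 3 ^ l) :
    cut K o l N = 0 ∨ cut K o l N = 2 ^ K ∨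
      ∃ l', 1 ≤ l' ∧ l' ≤ l ∧ cut K o l N % 2 ^ (K - l') = o l' := by
  induction l generalizing N with
  | zero =>
    have : N = 0 ∨ N = 1 := by omega
    rcases this with rfl | rfl <;> simp [cut]
  | succ l ih =>
    have hw : ∀ N', N' ≤ 3 ^ l → cut K o l N' = 0 ∨ cut K o l N' = 2 ^ K ∨
        ∃ l', 1 ≤ l' ∧ l' ≤ l + 1 ∧ cut K o l N' % 2 ^ (K - l') = o l' := by
      intro N' hN'
      rcases ih hN' with h | h | ⟨l', h1, h2, h3⟩
      · exact Or.inl h
      · exact Or.inr (Or.inl h)
      · exact Or.inr (Or.inr ⟨l', h1, by omega, h3⟩)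
    rw [pow_succ] at h
    rw [cut]
    split_ifs with h0
    · exact hw _ (by omega)
    · rcases min_choice (cut K o l (N / 3 + 1)) (cut K o l (N / 3) +
        (o (l + 1) + 2 ^ (K - (l + 1)) - cut K o l (N / 3) % 2 ^ (K - (l + 1))) % 2 ^ (K - (l + 1))
          + (N % 3 - 1) * 2 ^ (K - (l + 1))) with e | e <;> rw [e]
      · exact hw _ (by omega)
      · refine Or.inr (Or.inr ⟨l + 1, by omega, le_rfl, ?_⟩)
        have hQ : 0 < 2 ^ (K - (l + 1)) := by positivity
        have h1 := Nat.mod_lt (cut K o l (N / 3)) hQ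
        rw [Nat.add_mul_mod_self_right, Nat.add_mod_mod, ← Nat.mod_add_mod,
          Nat.add_sub_cancel' (by omega), Nat.add_mod_right, Nat.mod_eq_of_lt (ho _)]

/-- Left end points of the windows of level `l`. -/
noncomputable def win (a lam : ℝ) : ℕ → ℕ → ℝ
  | 0, _ => 0
  | l + 1, N => win a lam l (N / 3) + (N % 3 : ℕ) * a * lam ^ l

/-- Admissible parameters. -/
structure SP (a lam : ℝ) : Prop where
  pos : 0 < lam
  sep : 8 * lam ≤ a
  nest : 2 * a + lam ≤ 1

noncomputable def clamp (x : ℝ) : ℝ := max 0 (min x 1)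

theorem clamp_nonneg (x : ℝ) : 0 ≤ clamp x := le_max_left _ _

theorem clamp_le_one (x : ℝ) : clamp x ≤ 1 := max_le zero_le_one (min_le_right _ _)

theorem clamp_of_nonpos {x : ℝ} (h : x ≤ 0) : clamp x = 0 :=
  max_eq_left ((min_le_left _ _).trans h)

theorem clamp_of_one_le {x : ℝ} (h : 1 ≤ x) : clamp x = 1 := by
  rw [clamp, min_eq_right h, max_eq_right zero_le_one]

theorem clamp_of_mem {x : ℝ} (h0 : 0 ≤ x) (h1 : x ≤ 1) : clamp x = x := by
  rw [clamp, min_eq_left h1, max_eq_right h0]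

theorem clamp_mono : Monotone clamp := fun _ _ h => max_le_max le_rfl (min_le_min h le_rfl)

@[fun_prop]
theorem continuous_clamp : Continuous clamp := by
  unfold clamp
  fun_prop

/-- The staircase function. -/
noncomputable def stair (K : ℕ) (o : ℕ → ℕ) (a lam u : ℝ) : ℝ :=
  ∑ N ∈ range (3 ^ K), ((cut K o K (N + 1) : ℝ) - cut K o K N) *
    clamp ((u - win a lam K N) / lam ^ K)

variable {a lam : ℝ}

theorem continuous_stair : Continuous (stair K o a lam) := by
  unfold stair
  fun_prop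

theorem win_three (l N : ℕ) : win a lam (l + 1) (3 * N) = win a lam l N := by
  simp [win]

namespace SP

variable (h : SP a lam)
include h

theorem win_nest (l N : ℕ) : win a lam l (N / 3) ≤ win a lam (l + 1) N ∧
    win a lam (l + 1) N + lam ^ (l + 1) ≤ win a lam l (N / 3) + lam ^ l := by
  have h0 := h.pos
  have h1 : 0 < lam ^ l := by positivity
  have h2 : ((N % 3 : ℕ) : ℝ) ≤ 2 := by exact_mod_cast (show N % 3 ≤ 2 by omega)
  have h3 : 0 ≤ a := by linarith [h.sep]
  rw [win, pow_succ]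
  constructor
  · have : 0 ≤ ((N % 3 : ℕ) : ℝ) * a * lam ^ l := by positivity
    linarith
  · have : ((N % 3 : ℕ) : ℝ) * a * lam ^ l ≤ 2 * a * lam ^ l := by gcongr
    nlinarith [h.nest]

theorem win_sep {l N N' : ℕ} (hN : N < N') (hN' : N' < 3 ^ l) :
    win a lam l N + 8 * lam ^ l ≤ win a lam l N' := by
  induction l generalizing N N' with
  | zero => omega
  | succ l ih =>
    have h0 := h.pos
    have h1 : 0 < lam ^ l := by positivity
    have h3 : 0 ≤ a := by linarith [h.sep]
    rw [pow_succ] at hN'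
    rcases (show N / 3 ≤ N' / 3 by omega).lt_or_eq with h4 | h4
    · have e1 := ih h4 (by omega)
      have e2 := h.win_nest l N
      have e3 := h.win_nest l N'
      rw [pow_succ] at e2 ⊢
      nlinarith [h.sep, h.nest]
    · have e : ((N % 3 : ℕ) : ℝ) + 1 ≤ (N' % 3 : ℕ) := by
        exact_mod_cast (show N % 3 + 1 ≤ N' % 3 by omega)
      rw [win, win, h4, pow_succ]
      have e2 := mul_le_mul_of_nonneg_right e (mul_nonneg h3 h1.le)
      nlinarith [h.sep]

theorem win_mono {l N N' : ℕ} (hN : N ≤ N') (hN' : N' < 3 ^ l) :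
    win a lam l N ≤ win a lam l N' := by
  rcases hN.lt_or_eq with hN | rfl
  · have := h.win_sep hN hN'
    have h0 := h.pos
    have h1 : 0 < lam ^ l := by positivity
    linarith
  · exact le_rfl

theorem stair_mono : Monotone (stair K o a lam) := by
  intro u v huv
  have h0 := h.pos
  apply sum_le_sum
  intro N _
  have : (cut K o K N : ℝ) ≤ cut K o K (N + 1) := by exact_mod_cast (cut_step K N).1
  apply mul_le_mul_of_nonneg_left _ (by linarith)
  apply clamp_mono
  gcongr

theorem stair_bounds {l : ℕ} (hl : l ≤ K) {N : ℕ} (hN : N ≤ 3 ^ l) (u : ℝ) :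
    ((∀ N' < N, win a lam l N' + lam ^ l ≤ u) → (cut K o l N : ℝ) ≤ stair K o a lam u) ∧
    ((∀ N', N ≤ N' → N' < 3 ^ l → u ≤ win a lam l N') → stair K o a lam u ≤ cut K o l N) := by
  have h0 := h.pos
  induction hl using Nat.decreasingInduction generalizing N with
  | self =>
    have h1 : 0 < lam ^ K := by positivity
    have hd : ∀ N, (0 : ℝ) ≤ (cut K o K (N + 1) : ℝ) - cut K o K N := fun N => by
      have : (cut K o K N : ℝ) ≤ cut K o K (N + 1) := by exact_mod_cast (cut_step K N).1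
      linarith
    have ht : ∑ N' ∈ range N, ((cut K o K (N' + 1) : ℝ) - cut K o K N') = cut K o K N := by
      rw [sum_range_sub (fun N' => (cut K o K N' : ℝ)), cut_zero]
      simp
    rw [← ht, stair, ← sum_range_add_sum_Ico _ hN]
    constructor
    · intro hu
      have e1 : ∑ N' ∈ range N, ((cut K o K (N' + 1) : ℝ) - cut K o K N') =
          ∑ N' ∈ range N, ((cut K o K (N' + 1) : ℝ) - cut K o K N') *
            clamp ((u - win a lam K N') / lam ^ K) := by
        apply sum_congr rfl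
        intro N' hN'
        rw [clamp_of_one_le, mul_one]
        rw [le_div_iff₀ h1]
        linarith [hu N' (mem_range.1 hN')]
      rw [e1]
      exact le_add_of_nonneg_right
        (sum_nonneg fun N' _ => mul_nonneg (hd N') (clamp_nonneg _))
    · intro hu
      have e1 : ∑ N' ∈ Ico N (3 ^ K), ((cut K o K (N' + 1) : ℝ) - cut K o K N') *
            clamp ((u - win a lam K N') / lam ^ K) = 0 := by
        apply sum_eq_zero
        intro N' hN'
        rw [clamp_of_nonpos, mul_zero]
        apply div_nonpos_of_nonpos_of_nonneg _ h1.le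
        linarith [hu N' (mem_Ico.1 hN').1 (mem_Ico.1 hN').2]
      rw [e1, add_zero]
      exact sum_le_sum fun N' _ => mul_le_of_le_one_right (hd N') (clamp_le_one _)
  | of_succ l hl ih =>
    have h3 : 3 * N ≤ 3 ^ (l + 1) := by rw [pow_succ]; omega
    obtain ⟨i1, i2⟩ := ih h3
    rw [cut_three] at i1 i2
    refine ⟨fun hu => i1 fun N' hN' => ?_, fun hu => i2 fun N' hN' hN'' => ?_⟩
    · linarith [(h.win_nest l N').2, hu (N' / 3) (by omega)]
    · rw [pow_succ] at hN''
      linarith [(h.win_nest l N').1, hu (N' / 3) (by omega) (by omega)]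

theorem stair_of_nonpos {u : ℝ} (hu : u ≤ 0) : stair K o a lam u ≤ 0 := by
  have := (h.stair_bounds (K := K) (o := o) (Nat.zero_le K) (Nat.zero_le _) u).2
    fun _ _ _ => hu
  simpa [cut] using this

theorem stair_of_one_le {u : ℝ} (hu : 1 ≤ u) : 2 ^ K ≤ stair K o a lam u := by
  have := (h.stair_bounds (K := K) (o := o) (N := 1) (Nat.zero_le K) le_rfl u).1
    fun _ _ => by simpa [win] using hu
  simpa [cut] using this

theorem stair_window {l : ℕ} (hl : l ≤ K) {N : ℕ} (hN : N < 3 ^ l) {u : ℝ}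
    (h1 : win a lam l N ≤ u) (h2 : u ≤ win a lam l N + lam ^ l) :
    (cut K o l N : ℝ) ≤ stair K o a lam u ∧ stair K o a lam u ≤ cut K o l (N + 1) := by
  have h0 := h.pos
  have h3 : 0 < lam ^ l := by positivity
  constructor
  · refine (h.stair_bounds hl hN.le u).1 fun N' hN' => ?_
    linarith [h.win_sep hN' hN]
  · refine (h.stair_bounds hl hN u).2 fun N' hN' hN'' => ?_
    linarith [h.win_sep (show N < N' from hN') hN'']

theorem stair_gap {l : ℕ} (hl : l ≤ K) {s t : ℝ}
    (hd : ∀ N < 3 ^ l, t ≤ win a lam l N ∨ win a lam l N + lam ^ l ≤ s) :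
    ∃ N ≤ 3 ^ l, ∀ u, s ≤ u → u ≤ t → stair K o a lam u = cut K o l N := by
  classical
  have hex : ∃ N, N = 3 ^ l ∨ t ≤ win a lam l N := ⟨_, Or.inl rfl⟩
  have hle : Nat.find hex ≤ 3 ^ l := Nat.find_min' hex (Or.inl rfl)
  refine ⟨Nat.find hex, hle, fun u hs ht => le_antisymm ?_ ?_⟩
  · refine (h.stair_bounds hl hle u).2 fun N' h1 h2 => ?_
    rcases Nat.find_spec hex with e | e
    · omega
    · exact ht.trans (e.trans (h.win_mono h1 h2))
  · refine (h.stair_bounds hl hle u).1 fun N' h1 => ?_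
    have := Nat.find_min hex h1
    push Not at this
    rcases hd N' (by omega) with e | e
    · exact absurd e (not_le.2 this.2)
    · exact e.trans hs

/-- At most one window meets a short interval. -/
theorem stair_short {s t : ℝ} (hst : t ≤ s + 3 * lam ^ K) :
    ∃ b : ℕ, b < 2 ^ K ∧
      ∀ u, s ≤ u → u ≤ t → (b : ℝ) ≤ stair K o a lam u ∧ stair K o a lam u ≤ b + 1 := by
  have h0 := h.pos
  have h3 : 0 < lam ^ K := by positivity
  have hM : 0 < 2 ^ K := by positivity
  have key : ∀ p q : ℕ, p ≤ 2 ^ K → q ≤ 2 ^ K → q ≤ p + 1 →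
      (∀ u, s ≤ u → u ≤ t → (p : ℝ) ≤ stair K o a lam u ∧ stair K o a lam u ≤ q) →
      ∃ b : ℕ, b < 2 ^ K ∧ ∀ u, s ≤ u → u ≤ t →
        (b : ℝ) ≤ stair K o a lam u ∧ stair K o a lam u ≤ b + 1 := by
    intro p q hp hq hpq hu
    refine ⟨min p (2 ^ K - 1), by omega, fun u hs ht => ?_⟩
    have e1 : ((min p (2 ^ K - 1) : ℕ) : ℝ) ≤ p := by exact_mod_cast min_le_left _ _
    have e2 : (q : ℝ) ≤ (min p (2 ^ K - 1) : ℕ) + 1 := by
      exact_mod_cast (show q ≤ min p (2 ^ K - 1) + 1 by omega)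
    exact ⟨e1.trans (hu u hs ht).1, (hu u hs ht).2.trans e2⟩
  by_cases hd : ∀ N < 3 ^ K, t ≤ win a lam K N ∨ win a lam K N + lam ^ K ≤ s
  · obtain ⟨N, hN, hu⟩ := h.stair_gap (o := o) le_rfl hd
    exact key _ _ (cut_le (o := o) hN) (cut_le (o := o) hN) (Nat.le_succ _)
      fun u hs ht => by simp [hu u hs ht]
  · push Not at hd
    obtain ⟨N, hN, h1, h2⟩ := hd
    refine key _ _ (cut_le (o := o) hN.le) (cut_le (o := o) (N := N + 1) hN)
      (by simpa using (cut_step (K := K) (o := o) K N).2 le_rfl) fun u hs ht => ⟨?_, ?_⟩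
    · refine (h.stair_bounds le_rfl hN.le u).1 fun N' hN' => ?_
      linarith [h.win_sep hN' hN]
    · refine (h.stair_bounds le_rfl hN u).2 fun N' hN' hN'' => ?_
      linarith [h.win_sep (show N < N' from hN') hN'']

end SP

/-- Separation of the corners of the Cantor set by a generic functional. -/
theorem win_generic {ι : Type*} [Fintype ι] {a g : ι → ℝ} {lam μ Γ : ℝ} (ha : ∀ s, SP (a s) lam)
    (hΓ : ∑ s, |g s| ≤ Γ) (hlam : 4 * Γ * lam ≤ μ)
    (hμ : ∀ d : ι → ℤ, d ≠ 0 → (∀ s, |d s| ≤ 2) → μ ≤ |∑ s, g s * d s * a s|)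
    {l : ℕ} {N N' : ι → ℕ} (hN : ∀ s, N s < 3 ^ l) (hN' : ∀ s, N' s < 3 ^ l) (hne : N ≠ N')
    (s : ι) : μ * (|win (a s) lam l (N s) - win (a s) lam l (N' s)| + 2 * lam ^ l) ≤
      4 * (|∑ s, g s * (win (a s) lam l (N s) - win (a s) lam l (N' s))| - 2 * Γ * lam ^ l) := by
  have h0 := (ha s).pos
  have hΓ0 : 0 ≤ Γ := (sum_nonneg fun s _ => abs_nonneg _).trans hΓ
  have hμ0 : 0 ≤ μ := le_trans (by positivity) hlam
  have hl2 : 2 * lam ≤ 1 := by linarith [(ha s).sep, (ha s).nest]
  induction l generalizing N N' with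
  | zero =>
    exact absurd (funext fun s => by have := hN s; have := hN' s; omega) hne
  | succ l ih =>
    have h1 : 0 < lam ^ l := by positivity
    let d : ι → ℤ := fun s => (N s % 3 : ℕ) - (N' s % 3 : ℕ)
    have hd : ∀ s, |d s| ≤ 2 := fun s => by
      simp only [d, abs_le]
      omega
    have hdiff : ∀ s, win (a s) lam (l + 1) (N s) - win (a s) lam (l + 1) (N' s) =
        (win (a s) lam l (N s / 3) - win (a s) lam l (N' s / 3)) + d s * a s * lam ^ l := by
      intro s
      simp only [win, d, Int.cast_sub, Int.cast_natCast]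
      ring
    have hda : ∀ s, |d s * a s * lam ^ l| ≤ lam ^ l := by
      intro s
      have e1 : |(d s : ℝ)| ≤ 2 := by exact_mod_cast hd s
      have e2 : 0 ≤ a s := by linarith [(ha s).sep]
      rw [abs_mul, abs_mul, abs_of_nonneg e2, abs_of_pos h1]
      apply mul_le_of_le_one_left h1.le
      nlinarith [(ha s).nest]
    simp only [hdiff, mul_add, sum_add_distrib]
    rw [pow_succ]
    by_cases he : (fun s => N s / 3) = fun s => N' s / 3
    · have he' : ∀ s, N s / 3 = N' s / 3 := congrFun he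
      have hd0 : d ≠ 0 := by
        intro h
        apply hne
        funext s
        have e1 := congrFun h s
        have e2 := he' s
        simp only [d, Pi.zero_apply] at e1
        omega
      have e1 := hμ d hd0 hd
      simp only [he', sub_self, mul_zero, sum_const_zero, zero_add]
      have e2 : |∑ s, g s * (d s * a s * lam ^ l)| = |∑ s, g s * d s * a s| * lam ^ l := by
        rw [← abs_of_pos h1, ← abs_mul, sum_mul, abs_of_pos h1]
        congr 1
        exact sum_congr rfl fun s _ => by ring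
      rw [e2]
      have e3 := mul_le_mul_of_nonneg_left (hda s) hμ0
      have e4 := mul_le_mul_of_nonneg_right e1 h1.le
      have e5 := mul_le_mul_of_nonneg_right hlam h1.le
      have e6 := mul_le_mul_of_nonneg_right hl2 (mul_nonneg hμ0 h1.le)
      nlinarith
    · have i1 := ih (N := fun s => N s / 3) (N' := fun s => N' s / 3)
        (fun s => by have := hN s; rw [pow_succ] at this; omega)
        (fun s => by have := hN' s; rw [pow_succ] at this; omega) he
      have e1 : |∑ s, g s * (d s * a s * lam ^ l)| ≤ Γ * lam ^ l := by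
        refine (abs_sum_le_sum_abs _ _).trans ?_
        refine le_trans ?_ (mul_le_mul_of_nonneg_right hΓ h1.le)
        rw [sum_mul]
        apply sum_le_sum
        intro s _
        rw [abs_mul]
        exact mul_le_mul_of_nonneg_left (hda s) (abs_nonneg _)
      have e2 := abs_add_le (win (a s) lam l (N s / 3) - win (a s) lam l (N' s / 3))
        (d s * a s * lam ^ l)
      have e3 := abs_sub_abs_le_abs_add
        (∑ s, g s * (win (a s) lam l (N s / 3) - win (a s) lam l (N' s / 3)))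
        (∑ s, g s * (d s * a s * lam ^ l))
      have e4 := mul_le_mul_of_nonneg_left (e2.trans (add_le_add_right (hda s) _)) hμ0
      have e6 := mul_le_mul_of_nonneg_right hl2 (mul_nonneg hμ0 h1.le)
      have e7 := mul_le_mul_of_nonneg_right hl2 (mul_nonneg hΓ0 h1.le)
      nlinarith

/-- Generic scales. -/
theorem exists_generic_scales (k B : ℕ) : ∃ (a : Fin k → ℝ) (μ : ℝ), 0 < μ ∧
    (∀ s, 0 < a s ∧ a s ≤ 1 / 3) ∧
    ∀ c : Fin k → ℤ, c ≠ 0 → (∀ s, |c s| ≤ B + 1) → μ ≤ |∑ s, c s * a s| := by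
  let T : Finset (Fin k → ℤ) :=
    (Fintype.piFinset fun _ => Finset.Icc (-(B + 1 : ℤ)) (B + 1)).erase 0
  have hT : ∀ c, c ∈ T ↔ c ≠ 0 ∧ ∀ s, |c s| ≤ B + 1 := by
    intro c
    simp [T, Fintype.mem_piFinset, abs_le]
  let f : T → Module.Dual ℝ (Fin k → ℝ) := fun c => ∑ s, (c.1 s : ℝ) • LinearMap.proj s
  have hf : ∀ c x, f c x = ∑ s, c.1 s * x s := fun c x => by simp [f]
  obtain ⟨x, hx⟩ := Module.Dual.exists_forall_ne_zero_of_forall_exists f (by
    rintro ⟨c, hc⟩
    obtain ⟨s, hs⟩ := Function.ne_iff.1 ((hT c).1 hc).1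
    refine ⟨Pi.single s 1, ?_⟩
    rw [hf]
    simpa [Pi.single_apply] using hs)
  have hx' : ∀ c : Fin k → ℤ, c ≠ 0 → (∀ s, |c s| ≤ B + 1) → ∑ s, c s * x s ≠ 0 :=
    fun c h1 h2 => by simpa [hf] using hx ⟨c, (hT c).2 ⟨h1, h2⟩⟩
  have hx0 : ∀ s, x s ≠ 0 := by
    intro s
    have := hx' (Pi.single s 1) (by simp) (fun s' => by
      rw [Pi.single_apply]
      split_ifs
      · simp
      · simp only [abs_zero]
        positivity)
    simpa [Pi.single_apply] using this
  have hR : 0 < 3 * (‖x‖ + 1) := by positivity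
  let a : Fin k → ℝ := fun s => |x s| / (3 * (‖x‖ + 1))
  have ha : ∀ c : Fin k → ℤ, c ≠ 0 → (∀ s, |c s| ≤ B + 1) → 0 < |∑ s, c s * a s| := by
    intro c h1 h2
    have := hx' (fun s => if 0 ≤ x s then c s else -c s) (by
      intro h
      apply h1
      funext s
      have := congrFun h s
      simp only [Pi.zero_apply] at this ⊢
      split_ifs at this <;> omega) (fun s => by split_ifs <;> simp [h2 s])
    rw [abs_pos]
    have e : ∑ s, c s * a s =
        (∑ s, ((if 0 ≤ x s then c s else -c s : ℤ) : ℝ) * x s) / (3 * (‖x‖ + 1)) := by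
      rw [sum_div]
      apply sum_congr rfl
      intro s _
      simp only [a]
      split_ifs with h
      · rw [abs_of_nonneg h]; ring
      · rw [abs_of_neg (not_le.1 h)]; push_cast; ring
    rw [e]
    exact div_ne_zero this hR.ne'
  obtain ⟨μ, hμ, hμle⟩ : ∃ μ > 0, ∀ c ∈ T, μ ≤ |∑ s, c s * a s| := by
    rcases T.eq_empty_or_nonempty with he | hne
    · exact ⟨1, one_pos, by simp [he]⟩
    · obtain ⟨c, hc, hmin⟩ := T.exists_min_image (fun c => |∑ s, c s * a s|) hne
      exact ⟨_, ha c ((hT c).1 hc).1 ((hT c).1 hc).2, hmin⟩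
  refine ⟨a, μ, hμ, fun s => ⟨div_pos (abs_pos.2 (hx0 s)) hR, ?_⟩,
    fun c h1 h2 => hμle c ((hT c).2 ⟨h1, h2⟩)⟩
  have : |x s| ≤ ‖x‖ := norm_le_pi_norm x s
  simp only [a]
  rw [div_le_iff₀ hR]
  linarith

end Pool.Agent.Lib.MP_3eff7f_gt
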