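import Pool.Agent.Lib.MP_3eff7f_gt.Homot
import Pool.Agent.Lib.MP_3eff7f_gt.Grid
import Pool.Agent.Lib.MP_3eff7f_gt.Stair

set_option autoImplicit false

open Finset

namespace Pool.Agent.Lib.MP_3eff7f_gt

theorem pair_unique {k : ℕ} {a : Fin k → ℝ} {lam μ : ℝ} {B : ℕ} (hB : 5 ≤ B)
    (ha : ∀ s, SP (a s) lam) (hlam : 24 * lam ≤ μ)
    (hμ : ∀ c : Fin k → ℤ, c ≠ 0 → (∀ s, |c s| ≤ B + 1) → μ ≤ |∑ s, c s * a s|)
    {v : Fin k → ℤ} (hv : ∀ i, 1 ≤ v i ∧ v i ≤ 3) (u : Fin k → ℝ) {i m : Fin k} (him : m ≠ i)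
    {l N₁ N₁' N₂ N₂' : ℕ} (h1 : N₁ < 3 ^ l) (h1' : N₁' < 3 ^ l) (h2 : N₂ < 3 ^ l)
    (h2' : N₂' < 3 ^ l) {t₁ t₂ : ℝ}
    (e1 : u i + t₁ * v i ∈ Set.Icc (win (a i) lam l N₁) (win (a i) lam l N₁ + lam ^ l))
    (e1' : u m + t₁ * v m ∈ Set.Icc (win (a m) lam l N₁') (win (a m) lam l N₁' + lam ^ l))
    (e2 : u i + t₂ * v i ∈ Set.Icc (win (a i) lam l N₂) (win (a i) lam l N₂ + lam ^ l))
    (e2' : u m + t₂ * v m ∈ Set.Icc (win (a m) lam l N₂') (win (a m) lam l N₂' + lam ^ l)) :
    N₁ = N₂ := by
  by_contra hne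
  have h0 := (ha i).pos
  have hl : 0 < lam ^ l := by positivity
  have hvi : (1 : ℝ) ≤ v i ∧ (v i : ℝ) ≤ 3 := by exact_mod_cast hv i
  have hvm : (1 : ℝ) ≤ v m ∧ (v m : ℝ) ≤ 3 := by exact_mod_cast hv m
  have key := win_generic (ι := Fin 2) (a := ![a i, a m]) (g := ![v m, -v i]) (lam := lam)
    (μ := μ) (Γ := 6) (by simp [Fin.forall_fin_two, ha]) (by
      simp only [Fin.sum_univ_two, Matrix.cons_val_zero, Matrix.cons_val_one, abs_neg]
      rw [abs_of_pos (by linarith), abs_of_pos (by linarith)]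
      linarith) (by linarith) (by
      intro d hd hd2
      have hi := hv i
      have hm := hv m
      have d0 := abs_le.1 (hd2 0)
      have d1 := abs_le.1 (hd2 1)
      have := hμ (Pi.single i (v m * d 0) + Pi.single m (-v i * d 1)) (by
        intro h
        apply hd
        have c0 := congrFun h i
        have c1 := congrFun h m
        simp only [Pi.add_apply, Pi.single_eq_same, Pi.single_eq_of_ne him,
          Pi.single_eq_of_ne him.symm, add_zero, zero_add, Pi.zero_apply, mul_eq_zero,
          neg_eq_zero] at c0 c1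
        funext s
        fin_cases s
        · exact c0.resolve_left (by omega)
        · exact c1.resolve_left (by omega)) (by
        intro s
        have hB' : (6 : ℤ) ≤ B + 1 := by omega
        refine le_trans ?_ hB'
        by_cases h1 : s = i
        · subst h1
          simp only [Pi.add_apply, Pi.single_eq_same, Pi.single_eq_of_ne him.symm, add_zero,
            abs_le]
          constructor <;> nlinarith
        · by_cases h2 : s = m
          · subst h2
            simp only [Pi.add_apply, Pi.single_eq_same, Pi.single_eq_of_ne him, zero_add, abs_le]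
            constructor <;> nlinarith
          · simp [Pi.single_eq_of_ne h1, Pi.single_eq_of_ne h2])
      refine this.trans_eq ?_
      congr 1
      simp only [Pi.add_apply, Int.cast_add, add_mul, sum_add_distrib, Pi.single_apply,
        Int.cast_ite, Int.cast_zero, ite_mul, zero_mul, sum_ite_eq', mem_univ, if_true,
        Fin.sum_univ_two, Matrix.cons_val_zero, Matrix.cons_val_one]
      push_cast
      ring) (l := l) (N := ![N₁, N₁']) (N' := ![N₂, N₂'])
    (by simp [Fin.forall_fin_two, h1, h1']) (by simp [Fin.forall_fin_two, h2, h2'])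
    (fun h => hne (congrFun h 0)) 0
  simp only [Fin.sum_univ_two, Matrix.cons_val_zero, Matrix.cons_val_one] at key
  have hμ0 : 0 < μ := by linarith
  have b1 : |(v m : ℝ) * (win (a i) lam l N₁ - win (a i) lam l N₂) +
      -(v i : ℝ) * (win (a m) lam l N₁' - win (a m) lam l N₂')| ≤ 6 * lam ^ l := by
    have e : (v m : ℝ) * (win (a i) lam l N₁ - win (a i) lam l N₂) +
        -(v i : ℝ) * (win (a m) lam l N₁' - win (a m) lam l N₂') =
        v m * ((u i + t₂ * v i - win (a i) lam l N₂) - (u i + t₁ * v i - win (a i) lam l N₁)) -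
        v i * ((u m + t₂ * v m - win (a m) lam l N₂') -
          (u m + t₁ * v m - win (a m) lam l N₁')) := by ring
    rw [e, abs_le]
    constructor <;> nlinarith [e1.1, e1.2, e1'.1, e1'.2, e2.1, e2.2, e2'.1, e2'.2]
  have b2 := mul_nonneg hμ0.le (add_nonneg (abs_nonneg
    (win (a i) lam l N₁ - win (a i) lam l N₂)) (show 0 ≤ 2 * lam ^ l by positivity))
  linarith

variable {X : Type*} [MetricSpace X]

/-- Cellwise Lipschitz bounds. -/
def CellLip {k : ℕ} (K : ℕ) (F : (Fin k → ℝ) → X) (ρ : (Fin k → ℕ) → ℝ) : Prop :=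
  ∀ b ∈ cells k K, ∀ x x' : Fin k → ℝ, (∀ m, (b m : ℝ) ≤ x m ∧ x m ≤ b m + 1) →
    (∀ m, (b m : ℝ) ≤ x' m ∧ x' m ≤ b m + 1) → dist (F x) (F x') ≤ ρ b * dist x x'

theorem CellLip.line {k K : ℕ} {F : (Fin k → ℝ) → X} {ρ : (Fin k → ℕ) → ℝ} (h : CellLip K F ρ)
    (hρ : ∀ b, 0 ≤ ρ b) {i : Fin k} {b : Fin k → ℕ} (hb : ∀ m, m ≠ i → b m < 2 ^ K) {p q : ℕ} (hpq : p ≤ q)
    (hq : q ≤ 2 ^ K) : Clk (fun x => F (Function.update (fun m => (b m : ℝ)) i x)) p q
      (∑ t ∈ Ico p q, ρ (Function.update b i t)) := by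
  induction q, hpq using Nat.le_induction with
  | base => simpa using Clk.of_const fun s t hs hst ht => by rw [le_antisymm hst (ht.trans hs)]
  | succ q hpq ih =>
    rw [sum_Ico_succ_top hpq]
    refine Clk.trans (b := q) (by exact_mod_cast hpq) (by simp) (ih (by omega)) ?_
    have hmem : Function.update b i q ∈ cells k K := by
      rw [cells, Fintype.mem_piFinset]
      intro m
      by_cases hm : m = i
      · subst hm
        rw [Function.update_self, mem_range]
        omega
      · rw [Function.update_of_ne hm, mem_range]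
        exact hb m hm
    have hin : ∀ x : ℝ, (q : ℝ) ≤ x → x ≤ q + 1 → ∀ m,
        (Function.update b i q m : ℝ) ≤ Function.update (fun m => (b m : ℝ)) i x m ∧
        Function.update (fun m => (b m : ℝ)) i x m ≤ Function.update b i q m + 1 := by
      intro x h1 h2 m
      by_cases hm : m = i
      · subst hm
        simp [h1, h2]
      · simp [Function.update_of_ne hm]
    refine ⟨fun x => ρ (Function.update b i q) * x, by push_cast; linarith, fun s t hs hst ht => ?_⟩
    push_cast at ht
    refine (h _ hmem _ _ (hin s hs (hst.trans ht)) (hin t (hs.trans hst) ht)).trans ?_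
    rw [← mul_sub]
    apply mul_le_mul_of_nonneg_left _ (hρ _)
    rw [dist_pi_le_iff (by linarith)]
    intro m
    by_cases hm : m = i
    · subst hm
      simp only [Function.update_self, Real.dist_eq]
      rw [abs_of_nonpos (by linarith)]
      linarith
    · simp only [Function.update_of_ne hm, dist_self]
      linarith

theorem geom_bound {β : ℝ} (h0 : 0 ≤ β) (h1 : β < 1) (j K : ℕ) :
    ∑ l ∈ Ico j K, β ^ (l + 1 - (j + 2)) ≤ 1 + (1 - β)⁻¹ := by
  rw [sum_Ico_eq_sum_range]
  have h2 : 0 ≤ (1 - β)⁻¹ := inv_nonneg.2 (by linarith)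
  rcases K - j with _ | m
  · simp only [range_zero, sum_empty]
    linarith
  · rw [sum_range_succ', add_comm]
    have e : ∀ s, j + (s + 1) + 1 - (j + 2) = s := fun s => by omega
    have e' : j + 0 + 1 - (j + 2) = 0 := by omega
    simp only [e, e', pow_zero, add_le_add_iff_left]
    rw [← tsum_geometric_of_lt_one h0 h1]
    exact (summable_geometric_of_lt_one h0 h1).sum_le_tsum _ fun _ _ => by positivity

/-- The length of the image of a segment under the staircase map followed by `F`. -/
theorem seg_cost {k n K : ℕ} {a : Fin k → ℝ} {lam μ : ℝ} {B : ℕ} (hB : 5 ≤ B)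
    (ha : ∀ s, SP (a s) lam) (hlam : 24 * lam ≤ μ)
    (hμ : ∀ c : Fin k → ℤ, c ≠ 0 → (∀ s, |c s| ≤ B + 1) → μ ≤ |∑ s, c s * a s|)
    {F : (Fin k → ℝ) → X} {p₀ : X} (hF : ∀ x, (∃ i, x i ≤ 0 ∨ 2 ^ K ≤ x i) → F x = p₀)
    {ρ : (Fin k → ℕ) → ℝ} (hρ : ∀ b, 0 ≤ ρ b) (hL : CellLip K F ρ) {c β ε : ℝ} (hc : 0 ≤ c)
    (hβ0 : 0 ≤ β) (hβ1 : β < 1) (hε : 0 ≤ ε) (hρε : ∀ b ∈ cells k K, ρ b ≤ ε)
    {o : ℕ → Fin k → ℕ} (ho : ∀ l m, o l m < 2 ^ (K - l))
    (hgrid : ∀ (j : ℕ) (i : Fin k) (a lv : Fin k → ℕ) (p q s : ℕ), j ≤ K →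
      (∀ m, m ≠ i → a m < 2 ^ K ∧ 1 ≤ lv m ∧ lv m ≤ j ∧ a m % 2 ^ (K - lv m) = o (lv m) m) →
      q ≤ 2 ^ K → q ≤ p + 2 ^ (K - j) → s ≤ j →
      (k < n ∨ s = 0 ∨ ∃ m, m ≠ i ∧ lv m + s ≤ j) →
      ∑ t ∈ Ico p q, ρ (Function.update a i t) ≤ c * ε * β ^ s)
    {v : Fin k → ℤ} (hv : ∀ i, 1 ≤ v i ∧ v i ≤ 3) (u : Fin k → ℝ) {A A' : ℝ} {j₀ : ℕ}
    (hj₀ : j₀ ≤ K) (hA : j₀ = 0 ∨ A' ≤ A + 2 * lam ^ j₀)
    (hav : k < n ∨ (j₀ + 2 ≤ K → ∀ t, A ≤ t → t ≤ A' → ∃ m, ∀ N < 3 ^ (j₀ + 2),
      u m + t * v m ∉ Set.Icc (win (a m) lam (j₀ + 2) N)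
        (win (a m) lam (j₀ + 2) N + lam ^ (j₀ + 2)))) :
    Clk (fun t => F fun m => stair K (fun l => o l m) (a m) lam (u m + t * v m)) A A'
      ((k * (c + k) + 3 * k ^ 2 * (c * (1 + (1 - β)⁻¹) + k)) * ε) := by
  classical
  have hvR : ∀ i, (1 : ℝ) ≤ v i ∧ (v i : ℝ) ≤ 3 := fun i => by exact_mod_cast hv i
  have hvp : ∀ i, (0 : ℝ) < v i := fun i => by linarith [(hvR i).1]
  let In : ℕ → Fin k → ℕ → ℝ → Prop := fun l i N t =>
    u i + t * v i ∈ Set.Icc (win (a i) lam l N) (win (a i) lam l N + lam ^ l)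
  let P : ℕ → Fin k → ℕ → ℝ := fun l i N => (win (a i) lam l N - u i) / v i
  let Q : ℕ → Fin k → ℕ → ℝ := fun l i N => (win (a i) lam l N + lam ^ l - u i) / v i
  have hP : ∀ l i N, u i + P l i N * v i = win (a i) lam l N := fun l i N => by
    simp only [P]
    rw [div_mul_cancel₀ _ (hvp i).ne']
    ring
  have hQ : ∀ l i N, u i + Q l i N * v i = win (a i) lam l N + lam ^ l := fun l i N => by
    simp only [Q]
    rw [div_mul_cancel₀ _ (hvp i).ne']
    ring
  have hum : ∀ i {s t : ℝ}, s ≤ t → u i + s * v i ≤ u i + t * v i := fun i s t h => by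
    nlinarith [hvp i]
  have hum' : ∀ i {s t : ℝ}, u i + s * v i ≤ u i + t * v i → s ≤ t := fun i s t h => by
    nlinarith [hvp i]
  have hIn : ∀ l i N t, In l i N t ↔ P l i N ≤ t ∧ t ≤ Q l i N := by
    intro l i N t
    simp only [In, Set.mem_Icc]
    rw [← hQ, ← hP l i N]
    exact ⟨fun h => ⟨hum' i h.1, hum' i h.2⟩, fun h => ⟨hum i h.1, hum i h.2⟩⟩
  have hPQ : ∀ l i N, P l i N ≤ Q l i N := by
    intro l i N
    apply hum' i
    rw [hP, hQ]
    have := (ha i).pos
    have : 0 < lam ^ l := by positivity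
    linarith
  have hnest : ∀ l i N, P l i (N / 3) ≤ P (l + 1) i N ∧ Q (l + 1) i N ≤ Q l i (N / 3) := by
    intro l i N
    constructor <;> apply hum' i
    · rw [hP, hP]
      exact ((ha i).win_nest l N).1
    · rw [hQ, hQ]
      exact ((ha i).win_nest l N).2
  let Ov : ℕ → Fin k → Fin k → ℕ → Prop := fun l i m N =>
    N < 3 ^ l ∧ m ≠ i ∧ ∃ N' < 3 ^ l, ∃ t, In l i N t ∧ In l m N' t
  let D : ℕ → Fin k → Fin k → ℕ := fun l i m => Classical.epsilon (Ov l i m)
  have hD : ∀ l i m N, Ov l i m N → D l i m = N := by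
    intro l i m N h
    have h' : Ov l i m (D l i m) := Classical.epsilon_spec (p := Ov l i m) ⟨N, h⟩
    obtain ⟨g1, g2, N', g3, t, g4, g5⟩ := h'
    obtain ⟨h1, -, N'', h3, t', h4, h5⟩ := h
    exact pair_unique hB ha hlam hμ hv u g2 g1 g3 h1 h3 g4 g5 h4 h5
  let Me : ℕ → Fin k → ℕ → Prop := fun l i N => N < 3 ^ l ∧ ∃ t, A ≤ t ∧ t ≤ A' ∧ In l i N t
  let Bs : Fin k → ℕ := fun i => Classical.epsilon (Me j₀ i)
  have hBs : ∀ i N, Me j₀ i N → Bs i = N := by
    have key : ∀ i N N', Me j₀ i N → Me j₀ i N' → ¬ N < N' := by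
      rintro i N N' ⟨h1, t, h2, h3, h4⟩ ⟨h1', t', h2', h3', h4'⟩ hlt
      rcases hA with hA | hA
      · rw [hA] at h1'
        omega
      · have e1 := (ha i).win_sep hlt h1'
        have := (ha i).pos
        have e0 : 0 < lam ^ j₀ := by positivity
        have e2 : (t' - t) * v i ≤ 2 * lam ^ j₀ * 3 :=
          mul_le_mul (by linarith) (hvR i).2 (hvp i).le (by positivity)
        linarith [h4.2, h4'.1]
    intro i N h
    have h' := Classical.epsilon_spec (p := Me j₀ i) ⟨N, h⟩
    exact le_antisymm (not_lt.1 (key i _ _ h h')) (not_lt.1 (key i _ _ h' h))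
  let γ : ℝ → X := fun t => F fun m => stair K (fun l => o l m) (a m) lam (u m + t * v m)
  let w : ℕ → ℝ := fun l => c * ε * β ^ (l - (j₀ + 2)) + if l = K then k * ε else 0
  have hw0 : ∀ l, 0 ≤ w l := fun l => by
    simp only [w]
    split_ifs <;> positivity
  have hterm : ∀ l i N, l ≤ K → Me l i N → ((¬ ∃ m, Ov l i m N) ∨ l = K) →
      Clk γ (P l i N) (Q l i N) (w l) := by
    rintro l i N hl ⟨hN, t₀, ht1, ht2, ht3⟩ hcl
    by_cases hK : l = K
    · subst hK
      have hlen : Q l i N - P l i N ≤ lam ^ l := by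
        have e1 := hP l i N
        have e2 := hQ l i N
        nlinarith [hPQ l i N, (hvR i).1]
      have hb := fun m => (ha m).stair_short (K := l) (o := fun l => o l m)
        (s := u m + P l i N * v m) (t := u m + Q l i N * v m) (by
          nlinarith [hPQ l i N, (hvR m).2])
      choose b hb1 hb2 using hb
      have hbm : b ∈ cells k l := by
        rw [cells, Fintype.mem_piFinset]
        exact fun m => mem_range.2 (hb1 m)
      refine ⟨fun t => ρ b * ∑ m, stair l (fun l => o l m) (a m) lam (u m + t * v m), ?_,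
        fun s t hs hst ht => ?_⟩
      · rw [← mul_sub, ← sum_sub_distrib]
        have e1 : ∑ m, (stair l (fun l => o l m) (a m) lam (u m + Q l i N * v m) -
            stair l (fun l => o l m) (a m) lam (u m + P l i N * v m)) ≤ ∑ _m : Fin k, (1 : ℝ) := by
          apply sum_le_sum
          intro m _
          linarith [(hb2 m _ le_rfl (hum m (hPQ l i N))).1, (hb2 m _ (hum m (hPQ l i N)) le_rfl).2]
        simp only [sum_const, card_univ, Fintype.card_fin, nsmul_eq_mul, mul_one] at e1
        have e2 := mul_le_mul (hρε b hbm) e1 (sum_nonneg fun m _ =>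
          sub_nonneg.2 ((ha m).stair_mono (hum m (hPQ l i N)))) hε
        have e3 : 0 ≤ c * ε * β ^ (l - (j₀ + 2)) := by positivity
        simp only [w, if_true]
        linarith
      · refine (hL b hbm _ _ (fun m => hb2 m _ (hum m hs) (hum m (hst.trans ht)))
          fun m => hb2 m _ (hum m (hs.trans hst)) (hum m ht)).trans ?_
        rw [← mul_sub, ← sum_sub_distrib]
        apply mul_le_mul_of_nonneg_left _ (hρ b)
        have e0 : ∀ m, 0 ≤ stair l (fun l => o l m) (a m) lam (u m + t * v m) -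
            stair l (fun l => o l m) (a m) lam (u m + s * v m) := fun m =>
          sub_nonneg.2 ((ha m).stair_mono (hum m hst))
        rw [dist_pi_le_iff (sum_nonneg fun m _ => e0 m)]
        intro m
        rw [Real.dist_eq, abs_sub_comm, abs_of_nonneg (e0 m)]
        exact single_le_sum (f := fun m => stair l (fun l => o l m) (a m) lam (u m + t * v m) -
          stair l (fun l => o l m) (a m) lam (u m + s * v m)) (fun m _ => e0 m) (mem_univ m)
    · have hcl := hcl.resolve_right hK
      have hconst : ∀ m, ∃ N' ≤ 3 ^ l, m ≠ i → ∀ t, P l i N ≤ t → t ≤ Q l i N →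
          stair K (fun l => o l m) (a m) lam (u m + t * v m) = cut K (fun l => o l m) l N' := by
        intro m
        by_cases hm : m = i
        · exact ⟨0, Nat.zero_le _, fun h => absurd hm h⟩
        · obtain ⟨N', h1, h2⟩ := (ha m).stair_gap (K := K) (o := fun l => o l m) hl
            (s := u m + P l i N * v m) (t := u m + Q l i N * v m) (by
              intro N' hN'
              by_contra hcon
              push Not at hcon
              rw [← hQ, ← hP l m N'] at hcon
              have e1 := hum' m hcon.1.le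
              have e2 := hum' m hcon.2.le
              exact hcl ⟨m, hN, hm, N', hN', max (P l i N) (P l m N'),
                (hIn _ _ _ _).2 ⟨le_max_left _ _, max_le (hPQ _ _ _) e1⟩,
                (hIn _ _ _ _).2 ⟨le_max_right _ _, max_le e2 (hPQ _ _ _)⟩⟩)
          exact ⟨N', h1, fun _ t h3 h4 => h2 _ (hum m h3) (hum m h4)⟩
      choose Nm hNm1 hNm2 using hconst
      let b : Fin k → ℕ := fun m => cut K (fun l => o l m) l (Nm m)
      by_cases hbd : ∃ m, m ≠ i ∧ (b m = 0 ∨ b m = 2 ^ K)
      · obtain ⟨m, hm, hbm⟩ := hbd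
        have : ∀ t, P l i N ≤ t → t ≤ Q l i N → γ t = p₀ := by
          intro t h1 h2
          refine hF _ ⟨m, ?_⟩
          rw [hNm2 m hm t h1 h2]
          rcases hbm with h | h
          · exact Or.inl (le_of_eq (by exact_mod_cast h))
          · exact Or.inr (ge_of_eq (by exact_mod_cast h))
        exact (Clk.of_const fun s t hs hst ht => by
          rw [this s hs (hst.trans ht), this t (hs.trans hst) ht]).mono (hw0 l)
      · push Not at hbd
        have ht₀ := (hIn _ _ _ _).1 ht3
        have hlev : ∀ m, m ≠ i → ∃ l', 1 ≤ l' ∧ l' ≤ l ∧ b m % 2 ^ (K - l') = o l' m := by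
          intro m hm
          exact ((cut_level (fun l => ho l m) (hNm1 m)).resolve_left (hbd m hm).1).resolve_left
            (hbd m hm).2
        have hsp : ∃ lv : Fin k → ℕ, (∀ m, m ≠ i →
            1 ≤ lv m ∧ lv m ≤ l ∧ b m % 2 ^ (K - lv m) = o (lv m) m) ∧
            (k < n ∨ l - (j₀ + 2) = 0 ∨ ∃ m, m ≠ i ∧ lv m + (l - (j₀ + 2)) ≤ l) := by
          choose! lv hlv using hlev
          by_cases h1 : l - (j₀ + 2) = 0
          · exact ⟨lv, hlv, Or.inr (Or.inl h1)⟩
          rcases hav with h2 | h2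
          · exact ⟨lv, hlv, Or.inl h2⟩
          obtain ⟨m, hm⟩ := h2 (by omega) t₀ ht1 ht2
          have hmi : m ≠ i := by
            rintro rfl
            have : ∀ d l' N, l' = j₀ + 2 + d → N < 3 ^ l' → In l' m N t₀ → False := by
              intro d
              induction d with
              | zero => exact fun l' N e h3 h4 => by subst e; exact hm N h3 h4
              | succ d ih =>
                intro l' N e h3 h4
                subst e
                rw [← add_assoc, pow_succ] at h3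
                rw [← add_assoc, hIn] at h4
                exact ih _ (N / 3) rfl (by omega) ((hIn _ _ _ _).2
                  ⟨(hnest _ m N).1.trans h4.1, h4.2.trans (hnest _ m N).2⟩)
            exact this (l - (j₀ + 2)) l N (by omega) hN ht3
          obtain ⟨N', h3, h4⟩ := (ha m).stair_gap (K := K) (o := fun l => o l m)
            (l := j₀ + 2) (by omega) (s := u m + t₀ * v m) (t := u m + t₀ * v m) (by
              intro N' hN'
              have := hm N' hN'
              simp only [Set.mem_Icc, not_and_or, not_le] at this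
              exact this.imp le_of_lt le_of_lt)
          have h5 : b m = cut K (fun l => o l m) (j₀ + 2) N' := by
            have := (hNm2 m hmi t₀ ht₀.1 ht₀.2).symm.trans (h4 _ le_rfl le_rfl)
            exact_mod_cast this
          obtain ⟨l', g1, g2, g3⟩ := ((cut_level (fun l => ho l m) h3).resolve_left
            (h5 ▸ (hbd m hmi).1)).resolve_left (h5 ▸ (hbd m hmi).2)
          refine ⟨Function.update lv m l', fun m' hm' => ?_,
            Or.inr (Or.inr ⟨m, hmi, by rw [Function.update_self]; omega⟩)⟩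
          by_cases e : m' = m
          · subst e
            rw [Function.update_self]
            exact ⟨g1, by omega, h5 ▸ g3⟩
          · rw [Function.update_of_ne e]
            exact hlv m' hm'
        obtain ⟨lv, hlv, hcase⟩ := hsp
        have hblt : ∀ m, m ≠ i → b m < 2 ^ K := fun m hm =>
          lt_of_le_of_ne (cut_le (hNm1 m)) (hbd m hm).2
        have hst := cut_step (K := K) (o := fun l => o l i) l N
        have hg := hgrid l i b lv _ _ _ hl (fun m hm => ⟨hblt m hm, hlv m hm⟩)
          (cut_le (N := N + 1) hN) (hst.2 hl) (Nat.sub_le _ _) hcase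
        have h1 := (hL.line hρ hblt hst.1 (cut_le (N := N + 1) hN)).comp_mono
          (σ := fun t => stair K (fun l => o l i) (a i) lam (u i + t * v i)) (hPQ l i N)
          (fun s t _ hst _ => (ha i).stair_mono (hum i hst))
          ((ha i).stair_window hl hN (hP l i N).ge ((hum i (hPQ l i N)).trans (hQ l i N).le)).1
          ((ha i).stair_window hl hN ((hP l i N).ge.trans (hum i (hPQ l i N))) (hQ l i N).le).2
        refine (h1.congr fun t h2 h3 => ?_).mono (hg.trans ?_)
        · simp only [γ]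
          congr 1
          funext m
          by_cases hm : m = i
          · subst hm
            rw [Function.update_self]
          · rw [Function.update_of_ne hm, hNm2 m hm t h2 h3]
        · simp only [w, if_neg hK, add_zero, le_refl]
  let ι := Fin k ⊕ (ℕ × Fin k × Fin k × Fin 3)
  let lev : ι → ℕ := Sum.elim (fun _ => j₀) fun z => z.1 + 1
  let co : ι → Fin k := Sum.elim id fun z => z.2.1
  let num : ι → ℕ := Sum.elim Bs fun z => 3 * D z.1 z.2.1 z.2.2.1 + z.2.2.2
  let S₀ : Finset ι := univ.disjSum (Ico j₀ K ×ˢ univ)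
  have hlevK : ∀ z ∈ S₀, lev z ≤ K := by
    rintro (z | z) hz
    · exact hj₀
    · have := (mem_Ico.1 (mem_product.1 (inr_mem_disjSum.1 hz)).1).2
      exact this
  let S : Finset ι := S₀.filter fun z => Me (lev z) (co z) (num z) ∧
    ((¬ ∃ m, Ov (lev z) (co z) m (num z)) ∨ lev z = K)
  have hmain := Clk.of_cover (γ := γ) (a := A) (b := A') S (fun z => P (lev z) (co z) (num z))
    (fun z => Q (lev z) (co z) (num z)) (fun z => w (lev z)) (fun z _ => hPQ _ _ _)
    (fun z hz => hterm _ _ _ (hlevK z (mem_filter.1 hz).1) (mem_filter.1 hz).2.1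
      (mem_filter.1 hz).2.2) (by
      intro s t hs hst ht hav'
      have hme : ∀ l i N, N < 3 ^ l → P l i N < t → s < Q l i N → Me l i N :=
        fun l i N h1 h2 h3 => ⟨h1, max s (P l i N), hs.trans (le_max_left _ _),
          max_le (hst.trans ht) (h2.le.trans ht),
          (hIn _ _ _ _).2 ⟨le_max_right _ _, max_le h3.le (hPQ _ _ _)⟩⟩
      have hcand : ∀ i l, j₀ ≤ l → l ≤ K → ∀ N < 3 ^ l, P l i N < t → s < Q l i N →
          ∃ z ∈ S₀, lev z = l ∧ co z = i ∧ num z = N := by
        intro i l hl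
        induction l, hl using Nat.le_induction with
        | base =>
          intro _ N h1 h2 h3
          exact ⟨Sum.inl i, inl_mem_disjSum.2 (mem_univ _), rfl, rfl, hBs i N (hme _ _ _ h1 h2 h3)⟩
        | succ l hl ih =>
          intro hlK N h1 h2 h3
          have h1' : N / 3 < 3 ^ l := by rw [pow_succ] at h1; omega
          have h2' := (hnest l i N).1.trans_lt h2
          have h3' := h3.trans_le (hnest l i N).2
          by_cases hd : ∃ m, Ov l i m (N / 3)
          · obtain ⟨m, hm⟩ := hd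
            refine ⟨Sum.inr (l, i, m, ⟨N % 3, Nat.mod_lt _ (by norm_num)⟩),
              inr_mem_disjSum.2 (mem_product.2 ⟨mem_Ico.2 ⟨hl, hlK⟩, mem_univ _⟩), rfl, rfl, ?_⟩
            simp only [num, Sum.elim_inr, hD l i m _ hm]
            omega
          · obtain ⟨z, hz, e1, e2, e3⟩ := ih (by omega) _ h1' h2' h3'
            have := hav' z (mem_filter.2 ⟨hz, by
              rw [e1, e2, e3]
              exact ⟨hme _ _ _ h1' h2' h3', Or.inl hd⟩⟩)
            simp only [e1, e2, e3] at this
            exact absurd this (not_or.2 ⟨not_le.2 h2', not_le.2 h3'⟩)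
      simp only [γ]
      congr 1
      funext i
      obtain ⟨N', -, h2⟩ := (ha i).stair_gap (K := K) (o := fun l => o l i) le_rfl
        (s := u i + s * v i) (t := u i + t * v i) (by
          intro N hN
          by_contra hcon
          push Not at hcon
          rw [← hQ, ← hP K i N] at hcon
          have h2 : P K i N < t := lt_of_not_ge fun h => absurd (hum i h) (not_le.2 hcon.1)
          have h3 : s < Q K i N := lt_of_not_ge fun h => absurd (hum i h) (not_le.2 hcon.2)
          obtain ⟨z, hz, e1, e2, e3⟩ := hcand i K hj₀ le_rfl N hN h2 h3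
          have := hav' z (mem_filter.2 ⟨hz, by
            rw [e1, e2, e3]
            exact ⟨hme _ _ _ hN h2 h3, Or.inr rfl⟩⟩)
          simp only [e1, e2, e3] at this
          exact absurd this (not_or.2 ⟨not_le.2 h2, not_le.2 h3⟩))
      rw [h2 _ le_rfl (hum i hst), h2 _ (hum i hst) le_rfl])
  refine hmain.mono ?_
  refine (sum_le_sum_of_subset_of_nonneg (filter_subset _ _) fun z _ _ => hw0 _).trans ?_
  rw [sum_disjSum, sum_product]
  simp only [lev, Sum.elim_inl, Sum.elim_inr, sum_const, card_univ, Fintype.card_prod,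
    Fintype.card_fin, nsmul_eq_mul]
  rw [← mul_sum]
  have e1 : w j₀ ≤ (c + k) * ε := by
    have : j₀ - (j₀ + 2) = 0 := by omega
    simp only [w, this, pow_zero, mul_one]
    have : (0 : ℝ) ≤ k * ε := by positivity
    split_ifs <;> linarith
  have e2 : ∑ l ∈ Ico j₀ K, w (l + 1) ≤ (c * (1 + (1 - β)⁻¹) + k) * ε := by
    simp only [w]
    rw [sum_add_distrib, ← mul_sum]
    have e3 := mul_le_mul_of_nonneg_left (geom_bound hβ0 hβ1 j₀ K) (mul_nonneg hc hε)
    have e4 : ∑ l ∈ Ico j₀ K, (if l + 1 = K then k * ε else 0) ≤ k * ε := by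
      rw [← sum_filter, sum_const, nsmul_eq_mul]
      apply mul_le_of_le_one_left (by positivity)
      have : ((Ico j₀ K).filter fun l => l + 1 = K).card ≤ 1 := by
        rw [card_le_one]
        intro x hx y hy
        have := (mem_filter.1 hx).2
        have := (mem_filter.1 hy).2
        omega
      exact_mod_cast this
    linarith
  have e5 := mul_le_mul_of_nonneg_left e1 (show (0 : ℝ) ≤ k by positivity)
  have e6 := mul_le_mul_of_nonneg_left e2 (show (0 : ℝ) ≤ 3 * k ^ 2 by positivity)
  push_cast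
  nlinarith

end Pool.Agent.Lib.MP_3eff7f_gt
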