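import Pool.Agent.Lib.MP_3eff7f_gt.Squares
import Pool.Agent.Lib.MP_3eff7f_gt.SegCost

set_option autoImplicit false

open Set Filter Topology Metric

namespace Pool.Agent.Lib.MP_3eff7f_gt

theorem exists_lip_ext {V : Type*} [Nonempty V] {S : Set V} {h p : V → ℝ} {L : ℝ} (hL : 0 ≤ L)
    (hp : ∀ x ∈ S, ∀ y ∈ S, |p x - p y| ≤ L * |h x - h y|) :
    ∃ A : ℝ → ℝ, Continuous A ∧ (∀ s t, |A s - A t| ≤ L * |s - t|) ∧ ∀ x ∈ S, A (h x) = p x := by
  have hm : ∀ x ∈ S, Function.invFunOn h S (h x) ∈ S ∧ h (Function.invFunOn h S (h x)) = h x :=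
    fun x hx => ⟨Function.invFunOn_mem ⟨x, hx, rfl⟩, Function.invFunOn_eq ⟨x, hx, rfl⟩⟩
  have h1 : LipschitzOnWith ⟨L, hL⟩ (fun s => p (Function.invFunOn h S s)) (h '' S) := by
    apply LipschitzOnWith.of_dist_le_mul
    rintro _ ⟨x, hx, rfl⟩ _ ⟨y, hy, rfl⟩
    have := hp _ (hm x hx).1 _ (hm y hy).1
    rwa [(hm x hx).2, (hm y hy).2] at this
  obtain ⟨A, hA, he⟩ := h1.extend_real
  refine ⟨A, hA.continuous, fun s t => hA.dist_le_mul s t, fun x hx => ?_⟩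
  rw [← he ⟨x, hx, rfl⟩]
  have := hp _ (hm x hx).1 x hx
  rw [(hm x hx).2, sub_self, abs_zero, mul_zero] at this
  exact sub_eq_zero.1 (abs_nonpos_iff.1 this)

theorem win_pow (a lam : ℝ) (l N d : ℕ) : win a lam (l + d) (3 ^ d * N) = win a lam l N := by
  induction d with
  | zero => simp
  | succ d ih => rw [pow_succ', mul_assoc, ← add_assoc, win_three, ih]

/-- The second direction. -/
def dirW (k : ℕ) : Fin (k + 2) → ℤ := Fin.cons 1 (Fin.cons 3 fun _ => 2)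

theorem exists_axis {k : ℕ} (j : Fin k) {a : Fin (k + 2) → ℝ} {lam μ : ℝ} (hμ0 : 0 < μ)
    (ha : ∀ s, SP (a s) lam) (hlam : 4 * (k + 2) ^ 2 * lam ≤ μ)
    (hμ : ∀ c : Fin (k + 2) → ℤ, c ≠ 0 → (∀ s, |c s| ≤ (2 * k + 5 : ℕ) + 1) →
      μ ≤ |∑ s, c s * a s|) (K : ℕ) :
    ∃ A₁ A₂ : (Fin (k + 2) → ℝ) → ℝ, Continuous A₁ ∧ Continuous A₂ ∧
      (∀ x b c, A₁ (fun m => x m + b + c * dirW k m) = A₁ x ∧
        A₂ (fun m => x m + b + c * dirW k m) = A₂ x) ∧
      ∀ l ≤ K, ∀ (u : Fin (k + 2) → ℝ) (N : Fin (k + 2) → ℕ), (∀ m, N m < 3 ^ l ∧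
        u m ∈ Icc (win (a m) lam l (N m)) (win (a m) lam l (N m) + lam ^ l)) →
        |(3 * u 0 - u 1) / 2 - A₁ u| ≤ (2 + 8 / μ * (k + 2) ^ 2) * lam ^ l ∧
        |(u 1 - u 0) / 2 - A₂ u| ≤ (2 + 8 / μ * (k + 2) ^ 2) * lam ^ l := by
  let g : Fin (k + 2) → ℤ := fun s => 1 - if s = j.succ.succ then (k + 2 : ℤ) else 0
  have hg1 : ∀ s, g s ≠ 0 ∧ |g s| ≤ k + 2 := by
    intro s
    simp only [g, abs_le]
    split_ifs <;> omega
  have hg2 : ∑ s, |(g s : ℝ)| ≤ (k + 2) ^ 2 := by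
    calc ∑ s, |(g s : ℝ)| ≤ ∑ _s : Fin (k + 2), ((k : ℝ) + 2) :=
          Finset.sum_le_sum fun s _ => by exact_mod_cast (hg1 s).2
      _ = _ := by simp; ring
  let h : (Fin (k + 2) → ℝ) → ℝ := fun u => ∑ s, g s * u s
  have hh : ∀ u, h u = ∑ s, u s - (k + 2) * u j.succ.succ := by
    intro u
    simp [h, g, sub_mul, Finset.sum_sub_distrib, ite_mul]
  have hinv : ∀ x b c, h (fun m => x m + b + c * dirW k m) = h x := by
    intro x b c
    simp only [hh, Finset.sum_add_distrib, ← Finset.mul_sum]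
    simp [dirW, Fin.sum_univ_succ]
    ring
  have hsub : ∀ x y, h x - h y = ∑ s, g s * (x s - y s) := fun x y => by
    simp [h, mul_sub]
  have h0 := (ha 0).pos
  let S : Set (Fin (k + 2) → ℝ) :=
    {x | ∃ N : Fin (k + 2) → ℕ, (∀ m, N m < 3 ^ K) ∧ x = fun m => win (a m) lam K (N m)}
  have hS : ∀ x ∈ S, ∀ y ∈ S, ∀ s, |x s - y s| ≤ 4 / μ * |h x - h y| := by
    rintro _ ⟨N, hN, rfl⟩ _ ⟨N', hN', rfl⟩ s
    by_cases e : N = N'
    · simp [e]
    · have := win_generic (g := fun s => (g s : ℝ)) ha hg2 hlam (fun d hd hd2 => by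
        have := hμ (fun s => g s * d s) (fun h => hd (funext fun s =>
          (mul_eq_zero.1 (congrFun h s)).resolve_left (hg1 s).1)) (fun s => by
            rw [abs_mul]
            have := mul_le_mul (hg1 s).2 (hd2 s) (abs_nonneg _) (by positivity)
            push_cast
            linarith)
        simpa using this) hN hN' e s
      rw [hsub, div_mul_eq_mul_div, le_div_iff₀ hμ0]
      have e1 : 0 < lam ^ K := by positivity
      nlinarith [mul_pos hμ0 e1, mul_pos (show (0 : ℝ) < (k + 2) ^ 2 by positivity) e1]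
  have hL : 0 ≤ 8 / μ := by positivity
  have h84 : 8 / μ = 2 * (4 / μ) := by ring
  obtain ⟨A₁, c1, l1, e1⟩ := exists_lip_ext (S := S) (h := h)
    (p := fun u => (3 * u 0 - u 1) / 2) hL fun x hx y hy => by
      have a0 := abs_le.1 (hS x hx y hy 0)
      have a1 := abs_le.1 (hS x hx y hy 1)
      rw [h84, abs_le]
      constructor <;> linarith
  obtain ⟨A₂, c2, l2, e2⟩ := exists_lip_ext (S := S) (h := h)
    (p := fun u => (u 1 - u 0) / 2) hL fun x hx y hy => by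
      have a0 := abs_le.1 (hS x hx y hy 0)
      have a1 := abs_le.1 (hS x hx y hy 1)
      rw [h84, abs_le]
      constructor <;> linarith
  have hc : Continuous h := by fun_prop
  refine ⟨A₁ ∘ h, A₂ ∘ h, c1.comp hc, c2.comp hc,
    fun x b c => by simp only [Function.comp, hinv, and_self], fun l hl u N hN => ?_⟩
  have hx : (fun m => win (a m) lam l (N m)) ∈ S := by
    obtain ⟨d, rfl⟩ := Nat.exists_eq_add_of_le hl
    refine ⟨fun m => 3 ^ d * N m, fun m => ?_, funext fun m => (win_pow _ _ _ _ _).symm⟩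
    show 3 ^ d * N m < _
    rw [pow_add, mul_comm (3 ^ l)]
    have := (hN m).1
    gcongr
  have hl0 : 0 < lam ^ l := by positivity
  have b1 : |h (fun m => win (a m) lam l (N m)) - h u| ≤ (k + 2) ^ 2 * lam ^ l := by
    rw [hsub]
    refine (Finset.abs_sum_le_sum_abs _ _).trans ?_
    refine le_trans ?_ (mul_le_mul_of_nonneg_right hg2 hl0.le)
    rw [Finset.sum_mul]
    apply Finset.sum_le_sum
    intro s _
    rw [abs_mul]
    apply mul_le_mul_of_nonneg_left _ (abs_nonneg _)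
    rw [abs_le]
    constructor <;> linarith [(hN s).2.1, (hN s).2.2]
  have b2 := mul_le_mul_of_nonneg_left b1 hL
  have a1 := abs_le.1 ((l1 _ _).trans b2)
  have a2 := abs_le.1 ((l2 _ _).trans b2)
  rw [e1 _ hx] at a1
  rw [e2 _ hx] at a2
  have u0 := (hN 0).2
  have u1 := (hN 1).2
  simp only [Function.comp, abs_le]
  refine ⟨⟨?_, ?_⟩, ?_, ?_⟩ <;> linarith [u0.1, u0.2, u1.1, u1.2, a1.1, a1.2, a2.1, a2.2]

universe u

/-- The discrete form of the main estimate in dimension `k`. -/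
def CoreBound (k n : ℕ) (C : ℝ) : Prop :=
  ∀ (X : Type u) [MetricSpace X] [CompactSpace X] (r : ℝ), GeoData X r →
    ∀ (K : ℕ) (F : (Fin k → ℝ) → X) (p₀ : X) (ρ : (Fin k → ℕ) → ℝ) (ε : ℝ), Continuous F →
      (∀ x, (∃ i, x i ≤ 0 ∨ 2 ^ K ≤ x i) → F x = p₀) → (∀ b, 0 ≤ ρ b) → CellLip K F ρ → 0 ≤ ε →
      ((2 : ℝ) ^ K) ^ (n - k) * ∑ a ∈ cells k K, ρ a ^ n ≤ ε ^ n →
      ¬ HasShortGeodesic X (C * ε) → Null F

theorem CoreBound.mono {k n : ℕ} {C C' : ℝ} (h : CoreBound.{u} k n C) (hC : C ≤ C') :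
    CoreBound.{u} k n C' := fun X _ _ r G K F p₀ ρ ε h1 h2 h3 h4 h5 h6 h7 =>
  h X r G K F p₀ ρ ε h1 h2 h3 h4 h5 h6 fun h8 => h7 (h8.mono (by gcongr))

theorem core_two {k n : ℕ} (hkn : k + 2 ≤ n) (hn : 3 ≤ n) :
    CoreBound.{u} (k + 2) n (420 * (k + 2 : ℕ) ^ 3 * n) := by
  have hgrid := grid (k := k + 2) (n := n) (by omega) hkn
  have hnR : (3 : ℝ) ≤ n := by exact_mod_cast hn
  have hkR : (1 : ℝ) ≤ (k + 2 : ℕ) := by exact_mod_cast (show 1 ≤ k + 2 by omega)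
  set c : ℝ := 10 * (k + 2 : ℕ) with hcd
  set β : ℝ := 1 - 1 / (3 * n) with hβd
  have hc : 1 ≤ c := by linarith
  have hβ' : (1 - β)⁻¹ = 3 * n := by rw [hβd]; simp
  have hβ0 : 0 ≤ β := by
    rw [hβd, sub_nonneg, div_le_one (by linarith)]
    linarith
  have hβ1 : β < 1 := by
    rw [hβd, sub_lt_self_iff]
    positivity
  have hβ : 0 < (1 - β)⁻¹ := inv_pos.2 (by linarith)
  set C₁ : ℝ := ((k + 2 : ℕ) * (c + (k + 2 : ℕ)) +
    3 * (k + 2 : ℕ) ^ 2 * (c * (1 + (1 - β)⁻¹) + (k + 2 : ℕ))) with hC₁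
  have hC₁0 : 0 < C₁ := by positivity
  refine CoreBound.mono (C := 4 * C₁) ?_ (by
    rw [hC₁, hβ', hcd]
    generalize ((k + 2 : ℕ) : ℝ) = x at hkR
    have h1 : 0 ≤ x ^ 2 * (x - 1) := by nlinarith
    have h2 : 0 ≤ x ^ 3 * (n - 3) := mul_nonneg (by positivity) (by linarith)
    nlinarith)
  clear_value c β
  intro X _ _ r G K F p₀ ρ ε hFc hF hρ hL hε hE hno
  obtain ⟨o, ho, hg⟩ := hgrid K ρ ε hρ hε hE
  have hρε : ∀ b ∈ cells (k + 2) K, ρ b ≤ ε := by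
    intro b hb
    apply le_of_pow_le_pow_left₀ (show n ≠ 0 by omega) hε
    have e1 : ρ b ^ n ≤ ∑ a ∈ cells (k + 2) K, ρ a ^ n :=
      Finset.single_le_sum (f := fun a => ρ a ^ n) (fun a _ => pow_nonneg (hρ a) n) hb
    have e2 : (1 : ℝ) ≤ (2 ^ K) ^ (n - (k + 2)) := one_le_pow₀ (one_le_pow₀ one_le_two)
    exact e1.trans ((le_mul_of_one_le_left ((pow_nonneg (hρ b) n).trans e1) e2).trans hE)
  obtain ⟨a, μ, hμ0, ha0, hμ⟩ := exists_generic_scales (k + 2) (2 * k + 5)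
  obtain ⟨lam, h0, h1, h2, h3, h4, h5⟩ : ∃ lam : ℝ, 0 < lam ∧ (∀ s, 8 * lam ≤ a s) ∧
      1 * lam ≤ 1 / 3 ∧ 24 * lam ≤ μ ∧ 4 * (k + 2) ^ 2 * lam ≤ μ ∧
      (2 + 8 / μ * (k + 2) ^ 2) * lam ≤ 1 := by
    have key : ∀ A b : ℝ, 0 < b → ∀ᶠ lam in 𝓝[>] (0 : ℝ), A * lam ≤ b := by
      intro A b hb
      have hc : ContinuousAt (fun t : ℝ => A * t) 0 := by fun_prop
      have := hc.eventually_lt (continuousAt_const (y := b)) (by simpa using hb)
      exact (this.filter_mono nhdsWithin_le_nhds).mono fun _ h => h.le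
    exact ((eventually_mem_nhdsWithin (a := (0 : ℝ)) (s := Ioi 0)).and
      ((eventually_all.2 fun s => key 8 _ (ha0 s).1).and ((key 1 _ (by norm_num)).and
      ((key 24 _ hμ0).and ((key _ _ hμ0).and (key _ _ one_pos)))))).exists
  have ha : ∀ s, SP (a s) lam := fun s => ⟨h0, h1 s, by linarith [(ha0 s).2]⟩
  obtain ⟨A₁, A₂, c1, c2, hinv, hax⟩ : ∃ A₁ A₂ : (Fin (k + 2) → ℝ) → ℝ,
      Continuous A₁ ∧ Continuous A₂ ∧
      (∀ x b c, A₁ (fun m => x m + b + c * dirW k m) = A₁ x ∧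
        A₂ (fun m => x m + b + c * dirW k m) = A₂ x) ∧ (k + 2 < n ∨
      ∀ l ≤ K, ∀ (u : Fin (k + 2) → ℝ) (N : Fin (k + 2) → ℕ), (∀ m, N m < 3 ^ l ∧
        u m ∈ Icc (win (a m) lam l (N m)) (win (a m) lam l (N m) + lam ^ l)) →
        |(3 * u 0 - u 1) / 2 - A₁ u| ≤ (2 + 8 / μ * (k + 2) ^ 2) * lam ^ l ∧
        |(u 1 - u 0) / 2 - A₂ u| ≤ (2 + 8 / μ * (k + 2) ^ 2) * lam ^ l) := by
    by_cases hk : k + 2 < n
    · exact ⟨0, 0, continuous_const, continuous_const, fun _ _ _ => ⟨rfl, rfl⟩, Or.inl hk⟩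
    · obtain ⟨A₁, A₂, c1, c2, hinv, hax⟩ := exists_axis ⟨0, by omega⟩ hμ0 ha h4 hμ K
      exact ⟨A₁, A₂, c1, c2, hinv, Or.inr hax⟩
  let f : (Fin (k + 2) → ℝ) → Fin (k + 2) → ℝ :=
    fun u m => stair K (fun l => o l m) (a m) lam (u m)
  have hfc : Continuous f :=
    continuous_pi fun m => continuous_stair.comp (continuous_apply m)
  let ι : (Fin k → ℝ) → Fin (k + 2) → ℝ := fun y => Fin.cons 0 (Fin.cons 0 y)
  have hιc : Continuous ι := by
    refine continuous_pi fun m => ?_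
    refine Fin.cases ?_ (fun m => Fin.cases ?_ (fun m => ?_) m) m
    · exact continuous_const
    · exact continuous_const
    · exact continuous_apply m
  let Φ : (Fin k → ℝ) × ℝ × ℝ → Fin (k + 2) → ℝ := fun z m =>
    ι z.1 m + (A₁ (ι z.1) + z.2.1) + (A₂ (ι z.1) + z.2.2) * dirW k m
  have hΦc : Continuous Φ := by fun_prop
  let Ψ : (Fin (k + 2) → ℝ) → (Fin k → ℝ) × ℝ × ℝ := fun u =>
    (fun j => u j.succ.succ - (3 * u 0 - u 1) / 2 - (u 1 - u 0),
      (3 * u 0 - u 1) / 2 - A₁ u, (u 1 - u 0) / 2 - A₂ u)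
  have hΨc : Continuous Ψ := by fun_prop
  have hΦ0 : ∀ z, Φ z 0 = (A₁ (ι z.1) + z.2.1) + (A₂ (ι z.1) + z.2.2) := fun z => by
    simp [Φ, ι, dirW]
  have hΦ1 : ∀ z, Φ z 1 = (A₁ (ι z.1) + z.2.1) + (A₂ (ι z.1) + z.2.2) * 3 := fun z => by
    simp [Φ, ι, dirW]
  have hΨΦ : ∀ z, Ψ (Φ z) = z := by
    intro z
    have e := hinv (ι z.1) (A₁ (ι z.1) + z.2.1) (A₂ (ι z.1) + z.2.2)
    have e1 : A₁ (Φ z) = A₁ (ι z.1) := e.1
    have e2 : A₂ (Φ z) = A₂ (ι z.1) := e.2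
    refine Prod.ext (funext fun j => ?_) (Prod.ext ?_ ?_)
    · simp only [Ψ, hΦ0, hΦ1]
      simp [Φ, ι, dirW]
      ring
    · simp only [Ψ, hΦ0, hΦ1, e1]
      ring
    · simp only [Ψ, hΦ0, hΦ1, e2]
      ring
  have hΦΨ : ∀ u, Φ (Ψ u) = u := by
    intro u
    have e0 : ι (Ψ u).1 = fun m => u m + -((3 * u 0 - u 1) / 2) + -((u 1 - u 0) / 2) * dirW k m := by
      funext m
      refine Fin.cases ?_ (fun m => Fin.cases ?_ (fun m => ?_) m) m
      · simp [ι, dirW]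
        ring
      · simp [ι, dirW]
        ring
      · simp [ι, dirW, Ψ]
        ring
    funext m
    simp only [Φ, e0, (hinv _ _ _).1, (hinv _ _ _).2]
    simp only [Ψ]
    ring
  have hG : ∀ u, (∃ i, u i ≤ 0 ∨ 1 ≤ u i) → F (f u) = p₀ := by
    rintro u ⟨i, hi⟩
    exact hF _ ⟨i, hi.imp (ha i).stair_of_nonpos (ha i).stair_of_one_le⟩
  have hout : ∀ u : Fin (k + 2) → ℝ, 1 ≤ ‖u‖ → ∃ i, u i ≤ 0 ∨ 1 ≤ u i := by
    intro u hu
    by_contra hcon
    push Not at hcon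
    refine absurd ((pi_norm_lt_iff one_pos).2 fun i => ?_) (not_lt.2 hu)
    rw [Real.norm_eq_abs, abs_lt]
    constructor <;> linarith [(hcon i).1, (hcon i).2]
  have hv1 : ∀ i : Fin (k + 2), (1 : ℤ) ≤ (fun _ => 1 : Fin (k + 2) → ℤ) i ∧
      (fun _ => 1 : Fin (k + 2) → ℤ) i ≤ 3 := fun _ => by simp
  have hw1 : ∀ i : Fin (k + 2), 1 ≤ dirW k i ∧ dirW k i ≤ 3 := fun m => by
    refine Fin.cases ?_ (fun m => Fin.cases ?_ (fun m => ?_) m) m <;> simp [dirW]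
  have hside : ∀ (v : Fin (k + 2) → ℤ) (u : Fin (k + 2) → ℝ) (R : ℝ) (z : ℝ → (Fin k → ℝ) × ℝ × ℝ),
      (∀ i, 1 ≤ v i ∧ v i ≤ 3) → (∀ t, Φ (z t) = fun m => u m + t * v m) →
      (∀ t, |(z t).2.1| = R ∨ |(z t).2.2| = R) → Clk (fun t => F (f (Φ (z t)))) (-R) R (C₁ * ε) := by
    intro v u R z hv hz hR
    simp only [hz]
    obtain ⟨j, hj1, hj2, hj3⟩ : ∃ j ≤ K, (j = 0 ∨ R ≤ lam ^ j) ∧
        (j + 1 ≤ K → ¬ R ≤ lam ^ (j + 1)) := by
      refine ⟨Nat.findGreatest (fun j => R ≤ lam ^ j) K, Nat.findGreatest_le K, ?_, fun h =>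
        Nat.findGreatest_is_greatest (P := fun j => R ≤ lam ^ j) (Nat.lt_succ_self _) h⟩
      by_cases h : Nat.findGreatest (fun j => R ≤ lam ^ j) K = 0
      · exact Or.inl h
      · exact Or.inr (Nat.findGreatest_of_ne_zero (P := fun j => R ≤ lam ^ j) rfl h)
    refine seg_cost (n := n) (B := 2 * k + 5) (by omega) ha h3 hμ hF hρ hL (by linarith) hβ0 hβ1 hε
      hρε ho hg hv u hj1 (hj2.imp_right fun h => by linarith)
      (hax.imp_right fun hax hj t _ _ => ?_)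
    by_contra hcon
    push Not at hcon
    choose N hN using hcon
    have e2 := hax _ hj (Φ (z t)) N (by rw [hz]; exact hN)
    have e3 : (Ψ (Φ (z t))).2 = (z t).2 := by rw [hΨΦ]
    have e4 : (3 * Φ (z t) 0 - Φ (z t) 1) / 2 - A₁ (Φ (z t)) = (z t).2.1 := congrArg Prod.fst e3
    have e5 : (Φ (z t) 1 - Φ (z t) 0) / 2 - A₂ (Φ (z t)) = (z t).2.2 := congrArg Prod.snd e3
    rw [e4, e5, pow_succ lam (_ + 1)] at e2
    have e6 := mul_le_mul_of_nonneg_left h5 (pow_pos h0 (j + 1)).le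
    apply hj3 (by omega)
    rcases hR t with h | h <;> linarith [e2.1, e2.2, h.ge]
  obtain ⟨R, hR⟩ := ((isCompact_closedBall (0 : Fin (k + 2) → ℝ) 1).image hΨc).isBounded.subset_ball 0
  have hN1 : Null (fun z => F (f (Φ z))) := by
    refine G.null_of_squares (ℓ := 4 * (C₁ * ε)) (by positivity) (by rwa [mul_assoc] at hno)
      (hFc.comp (hfc.comp hΦc)) (R := max R 1) (by positivity) (p₀ := p₀) (fun z hz => ?_)
      fun y R' hR' => ?_
    · apply hG _ (hout _ _)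
      by_contra hcon
      have := hR ⟨Φ z, mem_closedBall_zero_iff.2 (not_le.1 hcon).le, rfl⟩
      rw [hΨΦ, mem_ball_zero_iff] at this
      linarith [le_max_left R 1]
    · refine clk_square (f := fun s t => F (f (Φ (y, s, t)))) hR' (fun c hc => ?_) fun c hc => ?_
      · refine hside _ (Φ (y, 0, c)) R' (fun t => (y, t, c)) hv1 (fun t => funext fun m => ?_)
          fun _ => Or.inr hc
        simp only [Φ]
        push_cast
        ring
      · refine hside _ (Φ (y, c, 0)) R' (fun t => (y, c, t)) hw1 (fun t => funext fun m => ?_)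
          fun _ => Or.inl hc
        simp only [Φ]
        ring
  have hN2 : Null (fun u => F (f u)) := by
    have := hN1.comp hΨc fun R' => by
      obtain ⟨R'', hR''⟩ :=
        ((isCompact_closedBall (0 : (Fin k → ℝ) × ℝ × ℝ) R').image hΦc).isBounded.subset_ball 0
      refine ⟨R'', fun u hu => ?_⟩
      by_contra hcon
      have := hR'' ⟨Ψ u, mem_closedBall_zero_iff.2 (not_le.1 hcon).le, rfl⟩
      rw [hΦΨ, mem_ball_zero_iff] at this
      linarith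
    simpa only [Function.comp_def, hΦΨ] using this
  have hM : (0 : ℝ) < 2 ^ K := by positivity
  refine Null.of_smul hM (Null.of_htp (R := 1) ?_ hN2)
  refine ⟨fun τ u => F ((1 - τ) • (2 ^ K : ℝ) • u + τ • f u), hFc.comp (by fun_prop),
    by simp, by simp, fun τ hτ => ?_⟩
  have : ∀ u : Fin (k + 2) → ℝ, 1 ≤ ‖u‖ → F ((1 - τ) • (2 ^ K : ℝ) • u + τ • f u) = p₀ := by
    intro u hu
    obtain ⟨i, hi⟩ := hout u hu
    refine hF _ ⟨i, hi.imp (fun h => ?_) fun h => ?_⟩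
    · have e1 : f u i ≤ 0 := (ha i).stair_of_nonpos h
      simp only [Pi.add_apply, Pi.smul_apply, smul_eq_mul]
      have := mul_nonneg (sub_nonneg.2 hτ.2) (mul_nonneg hM.le (neg_nonneg.2 h))
      nlinarith [hτ.1]
    · have e1 : 2 ^ K ≤ f u i := (ha i).stair_of_one_le h
      simp only [Pi.add_apply, Pi.smul_apply, smul_eq_mul]
      have := mul_nonneg (sub_nonneg.2 hτ.2) (mul_nonneg hM.le (sub_nonneg.2 h))
      nlinarith [hτ.1]
  intro x y hx hy
  simp only [this x hx, this y hy]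

theorem core_one {n : ℕ} (hn : 1 ≤ n) : CoreBound.{u} 1 n 1 := by
  intro X _ _ r G K F p₀ ρ ε hFc hF hρ hL hε hE hno
  rw [one_mul] at hno
  have hM : (0 : ℝ) < 2 ^ K := by positivity
  have h1 := hL.line hρ (i := 0) (b := fun _ => 0) (fun m hm => absurd (Subsingleton.elim _ _) hm)
    (Nat.zero_le _) le_rfl
  have h2 : ∑ t ∈ Finset.Ico 0 (2 ^ K), ρ (Function.update (fun _ => 0) 0 t) ≤ ε := by
    apply le_of_pow_le_pow_left₀ (show n ≠ 0 by omega) hε
    obtain ⟨n, rfl⟩ := Nat.exists_eq_add_of_le' hn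
    refine (pow_sum_le_card_mul_sum_pow (fun t _ => hρ _) n).trans (le_trans (le_of_eq ?_) hE)
    simp only [Nat.card_Ico, Nat.sub_zero, Nat.cast_pow, Nat.cast_ofNat, Nat.add_sub_cancel]
    congr 1
    refine Finset.sum_bij (fun t _ => Function.update (fun _ => 0) 0 t) (fun t ht => ?_)
      (fun t _ t' _ h => by simpa using congrFun h 0) (fun b hb => ?_) fun _ _ => rfl
    · rw [cells, Fintype.mem_piFinset]
      intro m
      rw [Subsingleton.elim m 0]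
      simpa using ht
    · rw [cells, Fintype.mem_piFinset] at hb
      refine ⟨b 0, by simpa using hb 0, funext fun m => ?_⟩
      rw [Subsingleton.elim m 0]
      simp
  obtain ⟨g, hg⟩ := G.loop_contract hε hno (H := Unit)
    (Γ := fun z => F fun _ => 2 ^ K * z.2) (hFc.comp (by fun_prop)) (fun h t ht => by
      rw [hF _ ⟨0, ht.imp (fun h => by nlinarith) fun h => by nlinarith⟩,
        hF _ ⟨0, Or.inl (by simp)⟩]) fun h => by
      refine (((h1.mono h2).comp_mono (σ := fun t => 2 ^ K * t) zero_le_one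
        (fun s t _ h _ => by nlinarith) (by simp) (by simp)).congr fun t _ _ => ?_)
      congr 1
      funext m
      rw [Subsingleton.elim m 0]
      simp
  refine Null.of_smul hM ⟨1, g (), ?_⟩
  have := hg.comp (θ := fun x : Fin 1 → ℝ => ((), x 0)) (Q := CstOut 1) (by fun_prop)
    fun φ hφ x y hx hy => by
      have key : ∀ x : Fin 1 → ℝ, 1 ≤ ‖x‖ → x 0 ≤ 0 ∨ 1 ≤ x 0 := by
        intro x hx
        by_contra hcon
        push Not at hcon
        refine absurd ((pi_norm_lt_iff one_pos).2 fun i => ?_) (not_lt.2 hx)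
        rw [Subsingleton.elim i 0, Real.norm_eq_abs, abs_lt]
        constructor <;> linarith [hcon.1, hcon.2]
      simp only [Function.comp, hφ.1 _ _ (key x hx), hφ.1 _ _ (key y hy)]
  refine Eq.mp ?_ this
  congr 1
  funext x
  simp only [Function.comp]
  congr 1
  funext m
  rw [Subsingleton.elim m 0]
  simp

theorem core {k n : ℕ} (hk : 1 ≤ k) (hkn : k ≤ n) (hn : 3 ≤ n) :
    CoreBound.{u} k n (420 * k ^ 3 * n) := by
  rcases hk.eq_or_lt with rfl | hk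
  · refine (core_one hkn).mono ?_
    have : (3 : ℝ) ≤ n := by exact_mod_cast hn
    norm_num
    linarith
  · obtain ⟨k, rfl⟩ := Nat.exists_eq_add_of_le' (show 2 ≤ k from hk)
    exact core_two hkn hn

end Pool.Agent.Lib.MP_3eff7f_gt
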