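import Pool.Agent.Lib.MP_3eff7f_gt.Family
import Pool.Agent.Lib.helper13.Degree

set_option autoImplicit false

open Set Filter Topology Manifold Module
open scoped ContDiff ENNReal

namespace Pool.Agent.Lib.MP_3eff7f_gt

variable {E : Type*} [NormedAddCommGroup E] [NormedSpace ℝ E] [FiniteDimensional ℝ E]
  {M : Type*} [MetricSpace M] [CompactSpace M] [ChartedSpace E M] [IsManifold 𝓘(ℝ, E) ∞ M]

theorem exists_generic {J : ℕ} {ρ : Fin J → M → ℝ}
    (hρ : ∀ j, ContMDiff 𝓘(ℝ, E) 𝓘(ℝ, ℝ) 1 (ρ j)) {η : ℝ} (hη : 0 < η) :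
    ∃ v : Fin J → ℝ, ‖v‖ < η ∧
      ∀ x t, (Finset.univ.filter fun j => ρ j x + v j = t).card ≤ finrank ℝ E + 1 := by
  classical
  by_cases hJ : J ≤ finrank ℝ E + 1
  · refine ⟨0, by simpa using hη, fun x t => (Finset.card_filter_le _ _).trans ?_⟩
    simpa using hJ
  obtain ⟨T, hT⟩ := isCompact_univ.elim_finite_subcover (fun q : M => (chartAt E q).source)
    (fun q => (chartAt E q).open_source) (fun x _ => mem_iUnion.2 ⟨x, mem_chart_source E x⟩)
  let Φ : (S : Finset (Fin J)) → M → E × ℝ × ({j // j ∉ S} → ℝ) → Fin J → ℝ :=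
    fun S q z j => if h : j ∈ S then z.2.1 - ρ j ((chartAt E q).symm z.1) else z.2.2 ⟨j, h⟩
  let B : {S : Finset (Fin J) // S.card = finrank ℝ E + 2} × T → Set (Fin J → ℝ) :=
    fun i => Φ i.1.1 i.2 '' ((chartAt E (i.2 : M)).target ×ˢ univ)
  have hB : ∀ i, dimH (B i) ≤ ((J - 1 : ℕ) : ℝ≥0∞) := by
    rintro ⟨⟨S, hS⟩, q⟩
    refine (dimH_image_le_of_locally_lipschitzOn ?_).trans ?_
    · intro z hz
      have hc : ContDiffAt ℝ 1 (Φ S q) z := by
        rw [contDiffAt_pi]
        intro j
        by_cases h : j ∈ S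
        · simp only [Φ, h, dif_pos]
          have h1 : ContDiffOn ℝ 1 (ρ j ∘ (chartAt E (q : M)).symm) (chartAt E (q : M)).target :=
            ((hρ j).comp_contMDiffOn
              (contMDiffOn_chart_symm (I := 𝓘(ℝ, E)) (n := 1) (x := (q : M)))).contDiffOn
          have h2 := (h1.contDiffAt ((chartAt E (q : M)).open_target.mem_nhds hz.1)).comp z
            contDiffAt_fst
          exact contDiffAt_snd.fst.sub h2
        · simp only [Φ, h, dif_neg, not_false_eq_true]
          fun_prop
      obtain ⟨C, t, ht, hl⟩ := hc.exists_lipschitzOnWith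
      exact ⟨C, t, mem_nhdsWithin_of_mem_nhds ht, hl⟩
    · refine (dimH_mono (subset_univ _)).trans ?_
      rw [Real.dimH_univ_eq_finrank]
      have h1 : Fintype.card {j // j ∉ S} = J - S.card := by
        rw [Fintype.card_subtype_compl]
        simp
      simp only [finrank_prod, finrank_self, finrank_fintype_fun_eq_card, h1, hS]
      have : finrank ℝ E + (1 + (J - (finrank ℝ E + 2))) ≤ J - 1 := by omega
      exact_mod_cast this
  have hdense : Dense (⋃ i, B i)ᶜ := by
    apply dense_compl_of_dimH_lt_finrank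
    rw [dimH_iUnion]
    refine (iSup_le hB).trans_lt ?_
    rw [finrank_fintype_fun_eq_card, Fintype.card_fin]
    have : J - 1 < J := by omega
    exact_mod_cast this
  obtain ⟨v, hv1, hv2⟩ := hdense.inter_open_nonempty _ Metric.isOpen_ball
    ⟨0, Metric.mem_ball_self hη⟩
  refine ⟨v, mem_ball_zero_iff.1 hv1, fun x t => ?_⟩
  by_contra hcon
  obtain ⟨S, hS1, hS2⟩ := Finset.exists_subset_card_eq (s := Finset.univ.filter
    fun j => ρ j x + v j = t) (n := finrank ℝ E + 2) (by omega)
  obtain ⟨q, hq, hx⟩ := mem_iUnion₂.1 (hT (mem_univ x))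
  refine hv2 (mem_iUnion.2 ⟨(⟨S, hS2⟩, ⟨q, hq⟩), (chartAt E q x, t, fun j => v j),
    ⟨(chartAt E q).map_source hx, mem_univ _⟩, ?_⟩)
  funext j
  by_cases h : j ∈ S
  · have := (Finset.mem_filter.1 (hS1 h)).2
    simp only [Φ, h, dif_pos, (chartAt E q).left_inv hx]
    linarith
  · simp only [Φ, h, dif_neg, not_false_eq_true]

variable (E M) in
theorem smallCover : SmallCover M (finrank ℝ E + 1) := by
  classical
  intro δ hδ
  obtain ⟨J, q, ρ, hρ, hρ0, hρ1, hρU⟩ := helper13.exists_fin_partition E
    (fun q : M => Metric.ball q δ) (fun _ => Metric.isOpen_ball) (fun _ => Metric.mem_ball_self hδ)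
  rcases isEmpty_or_nonempty M with hM | ⟨⟨x₀⟩⟩
  · exact ⟨Fin J, inferInstance, q, ρ, ρ, fun j => (hρ j).continuous, fun j => (hρ j).continuous,
      hρ0, fun _ x => hM.elim x, fun _ x => hM.elim x, hρ1, fun x => hM.elim x⟩
  have hJ : 0 < J := by
    rcases Nat.eq_zero_or_pos J with rfl | h
    · simpa using hρ1 x₀
    · exact h
  have hJ' : (0 : ℝ) < J := by exact_mod_cast hJ
  have hne : (Finset.univ : Finset (Fin J)).Nonempty := ⟨⟨0, hJ⟩, Finset.mem_univ _⟩
  obtain ⟨v, hv, hgen⟩ := exists_generic (E := E) (fun j => (hρ j).of_le (by simp))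
    (η := 1 / (4 * J)) (by positivity)
  have hvj : ∀ j, |v j| < 1 / (4 * J) := fun j => lt_of_le_of_lt (norm_le_pi_norm v j) hv
  let a : Fin J → M → ℝ := fun j x => ρ j x + v j
  have ha : ∀ j, Continuous (a j) := fun j => (hρ j).continuous.add continuous_const
  let m : M → ℝ := fun x => Finset.univ.sup' hne fun j => a j x
  have hm : Continuous m := Continuous.finset_sup'_apply hne fun j _ => ha j
  have ham : ∀ j x, a j x ≤ m x := fun j x =>
    Finset.le_sup' (fun j => a j x) (Finset.mem_univ j)
  have hmax : ∀ x, ∃ j, m x = a j x := fun x => by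
    obtain ⟨j, -, hj⟩ := Finset.exists_mem_eq_sup' hne fun j => a j x
    exact ⟨j, hj⟩
  have hmlow : ∀ x, 3 / (4 * J) < m x := by
    intro x
    obtain ⟨j, -, hj⟩ := Finset.exists_le_of_sum_le hne (f := fun _ => (1 / J : ℝ))
      (g := fun j => ρ j x) (by
        rw [hρ1]
        simp only [Finset.sum_const, Finset.card_univ, Fintype.card_fin, nsmul_eq_mul]
        apply le_of_eq
        field_simp)
    have h1 := ham j x
    have h2 := (abs_lt.1 (hvj j)).1
    have h3 : (3 : ℝ) / (4 * J) = 1 / J - 1 / (4 * J) := by field_simp; ring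
    simp only [a] at h1
    linarith
  have hev : ∀ᶠ τ in 𝓝 (0 : ℝ), ∀ x ∈ (univ : Set M),
      (Finset.univ.filter fun j => m x - τ < a j x).card ≤ finrank ℝ E + 1 := by
    apply isCompact_univ.eventually_forall_of_forall_eventually
    intro y _
    have : ∀ᶠ z : ℝ × M in 𝓝 (0, y), ∀ j, a j y ≠ m y → a j z.2 < m z.2 - z.1 := by
      rw [eventually_all]
      intro j
      by_cases h : a j y = m y
      · simp [h]
      · have h1 : a j y < m y - 0 := by simpa using lt_of_le_of_ne (ham j y) h
        have := ContinuousAt.eventually_lt (f := fun z : ℝ × M => a j z.2)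
          (g := fun z : ℝ × M => m z.2 - z.1) (x₀ := (0, y))
          ((ha j).comp continuous_snd).continuousAt
          ((hm.comp continuous_snd).sub continuous_fst).continuousAt h1
        exact this.mono fun z hz _ => hz
    filter_upwards [this] with z hz
    refine (Finset.card_le_card ?_).trans (hgen y (m y))
    intro j hj
    rw [Finset.mem_filter] at hj ⊢
    refine ⟨hj.1, ?_⟩
    by_contra h
    exact lt_asymm hj.2 (hz j h)
  have hev2 : ∀ᶠ τ : ℝ in 𝓝 0, τ < 1 / (4 * (J : ℝ)) := eventually_lt_nhds (by positivity)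
  obtain ⟨τ, ⟨hτ1, hτ2⟩, hτ0⟩ := (((hev.and hev2).filter_mono nhdsWithin_le_nhds).and
    (self_mem_nhdsWithin (s := Ioi (0 : ℝ)))).exists
  replace hτ0 : 0 < τ := hτ0
  let h : Fin J → M → ℝ := fun j x => a j x - m x + τ
  have hh : ∀ j, Continuous (h j) := fun j => ((ha j).sub hm).add continuous_const
  let k : Fin J → M → ℝ := fun j x => max (h j x - τ / 2) 0
  have hk : ∀ j, Continuous (k j) := fun j => ((hh j).sub continuous_const).max continuous_const
  have hks : ∀ x, 0 < ∑ j, k j x := by
    intro x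
    obtain ⟨j, hj⟩ := hmax x
    refine Finset.sum_pos' (fun j _ => le_max_right _ _) ⟨j, Finset.mem_univ _, ?_⟩
    simp only [k, h, hj]
    exact lt_max_of_lt_left (by linarith)
  refine ⟨Fin J, inferInstance, q, fun j x => min 1 (max (2 * h j x / τ) 0),
    fun j x => k j x / ∑ i, k i x, fun j => ?_, fun j => ?_, fun j x => ?_, fun j x hx => ?_,
    fun j x hx => ?_, fun x => ?_, fun x => ?_⟩
  · exact continuous_const.min (((continuous_const.mul (hh j)).div_const τ).max continuous_const)
  · exact (hk j).div (continuous_finsetSum _ fun i _ => hk i) fun x => (hks x).ne'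
  · exact le_min zero_le_one (le_max_right _ _)
  · have h1 : k j x ≠ 0 := fun h0 => hx (by simp [h0])
    have h2 : τ / 2 < h j x := by
      by_contra hcon
      exact h1 (max_eq_right (by linarith))
    apply min_eq_left
    apply le_max_of_le_left
    rw [le_div_iff₀ hτ0]
    linarith
  · have h1 : 0 < h j x := by
      by_contra hcon
      apply hx
      have : 2 * h j x / τ ≤ 0 := div_nonpos_of_nonpos_of_nonneg (by linarith) hτ0.le
      simp [max_eq_right this]
    have h2 : ρ j x ≠ 0 := by
      have h3 := hmlow x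
      have h4 := (abs_lt.1 (hvj j)).2
      have h5 : (3 : ℝ) / (4 * J) = 3 * (1 / (4 * J)) := by ring
      have h6 : (0 : ℝ) < 1 / (4 * J) := by positivity
      simp only [h, a] at h1
      linarith
    exact hρU j (subset_tsupport _ h2)
  · rw [← Finset.sum_div, div_self (hks x).ne']
  · have h1 := hτ1 x (mem_univ x)
    calc ∑ j, min 1 (max (2 * h j x / τ) 0)
        ≤ ∑ j, if m x - τ < a j x then (1 : ℝ) else 0 := by
          refine Finset.sum_le_sum fun j _ => ?_
          split_ifs with hj
          · exact min_le_left _ _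
          · refine (min_le_right _ _).trans (max_le ?_ le_rfl)
            apply div_nonpos_of_nonpos_of_nonneg _ hτ0.le
            simp only [h]
            linarith
      _ = (Finset.univ.filter fun j => m x - τ < a j x).card := by
          rw [Finset.sum_boole]
      _ ≤ finrank ℝ E + 1 := by exact_mod_cast h1

end Pool.Agent.Lib.MP_3eff7f_gt
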