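import Pool.Agent.Lib.MP_3eff7f_gt.Core
import Pool.Agent.Lib.MP_3eff7f_gt.BiChart

set_option autoImplicit false

open Set Filter Topology Metric MeasureTheory

namespace Pool.Agent.Lib.MP_3eff7f_gt

universe u

/-- The corner of a cell of the subdivision of the cube of radius `R`. -/
noncomputable def cnr {k : ℕ} (R : ℝ) (K : ℕ) (b : Fin k → ℕ) : Fin k → ℝ :=
  fun i => 2 * R / 2 ^ K * b i - R

theorem cnr_mem {k K : ℕ} {R : ℝ} (hR : 0 < R) {b : Fin k → ℕ} (hb : b ∈ cells k K) (i : Fin k) :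
    -R ≤ cnr R K b i ∧ cnr R K b i + 2 * R / 2 ^ K ≤ R := by
  have h1 : (b i : ℝ) + 1 ≤ 2 ^ K := by
    have := Finset.mem_range.1 (Fintype.mem_piFinset.1 hb i)
    exact_mod_cast this
  have h2 : 2 * R / 2 ^ K * 2 ^ K = 2 * R := by field_simp
  have h3 : 0 < 2 * R / 2 ^ K := by positivity
  have h4 : (0 : ℝ) ≤ b i := by positivity
  simp only [cnr]
  constructor <;> nlinarith

variable {X : Type u} [MetricSpace X] [CompactSpace X] {r : ℝ}

theorem CoreBound.null_of_cells {k n : ℕ} {C : ℝ} (hC : CoreBound.{u} k n C) (G : GeoData X r)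
    {F : (Fin k → ℝ) → X} (hF : Continuous F) {R : ℝ} (hR : 0 < R) {p₀ : X}
    (hout : ∀ x, R ≤ ‖x‖ → F x = p₀) (K : ℕ) {σ : (Fin k → ℕ) → ℝ} (hσ : ∀ b, 0 ≤ σ b)
    (hlip : ∀ b ∈ cells k K, ∀ x y, ‖x‖ ≤ R → ‖y‖ ≤ R → ‖x - cnr R K b‖ ≤ 2 * R / 2 ^ K →
      ‖y - cnr R K b‖ ≤ 2 * R / 2 ^ K → dist (F x) (F y) ≤ σ b * ‖x - y‖) {ε : ℝ} (hε : 0 ≤ ε)
    (hE : ((2 : ℝ) ^ K) ^ (n - k) * ∑ b ∈ cells k K, (2 * R / 2 ^ K * σ b) ^ n ≤ ε ^ n)
    (hno : ¬ HasShortGeodesic X (C * ε)) : Null F := by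
  set h := 2 * R / 2 ^ K with hh
  have h0 : 0 < h := by positivity
  have h2 : h * 2 ^ K = 2 * R := by rw [hh]; field_simp
  let θ : (Fin k → ℝ) → Fin k → ℝ := fun x i => h * x i - R
  have hθ : Continuous θ := by fun_prop
  have hN := hC X r G K (F ∘ θ) p₀ (fun b => h * σ b) ε (hF.comp hθ) (by
      rintro x ⟨i, hi⟩
      refine hout _ (le_trans ?_ (norm_le_pi_norm _ i))
      rw [Real.norm_eq_abs, le_abs]
      simp only [θ]
      rcases hi with hi | hi
      · right
        nlinarith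
      · left
        nlinarith) (fun b => mul_nonneg h0.le (hσ b)) (by
      intro b hb x x' hx hx'
      have key : ∀ x : Fin k → ℝ, (∀ m, (b m : ℝ) ≤ x m ∧ x m ≤ b m + 1) →
          ‖θ x‖ ≤ R ∧ ‖θ x - cnr R K b‖ ≤ h := by
        intro x hx
        rw [pi_norm_le_iff_of_nonneg hR.le, pi_norm_le_iff_of_nonneg h0.le]
        constructor <;> intro i <;> have := cnr_mem hR hb i <;>
          simp only [θ, cnr, Pi.sub_apply, Real.norm_eq_abs, abs_le, ← hh] at this ⊢ <;>
          constructor <;> nlinarith [(hx i).1, (hx i).2]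
      refine (hlip b hb _ _ (key x hx).1 (key x' hx').1 (key x hx).2 (key x' hx').2).trans_eq ?_
      have : θ x - θ x' = h • (x - x') := by
        funext i
        simp only [θ, Pi.sub_apply, Pi.smul_apply, smul_eq_mul]
        ring
      rw [this, norm_smul, Real.norm_eq_abs, abs_of_pos h0, dist_eq_norm]
      ring) hε hE hno
  have := hN.comp (θ := fun (y : Fin k → ℝ) i => (y i + R) / h) (by fun_prop) fun R' => ⟨h * |R'| + R, by
    intro y hy
    by_contra hcon
    refine absurd ((pi_norm_lt_iff (show 0 < h * |R'| + R by positivity)).2 fun i => ?_)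
      (not_lt.2 hy)
    have e1 := (norm_le_pi_norm (fun i => (y i + R) / h) i).trans_lt
      ((not_le.1 hcon).trans_le (le_abs_self _))
    rw [Real.norm_eq_abs, abs_div, abs_of_pos h0, div_lt_iff₀ h0, abs_lt] at e1
    rw [Real.norm_eq_abs, abs_lt]
    constructor <;> linarith [e1.1, e1.2]⟩
  refine Eq.mp (congrArg _ (funext fun y => ?_)) this
  simp only [Function.comp]
  congr 1
  funext i
  simp only [θ]
  field_simp
  ring

theorem exists_mesh {R δ : ℝ} (hδ : 0 < δ) : ∃ K : ℕ, 2 * R / 2 ^ K < δ := by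
  have ht : Tendsto (fun k : ℕ => 2 * R / 2 ^ k) atTop (𝓝 0) :=
    tendsto_const_nhds.div_atTop (tendsto_pow_atTop_atTop_of_one_lt one_lt_two)
  exact (ht.eventually (eventually_lt_nhds hδ)).exists

theorem CoreBound.null_of_energy {k : ℕ} {C : ℝ} (hC : CoreBound.{u} k k C) (hk : 1 ≤ k)
    (G : GeoData X r) {F : (Fin k → ℝ) → X} (hF : Continuous F) {R : ℝ} (hR : 0 < R) {p₀ : X}
    (hout : ∀ x, R ≤ ‖x‖ → F x = p₀) {e : (Fin k → ℝ) → ℝ} (he : Continuous e)
    (he0 : ∀ x, 0 ≤ e x)
    (hug : ∀ η > 0, ∃ δ > 0, ∀ x y, ‖x‖ ≤ R → ‖y‖ ≤ R → ‖x - y‖ ≤ δ →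
      dist (F x) (F y) ≤ (e x + η) * ‖x - y‖) {ε : ℝ} (hε : 0 < ε)
    (hE : ∫ x in closedBall 0 R, e x ^ k ≤ ε ^ k)
    (hno : ¬ HasShortGeodesic X (C * (2 * ε))) : Null F := by
  set η := ε / (6 * R) with hη
  have hη0 : 0 < η := by positivity
  obtain ⟨δ, hδ, hδ'⟩ := hug η hη0
  obtain ⟨δ₂, hδ₂, hu⟩ := Metric.uniformContinuousOn_iff.1
    ((isCompact_closedBall (0 : Fin k → ℝ) R).uniformContinuousOn_of_continuous he.continuousOn)
    η hη0
  obtain ⟨K, hK⟩ := exists_mesh (R := R) (lt_min (half_pos hδ) hδ₂)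
  set h := 2 * R / 2 ^ K with hh
  have h0 : 0 < h := by positivity
  have hc : ∀ b ∈ cells k K, ‖cnr R K b‖ ≤ R := fun b hb =>
    (pi_norm_le_iff_of_nonneg hR.le).2 fun i => abs_le.2
      ⟨(cnr_mem hR hb i).1, by linarith [(cnr_mem hR hb i).2]⟩
  have hu' : ∀ b ∈ cells k K, ∀ x, ‖x‖ ≤ R → ‖x - cnr R K b‖ ≤ h →
      |e x - e (cnr R K b)| ≤ η := fun b hb x h1 h2 =>
    (hu x (mem_closedBall_zero_iff.2 h1) _ (mem_closedBall_zero_iff.2 (hc b hb))
      (by rw [dist_eq_norm]; linarith [min_le_right (δ / 2) δ₂])).le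
  refine hC.null_of_cells G hF hR hout K (σ := fun b => e (cnr R K b) + 2 * η)
    (fun b => by linarith [he0 (cnr R K b)]) (fun b hb x y h1 h2 h3 h4 => ?_) (by linarith) ?_ hno
  · have e1 : ‖x - y‖ ≤ δ := by
      have := norm_sub_le_norm_sub_add_norm_sub x (cnr R K b) y
      rw [norm_sub_rev (cnr R K b)] at this
      linarith [min_le_left (δ / 2) δ₂]
    refine (hδ' x y h1 h2 e1).trans ?_
    apply mul_le_mul_of_nonneg_right _ (norm_nonneg _)
    linarith [(abs_le.1 (hu' b hb x h1 h3)).2]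
  · rw [Nat.sub_self, pow_zero, one_mul, ← hh]
    let Q : (Fin k → ℕ) → Set (Fin k → ℝ) := fun b =>
      pi univ fun i => Ico (cnr R K b i) (cnr R K b i + h)
    have hQm : ∀ b, MeasurableSet (Q b) := fun b =>
      MeasurableSet.univ_pi fun i => measurableSet_Ico
    have hQs : ∀ b ∈ cells k K, Q b ⊆ closedBall 0 R := fun b hb x hx =>
      mem_closedBall_zero_iff.2 ((pi_norm_le_iff_of_nonneg hR.le).2 fun i => abs_le.2
        ⟨by linarith [(cnr_mem hR hb i).1, (hx i trivial).1],
          by linarith [(cnr_mem hR hb i).2, (hx i trivial).2]⟩)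
    have hi : ∀ f : (Fin k → ℝ) → ℝ, Continuous f → IntegrableOn f (closedBall 0 R) := fun f hf =>
      hf.continuousOn.integrableOn_compact (isCompact_closedBall _ _)
    have hi1 := hi (fun x => (e x + 3 * η) ^ k) (by fun_prop)
    calc ∑ b ∈ cells k K, (h * (e (cnr R K b) + 2 * η)) ^ k
        ≤ ∑ b ∈ cells k K, ∫ x in Q b, (e x + 3 * η) ^ k := by
          apply Finset.sum_le_sum
          intro b hb
          have e1 : volume.real (Q b) = h ^ k := by
            rw [Measure.real, Real.volume_pi_Ico_toReal fun i => by simp [h0.le]]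
            simp
          rw [mul_pow, mul_comm, ← e1]
          refine setIntegral_ge_of_const_le_real (hQm b) ((measure_mono (hQs b hb)).trans_lt
            (isCompact_closedBall _ _).measure_lt_top).ne (fun x hx => ?_) (hi1.mono_set (hQs b hb))
          have e2 := hu' b hb x (mem_closedBall_zero_iff.1 (hQs b hb hx))
            ((pi_norm_le_iff_of_nonneg h0.le).2 fun i => abs_le.2
              ⟨by simp only [Pi.sub_apply]; linarith [(hx i trivial).1],
                by simp only [Pi.sub_apply]; linarith [(hx i trivial).2]⟩)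
          exact pow_le_pow_left₀ (by linarith [he0 (cnr R K b)])
            (by linarith [(abs_le.1 e2).1]) k
      _ = ∫ x in ⋃ b ∈ cells k K, Q b, (e x + 3 * η) ^ k := by
          rw [integral_biUnion_finset _ (fun b _ => hQm b) _ fun b hb => hi1.mono_set (hQs b hb)]
          intro b _ b' _ hne
          rw [Function.onFun, Set.disjoint_left]
          intro x hx hx'
          apply hne
          funext i
          have e1 := hx i trivial
          have e2 := hx' i trivial
          simp only [cnr, ← hh, mem_Ico] at e1 e2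
          have e3 : (b i : ℝ) < b' i + 1 := by nlinarith [e1.1, e2.2]
          have e4 : (b' i : ℝ) < b i + 1 := by nlinarith [e1.2, e2.1]
          have e5 : b i < b' i + 1 := by exact_mod_cast e3
          have e6 : b' i < b i + 1 := by exact_mod_cast e4
          omega
      _ ≤ ∫ x in closedBall 0 R, (e x + 3 * η) ^ k :=
          setIntegral_mono_set hi1 (Eventually.of_forall fun x => by
            have := he0 x
            positivity) (LE.le.eventuallyLE (iUnion₂_subset hQs))
      _ ≤ ∫ x in closedBall 0 R, 2 ^ (k - 1) * (e x ^ k + (3 * η) ^ k) :=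
          setIntegral_mono hi1 (hi _ (by fun_prop)) fun x => add_pow_le (he0 x) (by positivity) k
      _ = 2 ^ (k - 1) * ((∫ x in closedBall 0 R, e x ^ k) + ε ^ k) := by
          rw [integral_const_mul, integral_add (hi _ (by fun_prop)) (hi _ continuous_const),
            setIntegral_const, Measure.real, Real.volume_pi_closedBall _ hR.le,
            ENNReal.toReal_ofReal (by positivity), Fintype.card_fin, smul_eq_mul, ← mul_pow]
          congr 3
          rw [hη]
          field_simp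
          norm_num
      _ ≤ 2 ^ (k - 1) * (ε ^ k + ε ^ k) := by gcongr
      _ = (2 * ε) ^ k := by
          obtain ⟨k, rfl⟩ := Nat.exists_eq_add_of_le' hk
          rw [Nat.add_sub_cancel]
          ring

theorem continuous_onePoint {T V Y : Type*} [TopologicalSpace T] [NormedAddCommGroup V]
    [ProperSpace V] [TopologicalSpace Y] {H : T → V → Y}
    (hH : Continuous fun p : T × V => H p.1 p.2) {c : T → Y} (hc : Continuous c) {R : ℝ}
    (h : ∀ t x, R ≤ ‖x‖ → H t x = c t) :
    Continuous fun p : T × OnePoint V => p.2.elim (c p.1) (H p.1) := by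
  rw [continuous_iff_continuousAt]
  rintro ⟨t, z⟩
  induction z using OnePoint.rec with
  | infty =>
    have hO : IsOpen {p : T × OnePoint V | p.2 ∉ ((↑) : V → OnePoint V) '' closedBall 0 R} :=
      (OnePoint.isClosed_image_coe.2 ⟨isClosed_closedBall,
        isCompact_closedBall _ _⟩).isOpen_compl.preimage continuous_snd
    refine (hc.comp continuous_fst).continuousAt.congr ?_
    filter_upwards [hO.mem_nhds (by simp)] with ⟨s, z⟩ hz
    induction z using OnePoint.rec with
    | infty => rfl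
    | coe x =>
      refine (h s x ?_).symm
      by_contra hcon
      exact hz ⟨x, mem_closedBall_zero_iff.2 (not_le.1 hcon).le, rfl⟩
  | coe x =>
    exact ((IsOpenEmbedding.id (X := T)).prodMap OnePoint.isOpenEmbedding_coe).continuousAt_iff
      (x := (t, x)) |>.1 hH.continuousAt

theorem Htp.homotopic {Z Y : Type*} [TopologicalSpace Z] [TopologicalSpace Y]
    {P : (Z → Y) → Prop} {f g : C(Z, Y)} (h : Htp P f g) : f.Homotopic g := by
  obtain ⟨H, hc, h0, h1, -⟩ := h
  exact ⟨⟨⟨fun p => H p.1 p.2, hc.comp (f := fun p : unitInterval × Z => ((p.1 : ℝ), p.2))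
    (by fun_prop)⟩, fun z => by simp [h0], fun z => by simp [h1]⟩⟩

theorem Null.onePoint {V Y : Type*} [NormedAddCommGroup V] [NormedSpace ℝ V] [Nontrivial V]
    [ProperSpace V] [TopologicalSpace Y] {f : V → Y} {p : Y} {R : ℝ}
    (hp : ∀ x, R ≤ ‖x‖ → f x = p) (h : Null f) :
    ∃ q, Htp (fun _ => True) (fun z : OnePoint V => z.elim p f) fun _ => q := by
  obtain ⟨R', q, H, hc, h0, h1, hP⟩ := h
  obtain ⟨x₀, hx₀⟩ := exists_norm_eq V (show 0 ≤ max (max R R') 0 from le_max_right _ _)
  have e1 : R ≤ ‖x₀‖ := by rw [hx₀]; exact (le_max_left _ _).trans (le_max_left _ _)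
  have e2 : R' ≤ ‖x₀‖ := by rw [hx₀]; exact (le_max_right _ _).trans (le_max_left _ _)
  refine ⟨q, fun t z => z.elim (H (clamp t) x₀) (H (clamp t)), continuous_onePoint
    (H := fun t => H (clamp t)) (hc.comp (f := fun p : ℝ × V => (clamp p.1, p.2)) (by fun_prop))
    (hc.comp (f := fun t : ℝ => (clamp t, x₀)) (by fun_prop)) (R := R')
    fun t x hx => hP _ ⟨clamp_nonneg t, clamp_le_one t⟩ _ _ hx e2, ?_, ?_, fun _ _ => trivial⟩
  · simp only [clamp_of_nonpos le_rfl, h0, hp x₀ e1]
  · funext z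
    simp only [clamp_of_one_le le_rfl, h1]
    induction z using OnePoint.rec <;> rfl

end Pool.Agent.Lib.MP_3eff7f_gt
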