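import Pool.Agent.Lib.MP_3eff7f_gt.Birkhoff

set_option autoImplicit false

open Set Filter Topology Metric

namespace Pool.Agent.Lib.MP_3eff7f_gt

variable {M : Type*} [MetricSpace M]

/-- Arbitrarily fine partitions of unity with thickenings of total mass at most `m`. -/
def SmallCover (M : Type*) [MetricSpace M] (m : ℝ) : Prop :=
  ∀ δ > 0, ∃ (ι : Type) (_ : Fintype ι) (q : ι → M) (μ lam : ι → M → ℝ),
    (∀ j, Continuous (μ j)) ∧ (∀ j, Continuous (lam j)) ∧ (∀ j x, 0 ≤ μ j x) ∧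
    (∀ j x, lam j x ≠ 0 → μ j x = 1) ∧ (∀ j x, μ j x ≠ 0 → dist x (q j) < δ) ∧
    (∀ x, ∑ j, lam j x = 1) ∧ (∀ x, ∑ j, μ j x ≤ m)

namespace GeoData

variable {r : ℝ} (G : GeoData M r)
include G

theorem exists_spur [CompactSpace M] {δ D : ℝ} (hδ : 0 < δ) (hδr : 2 * δ ≤ r) (q z : M)
    (hD : dist q z ≤ D) {μ : M → ℝ} (hμ : Continuous μ)
    (hμq : ∀ x, μ x ≠ 0 → dist x q < δ) :
    ∃ K : M → ℝ → M, Continuous (fun p : M × ℝ => K p.1 p.2) ∧
      (∀ x s t, dist (K x s) (K x t) ≤ |s - t|) ∧ (∀ x t, t ≤ 0 → K x t = x) ∧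
      (∀ x, μ x = 1 → K x (D + 2 * δ) = z) := by
  let κ : M → ℝ → M := fun x t => if t ≤ 2 * δ then seg x q t else seg q z (t - 2 * δ)
  have hκ0 : ∀ x t, t ≤ 0 → κ x t = x := by
    intro x t ht
    simp only [κ, show t ≤ 2 * δ by linarith, if_true]
    exact (G.seg_spec x q).2.1 t ht
  have hD0 : 0 ≤ D := dist_nonneg.trans hD
  refine ⟨fun x t => κ x (min t (μ x * (D + 2 * δ))), ?_, ?_, ?_, ?_⟩
  · rw [continuous_iff_continuousAt]
    intro p
    by_cases hp : dist p.1 q < 2 * δ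
    · have hO : IsOpen {p : M × ℝ | dist p.1 q < 2 * δ} := isOpen_lt (by fun_prop) continuous_const
      have hc : ContinuousOn (fun p : M × ℝ => κ p.1 (min p.2 (μ p.1 * (D + 2 * δ))))
          {p : M × ℝ | dist p.1 q < 2 * δ} := by
        rw [continuousOn_iff_continuous_domRestrict]
        have hm : Continuous fun p : {p : M × ℝ | dist p.1 q < 2 * δ} =>
            min p.1.2 (μ p.1.1 * (D + 2 * δ)) := by fun_prop
        refine Continuous.if_le (f := fun p : {p : M × ℝ | dist p.1 q < 2 * δ} =>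
            min p.1.2 (μ p.1.1 * (D + 2 * δ))) (g := fun _ => 2 * δ) ?_ ?_ hm continuous_const ?_
        · have h1 : Continuous fun p : {p : M × ℝ | dist p.1 q < 2 * δ} =>
              ((p.1.1, q, min p.1.2 (μ p.1.1 * (D + 2 * δ))) : M × M × ℝ) := by fun_prop
          exact G.continuousOn_seg.comp_continuous h1 fun p => lt_of_lt_of_le p.2 hδr
        · exact (G.seg_spec q z).continuous.comp (hm.sub continuous_const)
        · intro p hp
          rw [hp, sub_self, (G.seg_spec q z).2.1 0 le_rfl]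
          exact (G.seg_spec _ q).2.2 _ (le_of_lt p.2)
      exact hc.continuousAt (hO.mem_nhds hp)
    · have hO : IsOpen {p : M × ℝ | δ < dist p.1 q} := isOpen_lt continuous_const (by fun_prop)
      have hmem : p ∈ {p : M × ℝ | δ < dist p.1 q} := by
        show δ < dist p.1 q
        linarith
      refine continuous_fst.continuousAt.congr ?_
      filter_upwards [hO.mem_nhds hmem] with p' hp'
      have : μ p'.1 = 0 := by
        by_contra h
        exact absurd (hμq _ h) (not_lt.2 (le_of_lt hp'))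
      rw [hκ0]
      rw [this, zero_mul]
      exact min_le_right _ _
  · intro x s t
    by_cases hx : μ x = 0
    · simp only [hx, zero_mul]
      rw [hκ0 _ _ (min_le_right _ _), hκ0 _ _ (min_le_right _ _), dist_self]
      exact abs_nonneg _
    · have hlip : ∀ s t, dist (κ x s) (κ x t) ≤ |s - t| := by
        apply lip_concat (c₂ := fun t => seg q z (t - 2 * δ)) (G.seg_spec x q).1
        · intro s t
          simpa using (G.seg_spec q z).1 (s - 2 * δ) (t - 2 * δ)
        · rw [sub_self, (G.seg_spec q z).2.1 0 le_rfl]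
          exact (G.seg_spec x q).2.2 _ (by linarith [hμq x hx])
      refine (hlip _ _).trans ?_
      simpa using abs_min_sub_min_le_max s (μ x * (D + 2 * δ)) t (μ x * (D + 2 * δ))
  · intro x t ht
    exact hκ0 _ _ ((min_le_left _ _).trans ht)
  · intro x hx
    simp only [hx, one_mul, min_self, κ]
    split_ifs with h
    · have hqz : q = z := dist_le_zero.1 (by linarith)
      rw [← hqz]
      exact (G.seg_spec x q).2.2 _ (by linarith [hμq x (by rw [hx]; exact one_ne_zero)])
    · exact (G.seg_spec q z).2.2 _ (by linarith)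

omit G in
theorem exists_piece {R : ℝ → M → M} (hRc : Continuous fun p : ℝ × M => R p.1 p.2)
    (hRi : ∀ a, Isometry (R a)) {z : M} (hRz : ∀ a, R a z = z) {L : ℝ} (hL : 0 < L)
    {K : M → ℝ → M} (hKc : Continuous fun p : M × ℝ => K p.1 p.2)
    (hKl : ∀ x s t, dist (K x s) (K x t) ≤ |s - t|) (hK0 : ∀ x t, t ≤ 0 → K x t = x)
    {μ lam A : M → ℝ} (hμ : Continuous μ) (hlam : Continuous lam) (hA : Continuous A)
    (hμ0 : ∀ x, 0 ≤ μ x) (hlm : ∀ x, lam x ≠ 0 → μ x = 1) (hKz : ∀ x, μ x = 1 → K x L = z) :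
    ∃ Q : M → ℝ → M, Continuous (fun p : M × ℝ => Q p.1 p.2) ∧
      (∀ x s t, dist (Q x s) (Q x t) ≤ |s - t|) ∧ (∀ x t, t ≤ 0 → Q x t = R (A x) x) ∧
      (∀ x t, 2 * L * μ x ≤ t → Q x t = R (A x + lam x) x) := by
  have hmatch : ∀ x, R (A x) (K x (μ x * L)) = R (A x + lam x) (K x (2 * (μ x * L) - μ x * L)) := by
    intro x
    have e : 2 * (μ x * L) - μ x * L = μ x * L := by ring
    rw [e]
    by_cases h : lam x = 0
    · rw [h, add_zero]
    · rw [hlm x h, one_mul, hKz x (hlm x h), hRz, hRz]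
  refine ⟨fun x t => if t ≤ μ x * L then R (A x) (K x t)
    else R (A x + lam x) (K x (2 * (μ x * L) - t)), ?_, ?_, ?_, ?_⟩
  · refine Continuous.if_le (f := fun p : M × ℝ => p.2) (g := fun p : M × ℝ => μ p.1 * L)
      ?_ ?_ continuous_snd (by fun_prop) ?_
    · exact hRc.comp (f := fun p : M × ℝ => (A p.1, K p.1 p.2))
        ((hA.comp continuous_fst).prodMk hKc)
    · have h1 : Continuous fun p : M × ℝ => K p.1 (2 * (μ p.1 * L) - p.2) :=
        hKc.comp (f := fun p : M × ℝ => (p.1, 2 * (μ p.1 * L) - p.2)) (by fun_prop)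
      exact hRc.comp (f := fun p : M × ℝ => (A p.1 + lam p.1, K p.1 (2 * (μ p.1 * L) - p.2)))
        ((by fun_prop : Continuous fun p : M × ℝ => A p.1 + lam p.1).prodMk h1)
    · intro p hp
      rw [hp]
      exact hmatch p.1
  · intro x
    apply lip_concat (c₁ := fun t => R (A x) (K x t))
      (c₂ := fun t => R (A x + lam x) (K x (2 * (μ x * L) - t)))
    · intro s t
      rw [(hRi _).dist_eq]
      exact hKl x s t
    · intro s t
      rw [(hRi _).dist_eq]
      refine (hKl x _ _).trans_eq ?_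
      rw [abs_sub_comm]
      congr 1
      ring
    · exact hmatch x
  · intro x t ht
    have : t ≤ μ x * L := ht.trans (mul_nonneg (hμ0 x) hL.le)
    simp only [this, if_true, hK0 x t ht]
  · intro x t ht
    by_cases h : t ≤ μ x * L
    · have h1 : μ x * L ≤ 0 := by linarith
      have h2 : μ x = 0 := by
        have := mul_nonneg (hμ0 x) hL.le
        have h3 : μ x * L = 0 := le_antisymm h1 this
        exact (mul_eq_zero.1 h3).resolve_right hL.ne'
      have h3 : lam x = 0 := by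
        by_contra h4
        rw [hlm x h4] at h2
        exact one_ne_zero h2
      simp only [h, if_true, h3, add_zero]
      rw [hK0 x t (by linarith)]
    · simp only [h, if_false]
      rw [hK0 x _ (by linarith)]

theorem exists_family [CompactSpace M] {m : ℝ} (hcov : SmallCover M m) {R : ℝ → M → M}
    (hRc : Continuous fun p : ℝ × M => R p.1 p.2) (hRi : ∀ a, Isometry (R a)) {z : M}
    (hRz : ∀ a, R a z = z) (hR0 : ∀ x, R 0 x = x) {D : ℝ} (hD : ∀ x, dist x z ≤ D) {ε : ℝ}
    (hε : 0 < ε) :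
    ∃ Γ : M → ℝ → M, Continuous (fun p : M × ℝ => Γ p.1 p.2) ∧
      (∀ x s t, dist (Γ x s) (Γ x t) ≤ |s - t|) ∧ (∀ x t, t ≤ 0 → Γ x t = x) ∧
      (∀ x t, 2 * (D + ε) * m ≤ t → Γ x t = R 1 x) := by
  classical
  have hr := G.pos
  set δ := min (ε / 2) (r / 2) with hδ_def
  have hδ : 0 < δ := lt_min (by linarith) (by linarith)
  have hδε : 2 * δ ≤ ε := by linarith [min_le_left (ε / 2) (r / 2)]
  have hδr : 2 * δ ≤ r := by linarith [min_le_right (ε / 2) (r / 2)]
  obtain ⟨ι, _, q, μ, lam, hμc, hlc, hμ0, hlm, hμq, hl1, hμm⟩ := hcov δ hδ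
  have hD0 : 0 ≤ D := dist_nonneg.trans (hD z)
  set L := D + 2 * δ with hL_def
  have hL : 0 < L := by linarith
  have key : ∀ S : Finset ι, ∃ Γ : M → ℝ → M, Continuous (fun p : M × ℝ => Γ p.1 p.2) ∧
      (∀ x s t, dist (Γ x s) (Γ x t) ≤ |s - t|) ∧ (∀ x t, t ≤ 0 → Γ x t = x) ∧
      (∀ x t, 2 * L * ∑ j ∈ S, μ j x ≤ t → Γ x t = R (∑ j ∈ S, lam j x) x) := by
    intro S
    induction S using Finset.induction_on with
    | empty =>
      exact ⟨fun x _ => x, continuous_fst, fun x s t => by simp, fun _ _ _ => rfl,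
        fun x t _ => by simp [hR0]⟩
    | insert j S hj ih =>
      obtain ⟨Γ, hΓc, hΓl, hΓ0, hΓ1⟩ := ih
      obtain ⟨K, hKc, hKl, hK0, hKz⟩ := G.exists_spur hδ hδr (q j) z (hD _) (hμc j) (hμq j)
      obtain ⟨Q, hQc, hQl, hQ0, hQ1⟩ := exists_piece hRc hRi hRz hL hKc hKl hK0 (hμc j) (hlc j)
        (A := fun x => ∑ i ∈ S, lam i x) (by fun_prop) (hμ0 j) (hlm j) hKz
      have hT0 : ∀ x, 0 ≤ 2 * L * ∑ i ∈ S, μ i x := fun x =>
        mul_nonneg (by linarith) (Finset.sum_nonneg fun i _ => hμ0 i x)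
      have hmatch : ∀ x, Γ x (2 * L * ∑ i ∈ S, μ i x) =
          Q x (2 * L * ∑ i ∈ S, μ i x - 2 * L * ∑ i ∈ S, μ i x) := by
        intro x
        rw [hΓ1 x _ le_rfl, hQ0 x _ (by simp)]
      refine ⟨fun x t => if t ≤ 2 * L * ∑ i ∈ S, μ i x then Γ x t
        else Q x (t - 2 * L * ∑ i ∈ S, μ i x), ?_, ?_, ?_, ?_⟩
      · refine Continuous.if_le (f := fun p : M × ℝ => p.2)
          (g := fun p : M × ℝ => 2 * L * ∑ i ∈ S, μ i p.1) hΓc ?_ continuous_snd (by fun_prop) ?_
        · exact hQc.comp (f := fun p : M × ℝ => (p.1, p.2 - 2 * L * ∑ i ∈ S, μ i p.1))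
            (by fun_prop)
        · intro p hp
          rw [hp]
          exact hmatch p.1
      · intro x
        apply lip_concat (c₂ := fun t => Q x (t - 2 * L * ∑ i ∈ S, μ i x)) (hΓl x)
        · intro s t
          simpa using hQl x (s - 2 * L * ∑ i ∈ S, μ i x) (t - 2 * L * ∑ i ∈ S, μ i x)
        · exact hmatch x
      · intro x t ht
        simp only [ht.trans (hT0 x), if_true, hΓ0 x t ht]
      · intro x t ht
        rw [Finset.sum_insert hj] at ht ⊢
        rw [add_comm (lam j x)]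
        by_cases h : t ≤ 2 * L * ∑ i ∈ S, μ i x
        · simp only [h, if_true]
          have h1 : 0 ≤ 2 * L * μ j x := mul_nonneg (by linarith) (hμ0 j x)
          have h2 : t = 2 * L * ∑ i ∈ S, μ i x := by linarith
          rw [h2, hmatch x]
          apply hQ1
          linarith
        · simp only [h, if_false]
          apply hQ1
          linarith
  obtain ⟨Γ, hΓc, hΓl, hΓ0, hΓ1⟩ := key Finset.univ
  refine ⟨Γ, hΓc, hΓl, hΓ0, fun x t ht => ?_⟩
  rw [hΓ1 x t, hl1]
  have h1 := hμm x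
  have h2 : 0 ≤ ∑ j, μ j x := Finset.sum_nonneg fun i _ => hμ0 i x
  calc 2 * L * ∑ j, μ j x ≤ 2 * (D + ε) * m := by
        apply mul_le_mul (by linarith) h1 h2 (by linarith)
    _ ≤ t := ht

end GeoData

/-- Sampling a family of twisted curves. -/
theorem exists_samples {Y : Type*} [TopologicalSpace Y] (σ : M ≃ᵢ M) {Γ : Y → ℝ → M}
    (hΓc : Continuous fun p : Y × ℝ => Γ p.1 p.2)
    (hΓl : ∀ y s t, dist (Γ y s) (Γ y t) ≤ |s - t|) {N : ℕ} (hN : 0 < N) {a : ℝ} (ha : 0 ≤ a)
    (hΓ1 : ∀ y, Γ y (N * a) = σ (Γ y 0)) :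
    ∃ P : Y → ℤ → M, Continuous P ∧ (∀ y, P y ∈ XS σ N a) ∧ ∀ y, P y 0 = Γ y 0 := by
  have hN' : (0 : ℤ) < N := by exact_mod_cast hN
  refine ⟨fun y i => (σ ^ (i / N)) (Γ y ((i % N : ℤ) * a)), ?_, fun y => ⟨fun i => ?_, fun i => ?_⟩,
    fun y => by simp⟩
  · rw [continuous_pi_iff]
    intro i
    exact (σ ^ (i / N)).continuous.comp
      (hΓc.comp (f := fun y : Y => (y, ((i % N : ℤ) : ℝ) * a)) (by fun_prop))
  · have e1 : (i + N) / N = i / N + 1 := by
      have := Int.add_mul_ediv_right i 1 hN'.ne'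
      rwa [one_mul] at this
    have e2 : (i + N) % N = i % N := by simp
    simp only [e1, e2]
    rw [add_comm, zpow_add, zpow_one]
    rfl
  · have h0 := Int.emod_nonneg i hN'.ne'
    have h1 := Int.emod_lt_of_pos i hN'
    have h2 := Int.emod_add_mul_ediv i N
    by_cases h : i % N + 1 < N
    · have e : (i + 1) / N = i / N ∧ (i + 1) % N = i % N + 1 := by
        rw [Int.ediv_emod_unique hN']
        exact ⟨by linarith, by linarith, h⟩
      simp only [e.1, e.2]
      rw [IsometryEquiv.dist_eq]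
      refine (hΓl y _ _).trans_eq ?_
      push_cast
      rw [abs_of_nonpos (by linarith)]
      ring
    · have h3 : i % N + 1 = N := by omega
      have e : (i + 1) / N = i / N + 1 ∧ (i + 1) % N = 0 := by
        rw [Int.ediv_emod_unique hN']
        exact ⟨by linarith, le_rfl, hN'⟩
      simp only [e.1, e.2]
      rw [zpow_add, zpow_one]
      have e2 : (σ ^ (i / N) * σ) (Γ y (((0 : ℤ) : ℝ) * a)) = (σ ^ (i / N)) (Γ y (N * a)) := by
        rw [hΓ1]
        simp
      rw [e2, IsometryEquiv.dist_eq]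
      refine (hΓl y _ _).trans_eq ?_
      have h4 : ((i % N : ℤ) : ℝ) = N - 1 := by
        have : i % N = N - 1 := by omega
        rw [this]
        push_cast
        ring
      rw [h4, abs_of_nonpos (by linarith)]
      ring

end Pool.Agent.Lib.MP_3eff7f_gt
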