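import Mathlib

set_option autoImplicit false

open Set Filter Topology Metric

namespace Pool.Agent.Lib.MP_3eff7f_gt

variable {M : Type*} [MetricSpace M]

/-- `c` is a unit speed minimizing segment from `u` to `v`, constant before time `0` and after
time `dist u v`. -/
def IsSeg (u v : M) (c : ℝ → M) : Prop :=
  (∀ s t, dist (c s) (c t) ≤ |s - t|) ∧ (∀ t, t ≤ 0 → c t = u) ∧ (∀ t, dist u v ≤ t → c t = v)

theorem lip_concat {c₁ c₂ : ℝ → M} {A : ℝ} (h₁ : ∀ s t, dist (c₁ s) (c₁ t) ≤ |s - t|)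
    (h₂ : ∀ s t, dist (c₂ s) (c₂ t) ≤ |s - t|) (h : c₁ A = c₂ A) (s t : ℝ) :
    dist (if s ≤ A then c₁ s else c₂ s) (if t ≤ A then c₁ t else c₂ t) ≤ |s - t| := by
  by_cases hs : s ≤ A <;> by_cases ht : t ≤ A <;> simp only [hs, ht, if_true, if_false]
  · exact h₁ s t
  · have e1 := h₁ s A
    have e2 := h₂ A t
    have e3 := dist_triangle (c₁ s) (c₁ A) (c₂ t)
    rw [h] at e3 e1
    rw [abs_of_nonpos (by linarith)] at e1 e2 ⊢
    linarith
  · have e1 := h₂ s A
    have e2 := h₁ A t
    have e3 := dist_triangle (c₂ s) (c₂ A) (c₁ t)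
    rw [h] at e2
    rw [abs_of_nonneg (by linarith)] at e1 e2 ⊢
    linarith
  · exact h₂ s t

theorem dist_eq_of_lip_of_ends {c : ℝ → M} {A B : ℝ}
    (h : ∀ s t, s ∈ Icc A B → t ∈ Icc A B → dist (c s) (c t) ≤ |s - t|)
    (hAB : dist (c A) (c B) = B - A) {s t : ℝ} (hs : s ∈ Icc A B) (ht : t ∈ Icc A B) :
    dist (c s) (c t) = |s - t| := by
  wlog hst : s ≤ t generalizing s t
  · rw [dist_comm, abs_sub_comm]
    exact this ht hs (le_of_not_ge hst)
  apply le_antisymm (h s t hs ht)
  have hA : A ∈ Icc A B := ⟨le_rfl, hs.1.trans hs.2⟩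
  have hB : B ∈ Icc A B := ⟨hs.1.trans hs.2, le_rfl⟩
  have e1 := h A s hA hs
  have e2 := h t B ht hB
  have e3 := dist_triangle4 (c A) (c s) (c t) (c B)
  rw [abs_of_nonpos (by linarith [hs.1])] at e1
  rw [abs_of_nonpos (by linarith [ht.2])] at e2
  rw [abs_of_nonpos (by linarith)]
  linarith

theorem IsSeg.dist_left_le {u v : M} {c : ℝ → M} (h : IsSeg u v c) {t : ℝ} (ht : 0 ≤ t) :
    dist u (c t) ≤ t := by
  have := h.1 0 t
  rw [h.2.1 0 le_rfl, abs_of_nonpos (by linarith)] at this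
  linarith

theorem IsSeg.dist_right_le {u v : M} {c : ℝ → M} (h : IsSeg u v c) {t : ℝ}
    (ht : t ≤ dist u v) : dist (c t) v ≤ dist u v - t := by
  have := h.1 t (dist u v)
  rw [h.2.2 _ le_rfl, abs_of_nonpos (by linarith)] at this
  linarith

theorem IsSeg.continuous {u v : M} {c : ℝ → M} (h : IsSeg u v c) : Continuous c := by
  have : LipschitzWith 1 c := LipschitzWith.of_dist_le_mul fun s t => by
    simpa [Real.dist_eq] using h.1 s t
  exact this.continuous

/-- Approximate intermediate points give exact ones in a compact space. -/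
theorem exists_between_of_approx [CompactSpace M]
    (h : ∀ u v : M, ∀ τ, 0 ≤ τ → τ ≤ dist u v → ∀ ε > 0,
      ∃ w, dist u w ≤ τ ∧ dist w v ≤ dist u v - τ + ε)
    (u v : M) (τ : ℝ) (h0 : 0 ≤ τ) (h1 : τ ≤ dist u v) :
    ∃ w, dist u w ≤ τ ∧ dist w v ≤ dist u v - τ := by
  have hK : IsCompact (closedBall u τ) := isClosed_closedBall.isCompact
  obtain ⟨w, hw, hmin⟩ := hK.exists_isMinOn (f := fun w => dist w v)
    ⟨u, mem_closedBall_self h0⟩ (by fun_prop)
  refine ⟨w, by simpa [dist_comm] using hw, ?_⟩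
  apply le_of_forall_pos_le_add
  intro ε hε
  obtain ⟨w', h1', h2'⟩ := h u v τ h0 h1 ε hε
  have : dist w v ≤ dist w' v := hmin (by simpa [dist_comm] using h1')
  linarith

theorem exists_chain (hM : ∀ u v : M, ∀ τ, 0 ≤ τ → τ ≤ dist u v →
      ∃ w, dist u w ≤ τ ∧ dist w v ≤ dist u v - τ) (u v : M) (N : ℕ) (hN : 0 < N) :
    ∃ w : ℕ → M, w 0 = u ∧ (∀ i, N ≤ i → w i = v) ∧
      ∀ i, dist (w i) (w (i + 1)) ≤ dist u v / N := by
  set s := dist u v / N with hs
  have hNpos : (0 : ℝ) < N := by exact_mod_cast hN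
  have hs0 : 0 ≤ s := by positivity
  have step : ∀ x : M, ∃ y, dist x y ≤ s ∧ dist y v ≤ max (dist x v - s) 0 := by
    intro x
    by_cases hx : s ≤ dist x v
    · obtain ⟨y, h1, h2⟩ := hM x v s hs0 hx
      exact ⟨y, h1, h2.trans (le_max_left _ _)⟩
    · exact ⟨v, by linarith, by simp⟩
  choose f hf1 hf2 using step
  refine ⟨fun i => f^[i] u, rfl, ?_, ?_⟩
  · have key : ∀ i : ℕ, dist (f^[i] u) v ≤ max (dist u v - i * s) 0 := by
      intro i
      induction i with
      | zero => simp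
      | succ i ih =>
        rw [Function.iterate_succ_apply']
        refine (hf2 _).trans ?_
        push_cast
        apply max_le _ (le_max_right _ _)
        rcases le_total (dist u v - i * s) 0 with h | h
        · rw [max_eq_right h] at ih
          exact le_max_of_le_right (by linarith)
        · rw [max_eq_left h] at ih
          exact le_max_of_le_left (by linarith)
    intro i hi
    have h1 := key i
    have h2 : dist u v - i * s ≤ 0 := by
      have : (N : ℝ) ≤ i := by exact_mod_cast hi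
      have h3 : dist u v = N * s := by rw [hs]; field_simp
      nlinarith
    rw [max_eq_right h2] at h1
    exact dist_le_zero.1 h1
  · intro i
    simp only [Function.iterate_succ_apply']
    exact hf1 _

theorem dist_chain_le {w : ℕ → M} {s : ℝ} (h : ∀ i, dist (w i) (w (i + 1)) ≤ s) (i k : ℕ) :
    dist (w i) (w (i + k)) ≤ k * s := by
  induction k with
  | zero => simp
  | succ k ih =>
    have := dist_triangle (w i) (w (i + k)) (w (i + k + 1))
    have h2 := h (i + k)
    push_cast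
    rw [← add_assoc]
    linarith

theorem exists_isSeg [CompactSpace M]
    (hM : ∀ u v : M, ∀ τ, 0 ≤ τ → τ ≤ dist u v →
      ∃ w, dist u w ≤ τ ∧ dist w v ≤ dist u v - τ) (u v : M) : ∃ c, IsSeg u v c := by
  rcases eq_or_ne u v with rfl | huv
  · exact ⟨fun _ => u, fun s t => by simp, fun _ _ => rfl, fun _ _ => rfl⟩
  have hd : 0 < dist u v := dist_pos.2 huv
  set d := dist u v with hd_def
  choose w hw0 hwN hwd using fun N : ℕ => exists_chain hM u v (N + 1) (Nat.succ_pos N)
  let cN : ℕ → ℝ → M := fun N t => w N ⌊t * (N + 1) / d⌋₊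
  have hc : ∀ N s t, dist (cN N s) (cN N t) ≤ |s - t| + d / (N + 1) := by
    intro N s t
    wlog hst : s ≤ t generalizing s t
    · rw [dist_comm, abs_sub_comm]; exact this t s (le_of_not_ge hst)
    have hN : (0 : ℝ) < N + 1 := by positivity
    have hle : ⌊s * (N + 1) / d⌋₊ ≤ ⌊t * (N + 1) / d⌋₊ := Nat.floor_mono (by gcongr)
    obtain ⟨k, hk⟩ := Nat.exists_eq_add_of_le hle
    have h1 := dist_chain_le (hwd N) ⌊s * (N + 1) / d⌋₊ k
    simp only [cN]
    rw [hk]
    refine h1.trans ?_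
    push_cast
    rw [abs_of_nonpos (by linarith)]
    rcases Nat.eq_zero_or_pos k with rfl | hkpos
    · have : 0 ≤ d / (N + 1) := by positivity
      simp only [Nat.cast_zero, zero_mul]
      linarith
    have ht0 : 0 ≤ t * (N + 1) / d := by
      by_contra hneg
      have : ⌊t * (N + 1) / d⌋₊ = 0 := Nat.floor_of_nonpos (le_of_not_ge hneg)
      omega
    have e1 : (⌊t * (N + 1) / d⌋₊ : ℝ) ≤ t * (N + 1) / d := Nat.floor_le ht0
    have e2 : s * (N + 1) / d < ⌊s * (N + 1) / d⌋₊ + 1 := Nat.lt_floor_add_one _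
    have e3 : (⌊t * (N + 1) / d⌋₊ : ℝ) = ⌊s * (N + 1) / d⌋₊ + k := by exact_mod_cast hk
    have e4 : (k : ℝ) ≤ (t - s) * (N + 1) / d + 1 := by
      have : (t - s) * (N + 1) / d = t * (N + 1) / d - s * (N + 1) / d := by ring
      linarith
    calc (k : ℝ) * (d / (N + 1)) ≤ ((t - s) * (N + 1) / d + 1) * (d / (N + 1)) := by gcongr
      _ = -(s - t) + d / (N + 1) := by field_simp; ring
  have hlim : ∀ t, ∃ x, Tendsto (fun N => cN N t) (hyperfilter ℕ : Filter ℕ) (𝓝 x) := by
    intro t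
    obtain ⟨x, -, hx⟩ := isCompact_univ.ultrafilter_le_nhds
      ((hyperfilter ℕ).map fun N => cN N t) (by simp)
    exact ⟨x, hx⟩
  choose c hcl using hlim
  have hsmall : Tendsto (fun N : ℕ => d / ((N : ℝ) + 1)) (hyperfilter ℕ : Filter ℕ) (𝓝 0) := by
    have h1 : Tendsto (fun N : ℕ => d / ((N : ℝ) + 1)) atTop (𝓝 0) := by
      have := tendsto_one_div_add_atTop_nhds_zero_nat (𝕜 := ℝ)
      simpa [div_eq_mul_inv] using this.const_mul d
    exact h1.mono_left (hyperfilter_le_cofinite.trans (Nat.cofinite_eq_atTop).le)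
  refine ⟨c, fun s t => ?_, fun t ht => ?_, fun t ht => ?_⟩
  · have h1 := (hcl s).dist (hcl t)
    have h2 : Tendsto (fun N : ℕ => |s - t| + d / ((N : ℝ) + 1)) (hyperfilter ℕ : Filter ℕ)
        (𝓝 (|s - t| + 0)) := tendsto_const_nhds.add hsmall
    simpa using le_of_tendsto_of_tendsto' h1 h2 fun N => hc N s t
  · have : (fun N => cN N t) = fun _ => u := by
      funext N
      simp only [cN]
      rw [Nat.floor_of_nonpos, hw0]
      apply div_nonpos_of_nonpos_of_nonneg _ hd.le
      exact mul_nonpos_of_nonpos_of_nonneg ht (by positivity)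
    have h1 := hcl t
    rw [this] at h1
    exact tendsto_nhds_unique h1 tendsto_const_nhds
  · have : (fun N => cN N t) = fun _ => v := by
      funext N
      simp only [cN]
      apply hwN
      apply Nat.le_floor
      push_cast
      rw [le_div_iff₀ hd]
      have : (0 : ℝ) < N + 1 := by positivity
      nlinarith
    have h1 := hcl t
    rw [this] at h1
    exact tendsto_nhds_unique h1 tendsto_const_nhds

/-- A segment through a prescribed intermediate point. -/
theorem exists_isSeg_through (hgeo : ∀ u v : M, ∃ c, IsSeg u v c) {u v w : M} {τ : ℝ}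
    (h1 : dist u w ≤ τ) (h2 : dist w v ≤ dist u v - τ) : ∃ c, IsSeg u v c ∧ c τ = w := by
  obtain ⟨c₁, hc₁⟩ := hgeo u w
  obtain ⟨c₂, hc₂⟩ := hgeo w v
  have hτ : 0 ≤ τ := dist_nonneg.trans h1
  have hτ' : τ ≤ dist u v := by linarith [dist_nonneg (x := w) (y := v)]
  refine ⟨fun t => if t ≤ τ then c₁ t else c₂ (t - τ), ⟨?_, ?_, ?_⟩, ?_⟩
  · apply lip_concat (c₂ := fun t => c₂ (t - τ)) hc₁.1
    · intro s t
      simpa using hc₂.1 (s - τ) (t - τ)
    · simp [hc₁.2.2 τ h1, hc₂.2.1 0 le_rfl]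
  · intro t ht
    simp [ht.trans hτ, hc₁.2.1 t ht]
  · intro t ht
    by_cases h : t ≤ τ
    · have e : t = τ := le_antisymm h (hτ'.trans ht)
      have : dist w v ≤ 0 := by linarith
      have hwv : w = v := dist_le_zero.1 this
      simp only [h, if_true]
      rw [e, hc₁.2.2 τ h1, hwv]
    · simp only [h, if_false]
      exact hc₂.2.2 _ (by linarith)
  · simp [hc₁.2.2 τ h1]

end Pool.Agent.Lib.MP_3eff7f_gt
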