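import Pool.Agent.Lib.MP_3eff7f_gt.Birkhoff

set_option autoImplicit false

open Set Filter Topology Metric

namespace Pool.Agent.Lib.MP_3eff7f_gt

section Htp

variable {Z X : Type*} [TopologicalSpace Z] [TopologicalSpace X]

/-- Homotopy through maps satisfying `P`. -/
def Htp (P : (Z → X) → Prop) (f g : Z → X) : Prop :=
  ∃ H : ℝ → Z → X, Continuous (fun p : ℝ × Z => H p.1 p.2) ∧ H 0 = f ∧ H 1 = g ∧
    ∀ t ∈ Icc (0 : ℝ) 1, P (H t)

namespace Htp

variable {P : (Z → X) → Prop} {f g h : Z → X}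

theorem refl (hf : Continuous f) (hP : P f) : Htp P f f :=
  ⟨fun _ => f, hf.comp continuous_snd, rfl, rfl, fun _ _ => hP⟩

theorem symm (h : Htp P f g) : Htp P g f := by
  obtain ⟨H, hc, h0, h1, hP⟩ := h
  refine ⟨fun t => H (1 - t), ?_, by simpa using h1, by simpa using h0,
    fun t ht => hP _ ⟨by linarith [ht.2], by linarith [ht.1]⟩⟩
  exact hc.comp (f := fun p : ℝ × Z => (1 - p.1, p.2)) (by fun_prop)

theorem trans (h₁ : Htp P f g) (h₂ : Htp P g h) : Htp P f h := by
  obtain ⟨H, hc, h0, h1, hP⟩ := h₁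
  obtain ⟨H', hc', h0', h1', hP'⟩ := h₂
  refine ⟨fun t z => if t ≤ 1 / 2 then H (2 * t) z else H' (2 * t - 1) z, ?_, ?_, ?_, ?_⟩
  · refine Continuous.if_le (f := fun p : ℝ × Z => p.1) (g := fun _ => 1 / 2) ?_ ?_
      continuous_fst continuous_const ?_
    · exact hc.comp (f := fun p : ℝ × Z => (2 * p.1, p.2)) (by fun_prop)
    · exact hc'.comp (f := fun p : ℝ × Z => (2 * p.1 - 1, p.2)) (by fun_prop)
    · intro p hp
      rw [hp]
      norm_num
      rw [h1, h0']
  · funext z
    norm_num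
    rw [h0]
  · funext z
    norm_num
    rw [h1']
  · intro t ht
    by_cases h : t ≤ 1 / 2
    · simp only [h, if_true]
      exact hP _ ⟨by linarith [ht.1], by linarith⟩
    · simp only [h, if_false]
      exact hP' _ ⟨by linarith, by linarith [ht.2]⟩

theorem mono {Q : (Z → X) → Prop} (h : Htp P f g) (hPQ : ∀ φ, P φ → Q φ) : Htp Q f g := by
  obtain ⟨H, hc, h0, h1, hP⟩ := h
  exact ⟨H, hc, h0, h1, fun t ht => hPQ _ (hP t ht)⟩

theorem continuous_left (h : Htp P f g) : Continuous f := by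
  obtain ⟨H, hc, h0, -, -⟩ := h
  rw [← h0]
  exact hc.comp (f := fun z : Z => ((0 : ℝ), z)) (by fun_prop)

theorem continuous_right (h : Htp P f g) : Continuous g := h.symm.continuous_left

theorem prop_right (h : Htp P f g) : P g := by
  obtain ⟨H, -, -, h1, hP⟩ := h
  rw [← h1]
  exact hP 1 ⟨zero_le_one, le_rfl⟩

theorem prop_left (h : Htp P f g) : P f := h.symm.prop_right

theorem chain {c : ℕ → Z → X} (h0 : Continuous (c 0)) (hP : P (c 0))
    (h : ∀ j, Htp P (c j) (c (j + 1))) (j : ℕ) : Htp P (c 0) (c j) := by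
  induction j with
  | zero => exact refl h0 hP
  | succ j ih => exact ih.trans (h j)

theorem comp {Z' : Type*} [TopologicalSpace Z'] {Q : (Z' → X) → Prop} {θ : Z' → Z}
    (hθ : Continuous θ) (h : Htp P f g) (hPQ : ∀ φ, P φ → Q (φ ∘ θ)) :
    Htp Q (f ∘ θ) (g ∘ θ) := by
  obtain ⟨H, hc, h0, h1, hP⟩ := h
  refine ⟨fun t => H t ∘ θ, ?_, by simp only [h0], by simp only [h1],
    fun t ht => hPQ _ (hP t ht)⟩
  exact hc.comp (f := fun p : ℝ × Z' => (p.1, θ p.2)) (by fun_prop)

theorem postcomp {X' : Type*} [TopologicalSpace X'] {Q : (Z → X') → Prop} {θ : X → X'}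
    (hθ : Continuous θ) (h : Htp P f g) (hPQ : ∀ φ, P φ → Q (θ ∘ φ)) :
    Htp Q (θ ∘ f) (θ ∘ g) := by
  obtain ⟨H, hc, h0, h1, hP⟩ := h
  exact ⟨fun t => θ ∘ H t, hθ.comp hc, by simp only [h0], by simp only [h1],
    fun t ht => hPQ _ (hP t ht)⟩

end Htp

end Htp

section Close

variable {Z X : Type*} [TopologicalSpace Z] [MetricSpace X] [CompactSpace X]

theorem GeoData.htp_of_close {r : ℝ} (G : GeoData X r) {P : (Z → X) → Prop} {f g : Z → X}
    (hf : Continuous f) (hg : Continuous g) (hd : ∀ z, dist (f z) (g z) < r)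
    (hP : ∀ F : X → X → X, (∀ u, F u u = u) → P fun z => F (f z) (g z)) : Htp P f g := by
  refine ⟨fun t z => seg (f z) (g z) (t * dist (f z) (g z)), ?_, ?_, ?_, fun t _ => ?_⟩
  · have h1 : Continuous fun p : ℝ × Z =>
        ((f p.2, g p.2, p.1 * dist (f p.2) (g p.2)) : X × X × ℝ) := by fun_prop
    exact G.continuousOn_seg.comp_continuous h1 fun p => hd p.2
  · funext z
    exact (G.seg_spec _ _).2.1 _ (by simp)
  · funext z
    exact (G.seg_spec _ _).2.2 _ (by simp)
  · exact hP (fun u v => seg u v (t * dist u v)) fun u => (G.seg_spec _ _).2.1 _ (by simp)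

end Close

section Null

variable {V X : Type*} [NormedAddCommGroup V] [TopologicalSpace X]

/-- Constant outside the ball of radius `R`. -/
def CstOut (R : ℝ) (φ : V → X) : Prop := ∀ x y, R ≤ ‖x‖ → R ≤ ‖y‖ → φ x = φ y

/-- Freely null-homotopic as a map from the one point compactification. -/
def Null (f : V → X) : Prop := ∃ (R : ℝ) (p : X), Htp (CstOut R) f fun _ => p

omit [TopologicalSpace X] in
theorem CstOut.mono {R R' : ℝ} {φ : V → X} (h : CstOut R φ) (hR : R ≤ R') : CstOut R' φ :=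
  fun x y hx hy => h x y (hR.trans hx) (hR.trans hy)

theorem Null.of_htp {R : ℝ} {f g : V → X} (h : Htp (CstOut R) f g) (hg : Null g) : Null f := by
  obtain ⟨R', p, h'⟩ := hg
  exact ⟨max R R', p, (h.mono fun _ hφ => hφ.mono (le_max_left _ _)).trans
    (h'.mono fun _ hφ => hφ.mono (le_max_right _ _))⟩

theorem Null.comp {V' : Type*} [NormedAddCommGroup V'] {f : V → X} {θ : V' → V}
    (hθ : Continuous θ) (hp : ∀ R, ∃ R', ∀ x, R' ≤ ‖x‖ → R ≤ ‖θ x‖) (h : Null f) :
    Null (f ∘ θ) := by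
  obtain ⟨R, p, h⟩ := h
  obtain ⟨R', hR'⟩ := hp R
  exact ⟨R', p, h.comp hθ fun φ hφ x y hx hy => hφ _ _ (hR' x hx) (hR' y hy)⟩

theorem Null.postcomp {X' : Type*} [TopologicalSpace X'] {f : V → X} {θ : X → X'}
    (hθ : Continuous θ) (h : Null f) : Null (θ ∘ f) := by
  obtain ⟨R, p, h⟩ := h
  exact ⟨R, θ p, h.postcomp hθ fun φ hφ x y hx hy => congrArg θ (hφ x y hx hy)⟩

theorem Null.of_smul [NormedSpace ℝ V] {f : V → X} {c : ℝ} (hc : 0 < c)
    (h : Null fun x => f (c • x)) : Null f := by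
  have := h.comp (θ := fun x : V => c⁻¹ • x) (by fun_prop) (fun R => ⟨c * R, fun x hx => by
    rw [norm_smul, Real.norm_eq_abs, abs_of_pos (inv_pos.2 hc), le_inv_mul_iff₀ hc]
    exact hx⟩)
  have e : ((fun x => f (c • x)) ∘ fun x : V => c⁻¹ • x) = f := by
    funext x
    simp [smul_smul, hc.ne']
  rwa [e] at this

end Null

theorem exists_descend {A B X : Type*} [TopologicalSpace A] [TopologicalSpace B]
    [TopologicalSpace X] [CompactSpace A] [T2Space B] {Q : A → B} (hQ : Continuous Q)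
    (hs : Function.Surjective Q) {H : A → X} (hH : Continuous H)
    (hf : ∀ a a', Q a = Q a' → H a = H a') : ∃ G : B → X, Continuous G ∧ ∀ a, G (Q a) = H a := by
  have hq : IsQuotientMap Q := hQ.isClosedMap.isQuotientMap hQ hs
  have e : ∀ a, H (Function.surjInv hs (Q a)) = H a := fun a =>
    hf _ _ (Function.surjInv_eq hs _)
  refine ⟨fun b => H (Function.surjInv hs b), ?_, e⟩
  rw [hq.continuous_iff]
  have : ((fun b => H (Function.surjInv hs b)) ∘ Q) = H := funext e
  rwa [this]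

section Clk

variable {X : Type*} [MetricSpace X]

/-- The curve `γ` has length at most `c` on `[a, b]`. -/
def Clk (γ : ℝ → X) (a b c : ℝ) : Prop :=
  ∃ φ : ℝ → ℝ, φ b - φ a ≤ c ∧ ∀ s t, a ≤ s → s ≤ t → t ≤ b → dist (γ s) (γ t) ≤ φ t - φ s

namespace Clk

variable {γ : ℝ → X} {a b c : ℝ}

theorem mono {c' : ℝ} (h : Clk γ a b c) (hc : c ≤ c') : Clk γ a b c' := by
  obtain ⟨φ, h1, h2⟩ := h
  exact ⟨φ, h1.trans hc, h2⟩

theorem congr {γ' : ℝ → X} (h : Clk γ a b c) (he : ∀ t, a ≤ t → t ≤ b → γ' t = γ t) :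
    Clk γ' a b c := by
  obtain ⟨φ, h1, h2⟩ := h
  refine ⟨φ, h1, fun s t hs hst ht => ?_⟩
  rw [he s hs (hst.trans ht), he t (hs.trans hst) ht]
  exact h2 s t hs hst ht

theorem of_const (h : ∀ s t, a ≤ s → s ≤ t → t ≤ b → γ s = γ t) : Clk γ a b 0 :=
  ⟨fun _ => 0, by simp, fun s t hs hst ht => by simp [h s t hs hst ht]⟩

theorem trans {d c' : ℝ} (hab : a ≤ b) (hbd : b ≤ d) (h₁ : Clk γ a b c) (h₂ : Clk γ b d c') :
    Clk γ a d (c + c') := by
  obtain ⟨φ, h1, h2⟩ := h₁
  obtain ⟨ψ, h3, h4⟩ := h₂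
  refine ⟨fun t => φ (min t b) + ψ (max t b), ?_, fun s t hs hst ht => ?_⟩
  · simp only [min_eq_right hbd, max_eq_left hbd, min_eq_left hab, max_eq_right hab]
    linarith
  · rcases le_total t b with h | h
    · simp only [min_eq_left h, max_eq_right h, min_eq_left (hst.trans h),
        max_eq_right (hst.trans h)]
      linarith [h2 s t hs hst h]
    · rcases le_total s b with h' | h'
      · simp only [min_eq_right h, max_eq_left h, min_eq_left h', max_eq_right h']
        linarith [h2 s b hs h' le_rfl, h4 b t le_rfl h ht, dist_triangle (γ s) (γ b) (γ t)]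
      · simp only [min_eq_right h, max_eq_left h, min_eq_right h', max_eq_left h']
        linarith [h4 s t h' hst ht]

theorem comp_mono {a' b' : ℝ} {σ : ℝ → ℝ} (h : Clk γ a b c) (hab : a' ≤ b')
    (hσ : ∀ s t, a' ≤ s → s ≤ t → t ≤ b' → σ s ≤ σ t) (ha : a ≤ σ a') (hb : σ b' ≤ b) :
    Clk (fun t => γ (σ t)) a' b' c := by
  obtain ⟨φ, h1, h2⟩ := h
  have hm := hσ a' b' le_rfl hab le_rfl
  refine ⟨fun t => φ (σ t), ?_, fun s t hs hst ht => h2 _ _ (ha.trans (hσ _ _ le_rfl hs
    (hst.trans ht))) (hσ _ _ hs hst ht) ((hσ _ _ (hs.trans hst) ht le_rfl).trans hb)⟩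
  have e1 := dist_nonneg.trans (h2 a (σ a') le_rfl ha (hm.trans hb))
  have e2 := dist_nonneg.trans (h2 (σ b') b (ha.trans hm) hb le_rfl)
  simp only
  linarith

theorem comp_anti {a' b' : ℝ} {σ : ℝ → ℝ} (h : Clk γ a b c) (hab : a' ≤ b')
    (hσ : ∀ s t, a' ≤ s → s ≤ t → t ≤ b' → σ t ≤ σ s) (ha : a ≤ σ b') (hb : σ a' ≤ b) :
    Clk (fun t => γ (σ t)) a' b' c := by
  obtain ⟨φ, h1, h2⟩ := h
  have hm := hσ a' b' le_rfl hab le_rfl
  refine ⟨fun t => -φ (σ t), ?_, fun s t hs hst ht => ?_⟩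
  · have e1 := dist_nonneg.trans (h2 a (σ b') le_rfl ha (hm.trans hb))
    have e2 := dist_nonneg.trans (h2 (σ a') b (ha.trans hm) hb le_rfl)
    simp only
    linarith
  · have := h2 (σ t) (σ s) (ha.trans (hσ _ _ (hs.trans hst) ht le_rfl)) (hσ _ _ hs hst ht)
      ((hσ _ _ le_rfl hs (hst.trans ht)).trans hb)
    rw [dist_comm]
    simp only
    linarith

theorem nonneg (hab : a ≤ b) (h : Clk γ a b c) : 0 ≤ c := by
  obtain ⟨φ, h1, h2⟩ := h
  linarith [dist_nonneg.trans (h2 a b le_rfl hab le_rfl)]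

theorem sum_le (h : Clk γ a b c) (u : ℕ → ℝ) (N : ℕ) (hu : ∀ i, u i ≤ u (i + 1)) (h0 : a ≤ u 0)
    (hN : u N ≤ b) : ∑ i ∈ Finset.range N, dist (γ (u i)) (γ (u (i + 1))) ≤ c := by
  obtain ⟨φ, h1, h2⟩ := h
  have hm : Monotone u := monotone_nat_of_le_succ hu
  have e1 := dist_nonneg.trans (h2 a (u 0) le_rfl h0 ((hm (Nat.zero_le N)).trans hN))
  have e2 := dist_nonneg.trans (h2 (u N) b (h0.trans (hm (Nat.zero_le N))) hN le_rfl)
  calc ∑ i ∈ Finset.range N, dist (γ (u i)) (γ (u (i + 1)))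
      ≤ ∑ i ∈ Finset.range N, (φ (u (i + 1)) - φ (u i)) := by
        apply Finset.sum_le_sum
        intro i hi
        exact h2 _ _ (h0.trans (hm (Nat.zero_le i))) (hu i)
          ((hm (Finset.mem_range.1 hi)).trans hN)
    _ = φ (u N) - φ (u 0) := Finset.sum_range_sub (fun i => φ (u i)) N
    _ ≤ c := by linarith

/-- Subadditivity over a finite family of intervals outside of which the curve does not move. -/
theorem of_cover {ι : Type*} (S : Finset ι) (p q w : ι → ℝ) (hpq : ∀ i ∈ S, p i ≤ q i)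
    (hw : ∀ i ∈ S, Clk γ (p i) (q i) (w i))
    (hc : ∀ s t, a ≤ s → s ≤ t → t ≤ b → (∀ i ∈ S, t ≤ p i ∨ q i ≤ s) → γ s = γ t) :
    Clk γ a b (∑ i ∈ S, w i) := by
  classical
  have hφ : ∀ i, ∃ φ : ℝ → ℝ, i ∈ S → (Monotone φ ∧ (∀ s t, φ t - φ s ≤ w i) ∧
      ∀ s t, p i ≤ s → s ≤ t → t ≤ q i → dist (γ s) (γ t) ≤ φ t - φ s) := by
    intro i
    by_cases hi : i ∈ S
    · obtain ⟨φ, h1, h2⟩ := hw i hi
      have hm : ∀ s t, p i ≤ s → s ≤ t → t ≤ q i → φ s ≤ φ t := fun s t hs hst ht => by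
        linarith [dist_nonneg.trans (h2 s t hs hst ht)]
      have hl : ∀ t, p i ≤ max (p i) (min t (q i)) := fun t => le_max_left _ _
      have hr : ∀ t, max (p i) (min t (q i)) ≤ q i := fun t =>
        max_le (hpq i hi) (min_le_right _ _)
      refine ⟨fun t => φ (max (p i) (min t (q i))), fun _ => ⟨fun s t hst => hm _ _ (hl s)
        (max_le_max le_rfl (min_le_min hst le_rfl)) (hr t), fun s t => ?_, fun s t hs hst ht => ?_⟩⟩
      · linarith [hm _ _ le_rfl (hl s) (hr s), hm _ _ (hl t) (hr t) le_rfl]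
      · simp only [min_eq_left ht, min_eq_left (hst.trans ht), max_eq_right hs,
          max_eq_right (hs.trans hst)]
        exact h2 s t hs hst ht
    · exact ⟨fun _ => 0, fun h => absurd h hi⟩
  choose φ hφ using hφ
  have key : ∀ T : Finset ι, T ⊆ S → ∀ s t, s ≤ t →
      (∀ u v, s ≤ u → u ≤ v → v ≤ t → (∀ i ∈ T, v ≤ p i ∨ q i ≤ u) → γ u = γ v) →
      dist (γ s) (γ t) ≤ ∑ i ∈ T, (φ i t - φ i s) := by
    intro T
    induction T using Finset.induction_on with
    | empty =>
      intro _ s t hst h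
      simp [h s t le_rfl hst le_rfl (by simp)]
    | insert j T hj ih =>
      intro hT s t hst h
      have hjS : j ∈ S := hT (Finset.mem_insert_self _ _)
      have hTS : T ⊆ S := fun i hi => hT (Finset.mem_insert_of_mem hi)
      have hpqj := hpq j hjS
      obtain ⟨hm, -, hd⟩ := hφ j hjS
      rw [Finset.sum_insert hj]
      by_cases hout : t ≤ p j ∨ q j ≤ s
      · have := ih hTS s t hst fun u v hu huv hv hi => h u v hu huv hv (by
          intro i hi'
          rcases Finset.mem_insert.1 hi' with rfl | hi'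
          · rcases hout with h' | h'
            · exact Or.inl (hv.trans h')
            · exact Or.inr (h'.trans hu)
          · exact hi i hi')
        linarith [hm hst]
      · push Not at hout
        have e1 := ih hTS s (max s (p j)) (le_max_left _ _) fun u v hu huv hv hi => by
          rcases le_total s (p j) with h' | h'
          · rw [max_eq_right h'] at hv
            refine h u v hu huv (hv.trans hout.1.le) ?_
            intro i hi'
            rcases Finset.mem_insert.1 hi' with rfl | hi'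
            · exact Or.inl hv
            · exact hi i hi'
          · rw [max_eq_left h'] at hv
            rw [le_antisymm huv (hv.trans hu)]
        have e2 := ih hTS (min t (q j)) t (min_le_left _ _) fun u v hu huv hv hi => by
          rcases le_total t (q j) with h' | h'
          · rw [min_eq_left h'] at hu
            rw [le_antisymm huv (hv.trans hu)]
          · rw [min_eq_right h'] at hu
            refine h u v (hout.2.le.trans hu) huv hv ?_
            intro i hi'
            rcases Finset.mem_insert.1 hi' with rfl | hi'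
            · exact Or.inr hu
            · exact hi i hi'
        have hmid : max s (p j) ≤ min t (q j) :=
          max_le (le_min hst hout.2.le) (le_min hout.1.le hpqj)
        have e3 := hd _ _ (le_max_right s (p j)) hmid (min_le_right t (q j))
        have e4 := dist_triangle4 (γ s) (γ (max s (p j))) (γ (min t (q j))) (γ t)
        have e5 : ∑ i ∈ T, (φ i (max s (p j)) - φ i s) + ∑ i ∈ T, (φ i t - φ i (min t (q j))) ≤
            ∑ i ∈ T, (φ i t - φ i s) := by
          rw [← Finset.sum_add_distrib]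
          apply Finset.sum_le_sum
          intro i hi
          linarith [(hφ i (hTS hi)).1 hmid]
        linarith [hm (le_max_left s (p j)), hm (min_le_left t (q j))]
  refine ⟨fun t => ∑ i ∈ S, φ i t, ?_, fun s t hs hst ht => ?_⟩
  · rw [← Finset.sum_sub_distrib]
    exact Finset.sum_le_sum fun i hi => (hφ i hi).2.1 a b
  · rw [← Finset.sum_sub_distrib]
    exact key S subset_rfl s t hst fun u v hu huv hv hi =>
      hc u v (hs.trans hu) huv (hv.trans ht) hi

end Clk

end Clk

end Pool.Agent.Lib.MP_3eff7f_gt
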