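import Pool.Agent.Lib.MP_3eff7f_gt.Homot

set_option autoImplicit false

open Set Filter Topology Metric

namespace Pool.Agent.Lib.MP_3eff7f_gt

variable {X : Type*} [MetricSpace X]

noncomputable def Len (N : ℕ) (x : ℤ → X) : ℝ :=
  ∑ i ∈ Finset.range N, dist (x i) (x (i + 1))

theorem continuous_Len (N : ℕ) : Continuous (Len (X := X) N) := by
  unfold Len
  fun_prop

/-- Homotopies through loops which fix the constant loops of `Γ`. -/
def LoopP {H : Type*} (Γ : H × ℝ → X) (φ : H × ℝ → X) : Prop :=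
  (∀ h t, t ≤ 0 ∨ 1 ≤ t → φ (h, t) = φ (h, 0)) ∧
    ∀ h, (∀ t, Γ (h, t) = Γ (h, 0)) → ∀ t, φ (h, t) = Γ (h, 0)

namespace GeoData

variable {r : ℝ} (G : GeoData X r)
include G

theorem Len_Phi_le {N : ℕ} {a : ℝ} {x : ℤ → X} (hx : x ∈ XS id N a) :
    Len N (Phi x) ≤ Len N x := by
  have hper : ∀ i : ℤ, dist (x (i + N)) (x (i + N + 1)) = dist (x i) (x (i + 1)) := by
    intro i
    rw [hx.1, add_right_comm, hx.1]
    rfl
  have h := sum_shift (f := fun i => dist (x i) (x (i + 1))) hper
  unfold Len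
  calc ∑ i ∈ Finset.range N, dist (Phi x i) (Phi x (i + 1))
      ≤ ∑ i ∈ Finset.range N, (dist (x i) (x (i + 1)) + dist (x (i + 1)) (x (i + 1 + 1))) / 2 :=
        Finset.sum_le_sum fun i _ => G.dist_Phi_le x i
    _ = _ := by
        rw [← Finset.sum_div, Finset.sum_add_distrib, h]
        ring

theorem exists_iterate_small [CompactSpace X] {ℓ : ℝ} (hℓ : 0 ≤ ℓ)
    (hno : ¬ HasShortGeodesic X ℓ) {N : ℕ} (hN : 0 < N) {a : ℝ} (ha : a < r) {η : ℝ}
    (hη : 0 < η) : ∃ K : ℕ, ∀ x ∈ XS (id : X → X) N a, Len N x ≤ ℓ → En N (Phi^[K] x) < η := by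
  have hσ : Isometry (id : X → X) := isometry_id
  have hdec : ∀ x ∈ XS (id : X → X) N a, Len N x ≤ ℓ → η ≤ En N x → En N (Phi x) < En N x := by
    intro x hx hl hx'
    by_contra hc
    have hc := le_of_not_gt hc
    apply hno
    have hcr := G.critical hσ hN ha hx hc
    have hE : En N x = N * dist (x 0) (x 1) ^ 2 := by
      unfold En
      rw [Finset.sum_congr rfl fun i _ => by rw [(hcr i).1]]
      simp
    have hL : Len N x = N * dist (x 0) (x 1) := by
      unfold Len
      rw [Finset.sum_congr rfl fun i _ => by rw [(hcr i).1]]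
      simp
    have := G.hasShortGeodesic_of_critical hσ 1 one_pos (fun _ => rfl) hN ha hx hc
      (hη.trans_le hx') hℓ (by
        have h0 : 0 ≤ Len N x := by rw [hL]; positivity
        calc N * En N x = Len N x ^ 2 := by rw [hE, hL]; ring
          _ ≤ ℓ ^ 2 := pow_le_pow_left₀ h0 hl 2)
    simpa using this
  have hK : IsCompact ((XS id N a ∩ {x : ℤ → X | Len N x ≤ ℓ}) ∩ {x | η ≤ En N x}) :=
    (((isClosed_XS hσ.continuous N a).inter
      (isClosed_le (continuous_Len N) continuous_const)).inter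
      (isClosed_le continuous_const (continuous_En N))).isCompact
  obtain ⟨δ, hδ, hδle⟩ : ∃ δ > 0, ∀ x ∈ XS (id : X → X) N a, Len N x ≤ ℓ → η ≤ En N x →
      En N (Phi x) ≤ En N x - δ := by
    rcases ((XS id N a ∩ {x : ℤ → X | Len N x ≤ ℓ}) ∩ {x | η ≤ En N x}).eq_empty_or_nonempty
      with he | hne
    · refine ⟨1, one_pos, fun x hx hl hx' => ?_⟩
      have : x ∈ (XS id N a ∩ {x : ℤ → X | Len N x ≤ ℓ}) ∩ {x | η ≤ En N x} := ⟨⟨hx, hl⟩, hx'⟩
      rw [he] at this
      exact this.elim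
    · obtain ⟨x₀, hx₀, hmin⟩ := hK.exists_isMinOn (f := fun x => En N x - En N (Phi x)) hne
        ((continuous_En N).continuousOn.sub ((continuous_En N).comp_continuousOn
          ((G.continuousOn_Phi ha).mono (inter_subset_left.trans inter_subset_left))))
      refine ⟨En N x₀ - En N (Phi x₀), sub_pos.2 (hdec x₀ hx₀.1.1 hx₀.1.2 hx₀.2),
        fun x hx hl hx' => ?_⟩
      have : En N x₀ - En N (Phi x₀) ≤ En N x - En N (Phi x) :=
        hmin (show x ∈ _ from ⟨⟨hx, hl⟩, hx'⟩)
      linarith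
  have key : ∀ k : ℕ, ∀ x ∈ XS (id : X → X) N a, Len N x ≤ ℓ → (Phi^[k] x ∈ XS id N a ∧
      Len N (Phi^[k] x) ≤ ℓ) ∧
      (En N (Phi^[k] x) < η ∨ En N (Phi^[k] x) ≤ N * a ^ 2 - k * δ) := by
    intro k x hx hl
    induction k with
    | zero => exact ⟨⟨hx, hl⟩, Or.inr (by simpa using En_le hx)⟩
    | succ k ih =>
      rw [Function.iterate_succ_apply']
      refine ⟨⟨G.Phi_mem hσ ha ih.1.1, (G.Len_Phi_le ih.1.1).trans ih.1.2⟩, ?_⟩
      by_cases h : En N (Phi^[k] x) < η
      · exact Or.inl ((G.En_Phi_le hσ ih.1.1).trans_lt h)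
      · right
        have h1 := hδle _ ih.1.1 ih.1.2 (le_of_not_gt h)
        have h2 := ih.2.resolve_left h
        push_cast
        linarith
  obtain ⟨K, hKgt⟩ := exists_nat_gt (N * a ^ 2 / δ)
  refine ⟨K, fun x hx hl => ?_⟩
  rcases (key K x hx hl).2 with h | h
  · exact h
  · rw [div_lt_iff₀ hδ] at hKgt
    linarith

theorem exists_interp [CompactSpace X] {Z : Type*} [TopologicalSpace Z] {x : Z → ℤ → X}
    (hx : Continuous x) (hd : ∀ z i, dist (x z i) (x z (i + 1)) < r) (N : ℕ) :
    ∃ c : Z × ℝ → X, Continuous c ∧ (∀ z t, t ≤ 0 → c (z, t) = x z 0) ∧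
      (∀ z t, (N : ℝ) ≤ t → c (z, t) = x z N) ∧
      ∀ z (i : ℕ) t, i < N → (i : ℝ) ≤ t → t ≤ i + 1 →
        dist (x z i) (c (z, t)) ≤ dist (x z i) (x z (i + 1)) := by
  induction N with
  | zero =>
    refine ⟨fun p => x p.1 0, by fun_prop, fun _ _ _ => rfl, fun _ _ _ => by simp,
      fun _ i _ hi => by omega⟩
  | succ N ih =>
    obtain ⟨c, hc, h0, h1, h2⟩ := ih
    have hN0 : (0 : ℝ) ≤ N := by positivity
    refine ⟨fun p => if p.2 ≤ N then c p else
      seg (x p.1 N) (x p.1 (N + 1)) ((p.2 - N) * dist (x p.1 N) (x p.1 (N + 1))), ?_, ?_, ?_, ?_⟩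
    · refine Continuous.if_le (f := fun p : Z × ℝ => p.2) (g := fun _ => (N : ℝ)) hc ?_
        continuous_snd continuous_const ?_
      · have h3 : Continuous fun p : Z × ℝ => ((x p.1 N, x p.1 (N + 1),
            (p.2 - N) * dist (x p.1 N) (x p.1 (N + 1))) : X × X × ℝ) := by fun_prop
        exact G.continuousOn_seg.comp_continuous h3 fun p => hd _ _
      · rintro ⟨z, t⟩ hp
        simp only at hp
        rw [h1 z t hp.ge, (G.seg_spec _ _).2.1 _ (by simp [hp])]
    · intro z t ht
      simp only [ht.trans hN0, if_true, h0 z t ht]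
    · intro z t ht
      push_cast at ht ⊢
      have : ¬ t ≤ N := by linarith
      simp only [this, if_false]
      apply (G.seg_spec _ _).2.2
      have := dist_nonneg (x := x z N) (y := x z (N + 1))
      nlinarith
    · intro z i t hi h3 h4
      by_cases ht : t ≤ N
      · simp only [ht, if_true]
        rcases Nat.lt_succ_iff_lt_or_eq.1 hi with hi | rfl
        · exact h2 z i t hi h3 h4
        · rw [h1 z t h3, dist_self]
          exact dist_nonneg
      · simp only [ht, if_false]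
        have : i = N := by
          have : (N : ℝ) < i + 1 := by linarith
          have : N < i + 1 := by exact_mod_cast this
          omega
        subst this
        exact (G.dist_left_seg _ _ _).trans (max_le dist_nonneg (min_le_right _ _))

theorem loop_contract [CompactSpace X] {ℓ : ℝ} (hℓ : 0 ≤ ℓ) (hno : ¬ HasShortGeodesic X ℓ)
    {H : Type*} [MetricSpace H] [CompactSpace H] {Γ : H × ℝ → X} (hc : Continuous Γ)
    (hend : ∀ h t, t ≤ 0 ∨ 1 ≤ t → Γ (h, t) = Γ (h, 0))
    (hlen : ∀ h, Clk (fun t => Γ (h, t)) 0 1 ℓ) :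
    ∃ g : H → X, Htp (LoopP Γ) Γ fun z => g z.1 := by
  have hr := G.pos
  have hσ : Isometry (id : X → X) := isometry_id
  set a := r / 4 with ha
  have har : a < r := by linarith
  have huc : UniformContinuousOn Γ (univ ×ˢ Icc 0 1) :=
    (isCompact_univ.prod isCompact_Icc).uniformContinuousOn_of_continuous hc.continuousOn
  obtain ⟨δ, hδ, hδu⟩ := Metric.uniformContinuousOn_iff.1 huc a (by linarith)
  obtain ⟨N, hNgt⟩ := exists_nat_gt (1 / δ)
  have hNpos : (0 : ℝ) < N := lt_trans (by positivity) hNgt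
  have hN : 0 < N := by exact_mod_cast hNpos
  have hN' : (0 : ℤ) < N := by exact_mod_cast hN
  have hNδ : 1 / (N : ℝ) < δ := by
    rw [div_lt_iff₀ hδ] at hNgt
    rw [div_lt_iff₀ hNpos]
    linarith
  have hclose : ∀ h s t, s ∈ Icc (0 : ℝ) 1 → t ∈ Icc (0 : ℝ) 1 → |s - t| ≤ 1 / N →
      dist (Γ (h, s)) (Γ (h, t)) ≤ a := by
    intro h s t hs ht hst
    refine (hδu (h, s) ⟨trivial, hs⟩ (h, t) ⟨trivial, ht⟩ ?_).le
    rw [Prod.dist_eq, dist_self, Real.dist_eq]
    exact max_lt hδ (hst.trans_lt hNδ)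
  let x : H → ℤ → X := fun h i => Γ (h, ((i % N : ℤ) : ℝ) / N)
  have hxc : Continuous x := by
    rw [continuous_pi_iff]
    intro i
    exact hc.comp (f := fun h : H => (h, ((i % N : ℤ) : ℝ) / N)) (by fun_prop)
  have hxnat : ∀ h (i : ℕ), i ≤ N → x h i = Γ (h, i / N) := by
    intro h i hi
    rcases hi.lt_or_eq with hi | rfl
    · have : (i : ℤ) % N = i := Int.emod_eq_of_lt (by positivity) (by exact_mod_cast hi)
      simp only [x, this, Int.cast_natCast]
    · simp only [x, Int.emod_self, Int.cast_zero, zero_div]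
      exact (hend h _ (Or.inr (by rw [div_self hNpos.ne']))).symm
  have hper : ∀ h i, x h (i + N) = x h i := fun h i => by simp [x]
  have hxm : ∀ h, x h ∈ XS id N a := by
    intro h
    refine ⟨hper h, fun i => ?_⟩
    obtain ⟨k, hk, e⟩ := periodic_int_ext hN (f := fun i => dist (x h i) (x h (i + 1)))
      (fun i => by rw [add_right_comm, hper, hper]) i
    have hk := Finset.mem_range.1 hk
    have hk' : (k : ℝ) + 1 ≤ N := by exact_mod_cast hk
    rw [e, hxnat h k hk.le]
    have := hxnat h (k + 1) hk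
    push_cast at this
    rw [this]
    apply hclose
    · exact ⟨by positivity, by rw [div_le_one hNpos]; linarith⟩
    · exact ⟨by positivity, by rw [div_le_one hNpos]; linarith⟩
    · rw [← sub_div, abs_div, abs_of_pos hNpos]
      simp
  have hxl : ∀ h, Len N (x h) ≤ ℓ := by
    intro h
    have := (hlen h).sum_le (fun i => i / N) N (fun i => by push_cast; gcongr; linarith) (by simp)
      (by rw [div_self hNpos.ne'])
    refine le_trans (le_of_eq ?_) this
    unfold Len
    apply Finset.sum_congr rfl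
    intro i hi
    have hi := Finset.mem_range.1 hi
    rw [hxnat h i hi.le, ← hxnat h (i + 1) hi]
    push_cast
    rfl
  obtain ⟨K, hK⟩ := G.exists_iterate_small hℓ hno hN har (η := a ^ 2 / N) (by positivity)
  have hym : ∀ j h, Phi^[j] (x h) ∈ XS id N a := fun j h => G.iterate_mem hσ har (hxm h) j
  have hint := fun j => G.exists_interp (G.continuous_iterate hσ har hxc hxm j)
    (fun h i => ((hym j h).2 i).trans_lt har) N
  choose c hcc hc0 hc1 hc2 using hint
  let d : ℕ → H × ℝ → X := fun j p => c j (p.1, N * p.2)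
  have hdc : ∀ j, Continuous (d j) := fun j =>
    (hcc j).comp (f := fun p : H × ℝ => (p.1, N * p.2)) (by fun_prop)
  have hloc : ∀ t : ℝ, (t ≤ 0 ∨ 1 ≤ t) ∨
      ∃ i : ℕ, i < N ∧ (i : ℝ) ≤ N * t ∧ N * t ≤ i + 1 ∧ t ∈ Icc (0 : ℝ) 1 := by
    intro t
    by_cases h : t ≤ 0 ∨ 1 ≤ t
    · exact Or.inl h
    · push Not at h
      have h0 : 0 ≤ N * t := by nlinarith [h.1]
      refine Or.inr ⟨⌊N * t⌋₊, ?_, Nat.floor_le h0, (Nat.lt_floor_add_one _).le, h.1.le, h.2.le⟩
      rw [Nat.floor_lt h0]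
      nlinarith [h.2]
  have hdend : ∀ j h t, t ≤ 0 ∨ 1 ≤ t → d j (h, t) = Phi^[j] (x h) 0 := by
    intro j h t ht
    rcases ht with ht | ht
    · exact hc0 j h _ (by simp only; nlinarith)
    · simp only [d]
      rw [hc1 j h _ (by nlinarith)]
      have := (hym j h).1 0
      simpa using this
  have hcst : ∀ j h, (∀ t, Γ (h, t) = Γ (h, 0)) → Phi^[j] (x h) = fun _ => Γ (h, 0) := by
    intro j h hh
    induction j with
    | zero => funext i; exact hh _
    | succ j ih =>
      rw [Function.iterate_succ_apply', ih]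
      funext i
      have := G.dist_left_mid (Γ (h, 0)) (Γ (h, 0))
      simp only [dist_self, zero_div, dist_le_zero] at this
      exact this.symm
  have hdP : ∀ j, LoopP Γ (d j) := by
    intro j
    refine ⟨fun h t ht => by rw [hdend j h t ht, hdend j h 0 (Or.inl le_rfl)], fun h hh t => ?_⟩
    rcases hloc t with ht | ⟨i, hi, h1, h2, -⟩
    · rw [hdend j h t ht, hcst j h hh]
    · have := hc2 j h i _ hi h1 h2
      rw [hcst j h hh] at this
      simp only [dist_self, dist_le_zero] at this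
      exact this.symm
  have hcomb : ∀ f g : H × ℝ → X, LoopP Γ f → LoopP Γ g → ∀ F : X → X → X, (∀ u, F u u = u) →
      LoopP Γ fun z => F (f z) (g z) := by
    intro f g hf hg F hF
    refine ⟨fun h t ht => by simp only [hf.1 h t ht, hg.1 h t ht], fun h hh t => ?_⟩
    simp only [hf.2 h hh t, hg.2 h hh t, hF]
  have hΓP : LoopP Γ Γ := ⟨hend, fun h hh => hh⟩
  have hnear : ∀ j h (i : ℕ) t, i < N → (i : ℝ) ≤ N * t → N * t ≤ i + 1 →
      dist (Phi^[j] (x h) i) (d j (h, t)) ≤ a := fun j h i t hi h1 h2 =>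
    (hc2 j h i _ hi h1 h2).trans ((hym j h).2 i)
  have s1 : Htp (LoopP Γ) Γ (d 0) := by
    refine G.htp_of_close hc (hdc 0) ?_ (hcomb _ _ hΓP (hdP 0))
    rintro ⟨h, t⟩
    rcases hloc t with ht | ⟨i, hi, h1, h2, ht⟩
    · rw [hdend 0 h t ht, hend h t ht]
      have := hxnat h 0 (Nat.zero_le _)
      simp only [Nat.cast_zero, zero_div] at this
      simp [this, hr]
    · have e1 := hnear 0 h i t hi h1 h2
      rw [Function.iterate_zero_apply, hxnat h i hi.le] at e1
      have hi' : (i : ℝ) + 1 ≤ N := by exact_mod_cast hi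
      have e2 := hclose h t (i / N) ht ⟨by positivity, by rw [div_le_one hNpos]; linarith⟩ (by
        have : t - i / N = (N * t - i) / N := by field_simp
        rw [this, abs_div, abs_of_pos hNpos]
        gcongr
        rw [abs_le]
        constructor <;> linarith)
      linarith [dist_triangle (Γ (h, t)) (Γ (h, i / N)) (d 0 (h, t))]
  have hstep : ∀ j h i, dist (Phi^[j] (x h) i) (Phi^[j + 1] (x h) i) ≤ a / 2 := by
    intro j h i
    rw [Function.iterate_succ_apply']
    have h1 := G.dist_left_mid (Phi^[j] (x h) i) (Phi^[j] (x h) (i + 1))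
    exact h1.trans (by linarith [(hym j h).2 i])
  have s2 : Htp (LoopP Γ) (d 0) (d K) := by
    refine Htp.chain (hdc 0) (hdP 0) (fun j => ?_) K
    refine G.htp_of_close (hdc j) (hdc (j + 1)) ?_ (hcomb _ _ (hdP j) (hdP (j + 1)))
    rintro ⟨h, t⟩
    rcases hloc t with ht | ⟨i, hi, h1, h2, ht⟩
    · rw [hdend j h t ht, hdend (j + 1) h t ht]
      linarith [hstep j h 0]
    · have e1 := hnear j h i t hi h1 h2
      have e2 := hnear (j + 1) h i t hi h1 h2
      have e3 := hstep j h i
      have e4 := dist_triangle4 (d j (h, t)) (Phi^[j] (x h) i) (Phi^[j + 1] (x h) i)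
        (d (j + 1) (h, t))
      rw [dist_comm] at e1
      linarith
  have s3 : Htp (LoopP Γ) (d K) fun z => Phi^[K] (x z.1) 0 := by
    have hgc : Continuous fun z : H × ℝ => Phi^[K] (x z.1) 0 :=
      (continuous_apply 0).comp ((G.continuous_iterate hσ har hxc hxm K).comp continuous_fst)
    refine G.htp_of_close (hdc K) hgc ?_ (hcomb _ _ (hdP K)
      ⟨fun _ _ _ => rfl, fun h hh t => by simp only [hcst K h hh]⟩)
    rintro ⟨h, t⟩
    rcases hloc t with ht | ⟨i, hi, h1, h2, ht⟩
    · simp [hdend K h t ht, hr]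
    · have e1 := hnear K h i t hi h1 h2
      have e2 : dist (Phi^[K] (x h) 0) (Phi^[K] (x h) i) ≤ Len N (Phi^[K] (x h)) := by
        have := dist_le_range_sum_dist (fun i : ℕ => Phi^[K] (x h) i) i
        simp only [Nat.cast_zero, Nat.cast_add, Nat.cast_one] at this
        refine this.trans ?_
        exact Finset.sum_le_sum_of_subset_of_nonneg (Finset.range_mono hi.le)
          fun _ _ _ => dist_nonneg
      have e3 : Len N (Phi^[K] (x h)) ^ 2 ≤ N * En N (Phi^[K] (x h)) := by
        have h2 := sq_sum_le_card_mul_sum_sq (s := Finset.range N)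
          (f := fun i : ℕ => dist (Phi^[K] (x h) i) (Phi^[K] (x h) (i + 1)))
        rwa [Finset.card_range] at h2
      have e4 := hK _ (hxm h) (hxl h)
      rw [lt_div_iff₀ hNpos] at e4
      have e5 : Len N (Phi^[K] (x h)) ≤ a := by
        apply le_of_sq_le_sq _ (by linarith)
        linarith
      have e6 := dist_triangle_left (d K (h, t)) (Phi^[K] (x h) 0) (Phi^[K] (x h) i)
      rw [dist_comm] at e2
      simp only
      linarith
  exact ⟨fun h => Phi^[K] (x h) 0, s1.trans (s2.trans s3)⟩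

end GeoData

end Pool.Agent.Lib.MP_3eff7f_gt
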