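import Pool.Agent.Lib.MP_3eff7f_gt.Geo

set_option autoImplicit false

open Set Filter Topology Metric

namespace Pool.Agent.Lib.MP_3eff7f_gt

variable {M : Type*} [MetricSpace M]

/-- Geodesic space in which segments of length `< r` are unique. -/
structure GeoData (M : Type*) [MetricSpace M] (r : ℝ) : Prop where
  pos : 0 < r
  geo : ∀ u v : M, ∃ c, IsSeg u v c
  uniq : ∀ (u v : M) (c c' : ℝ → M), dist u v < r → IsSeg u v c → IsSeg u v c' → c = c'

open Classical in
noncomputable def seg (u v : M) : ℝ → M :=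
  if h : ∃ c, IsSeg u v c then h.choose else fun _ => u

noncomputable def mid (u v : M) : M := seg u v (dist u v / 2)

theorem seg_spec' (hgeo : ∀ u v : M, ∃ c, IsSeg u v c) (u v : M) : IsSeg u v (seg u v) := by
  unfold seg
  rw [dif_pos (hgeo u v)]
  exact (hgeo u v).choose_spec

namespace GeoData

variable {r : ℝ} (G : GeoData M r)
include G

theorem seg_spec (u v : M) : IsSeg u v (seg u v) := seg_spec' G.geo u v

theorem eq_seg {u v w : M} {τ : ℝ} (h : dist u v < r) (h1 : dist u w ≤ τ)
    (h2 : dist w v ≤ dist u v - τ) : w = seg u v τ := by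
  obtain ⟨c, hc, hw⟩ := exists_isSeg_through G.geo h1 h2
  rw [← G.uniq u v c _ h hc (G.seg_spec u v), hw]

theorem seg_clamp (u v : M) (t : ℝ) : seg u v t = seg u v (max 0 (min t (dist u v))) := by
  have h := G.seg_spec u v
  rcases le_total t 0 with h0 | h0
  · rw [h.2.1 t h0, h.2.1]
    exact max_le le_rfl ((min_le_left _ _).trans h0)
  · rcases le_total t (dist u v) with h1 | h1
    · rw [min_eq_left h1, max_eq_right h0]
    · rw [min_eq_right h1, max_eq_right dist_nonneg, h.2.2 t h1, h.2.2 _ le_rfl]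

theorem dist_left_seg (u v : M) (t : ℝ) :
    dist u (seg u v t) ≤ max 0 (min t (dist u v)) := by
  rw [G.seg_clamp]
  exact (G.seg_spec u v).dist_left_le (le_max_left _ _)

theorem dist_seg_right (u v : M) (t : ℝ) :
    dist (seg u v t) v ≤ dist u v - max 0 (min t (dist u v)) := by
  rw [G.seg_clamp]
  exact (G.seg_spec u v).dist_right_le (max_le dist_nonneg (min_le_right _ _))

theorem continuousOn_seg [CompactSpace M] :
    ContinuousOn (fun p : M × M × ℝ => seg p.1 p.2.1 p.2.2) {p | dist p.1 p.2.1 < r} := by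
  intro p hp
  apply ContinuousAt.continuousWithinAt
  apply isCompact_univ.tendsto_nhds_of_unique_mapClusterPt (Eventually.of_forall fun _ => trivial)
  intro w _ hw
  obtain ⟨U, hU, hUw⟩ := mapClusterPt_iff_ultrafilter.1 hw
  have t1 : Tendsto (fun q : M × M × ℝ => q.1) U (𝓝 p.1) :=
    (continuous_fst.tendsto p).mono_left hU
  have t2 : Tendsto (fun q : M × M × ℝ => q.2.1) U (𝓝 p.2.1) :=
    ((continuous_fst.comp continuous_snd).tendsto p).mono_left hU
  have t3 : Tendsto (fun q : M × M × ℝ => max 0 (min q.2.2 (dist q.1 q.2.1))) U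
      (𝓝 (max 0 (min p.2.2 (dist p.1 p.2.1)))) := by
    have : Continuous fun q : M × M × ℝ => max 0 (min q.2.2 (dist q.1 q.2.1)) := by fun_prop
    exact (this.tendsto p).mono_left hU
  show w = seg p.1 p.2.1 p.2.2
  rw [G.seg_clamp]
  apply G.eq_seg hp
  · exact le_of_tendsto_of_tendsto' (t1.dist hUw) t3 fun q => G.dist_left_seg _ _ _
  · exact le_of_tendsto_of_tendsto' (hUw.dist t2) ((t1.dist t2).sub t3)
      fun q => G.dist_seg_right _ _ _

theorem dist_left_mid (u v : M) : dist u (mid u v) ≤ dist u v / 2 :=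
  (G.seg_spec u v).dist_left_le (by positivity)

theorem dist_mid_right (u v : M) : dist (mid u v) v ≤ dist u v / 2 := by
  have := (G.seg_spec u v).dist_right_le (t := dist u v / 2)
    (by linarith [dist_nonneg (x := u) (y := v)])
  unfold mid
  linarith

theorem mid_isometry {σ : M → M} (hσ : Isometry σ) {u v : M} (h : dist u v < r) :
    mid (σ u) (σ v) = σ (mid u v) := by
  symm
  unfold mid
  apply G.eq_seg
  · rwa [hσ.dist_eq]
  · rw [hσ.dist_eq, hσ.dist_eq]
    exact G.dist_left_mid u v
  · rw [hσ.dist_eq, hσ.dist_eq]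
    have := G.dist_mid_right u v
    unfold mid at this
    linarith

theorem continuousOn_mid [CompactSpace M] :
    ContinuousOn (fun p : M × M => mid p.1 p.2) {p | dist p.1 p.2 < r} := by
  have h : Continuous fun p : M × M => ((p.1, p.2, dist p.1 p.2 / 2) : M × M × ℝ) := by fun_prop
  exact G.continuousOn_seg.comp h.continuousOn fun p hp => hp

end GeoData

/-- From an equally spaced, locally straight, periodic polygon to a periodic geodesic. -/
theorem exists_periodic_geodesic (hgeo : ∀ u v : M, ∃ c, IsSeg u v c) (z : ℤ → M) {s : ℝ}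
    (hs : 0 < s) (h1 : ∀ j, dist (z j) (z (j + 1)) = s) (h2 : ∀ j, dist (z j) (z (j + 2)) = 2 * s)
    (P : ℤ) (hP : ∀ j, z (j + P) = z j) :
    ∃ γ : ℝ → M, Function.Periodic γ (P * s) ∧
      ∀ t : ℝ, ∃ ε > 0, ∀ a b : ℝ, |a - t| < ε → |b - t| < ε → dist (γ a) (γ b) = |a - b| := by
  let γ : ℝ → M := fun t => seg (z ⌊t / s⌋) (z (⌊t / s⌋ + 1)) (t - ⌊t / s⌋ * s)
  have hloc : ∀ j : ℤ, ∀ t ∈ Icc (j * s) ((j + 1) * s),
      γ t = seg (z j) (z (j + 1)) (t - j * s) := by
    intro j t ht
    rcases ht.2.lt_or_eq with hlt | heq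
    · have : ⌊t / s⌋ = j := by
        rw [Int.floor_eq_iff]
        constructor
        · rw [le_div_iff₀ hs]; exact ht.1
        · rw [div_lt_iff₀ hs]; exact hlt
      simp only [γ, this]
    · have : ⌊t / s⌋ = j + 1 := by
        rw [heq, mul_div_assoc, div_self hs.ne', mul_one]
        exact_mod_cast Int.floor_intCast (j + 1)
      simp only [γ, this]
      rw [(seg_spec' hgeo _ _).2.1 _ (by rw [heq]; push_cast; linarith),
        (seg_spec' hgeo _ _).2.2 _ (by rw [h1, heq]; linarith)]
  refine ⟨γ, ?_, ?_⟩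
  · intro t
    have : ⌊(t + P * s) / s⌋ = ⌊t / s⌋ + P := by
      rw [add_div, mul_div_assoc, div_self hs.ne', mul_one, Int.floor_add_intCast]
    simp only [γ, this]
    rw [hP, add_right_comm, hP]
    congr 1
    push_cast
    ring
  · intro t
    set j : ℤ := ⌈t / s⌉ - 1 with hj
    have ht1 : j * s < t := by
      have := Int.ceil_lt_add_one (t / s)
      have h3 : (j : ℝ) < t / s := by rw [hj]; push_cast; linarith
      rwa [lt_div_iff₀ hs] at h3
    have ht2 : t ≤ (j + 1) * s := by
      have := Int.le_ceil (t / s)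
      have h3 : t / s ≤ (j : ℝ) + 1 := by rw [hj]; push_cast; linarith
      rwa [div_le_iff₀ hs] at h3
    have hγ : ∀ a ∈ Icc (j * s) ((j + 2) * s), γ a =
        if a ≤ (j + 1) * s then seg (z j) (z (j + 1)) (a - j * s)
        else seg (z (j + 1)) (z (j + 1 + 1)) (a - (j + 1) * s) := by
      intro a ha
      split_ifs with h
      · exact hloc j a ⟨ha.1, h⟩
      · have := hloc (j + 1) a ⟨by push_cast; linarith, by push_cast; linarith [ha.2]⟩
        simpa using this
    have hlip : ∀ a b, a ∈ Icc (j * s) ((j + 2) * s) → b ∈ Icc (j * s) ((j + 2) * s) →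
        dist (γ a) (γ b) ≤ |a - b| := by
      intro a b ha hb
      rw [hγ a ha, hγ b hb]
      apply lip_concat (c₁ := fun a => seg (z j) (z (j + 1)) (a - j * s))
        (c₂ := fun a => seg (z (j + 1)) (z (j + 1 + 1)) (a - (j + 1) * s))
      · intro a b
        simpa using (seg_spec' hgeo (z j) (z (j + 1))).1 (a - j * s) (b - j * s)
      · intro a b
        simpa using (seg_spec' hgeo (z (j + 1)) (z (j + 1 + 1))).1 (a - (j + 1) * s)
          (b - (j + 1) * s)
      · rw [(seg_spec' hgeo _ _).2.2 _ (by rw [h1]; linarith),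
          (seg_spec' hgeo _ _).2.1 _ (by linarith)]
    have hends : dist (γ (j * s)) (γ ((j + 2) * s)) = (j + 2) * s - j * s := by
      rw [hloc j _ ⟨le_rfl, by linarith⟩, (seg_spec' hgeo _ _).2.1 _ (by linarith)]
      have := hloc (j + 1) ((j + 2) * s) ⟨by push_cast; linarith, by push_cast; linarith⟩
      rw [this, (seg_spec' hgeo _ _).2.2 _ (by rw [h1]; push_cast; linarith), add_assoc]
      have e := h2 j
      norm_num
      linarith
    refine ⟨min (t - j * s) s, lt_min (by linarith) hs, fun a b ha hb => ?_⟩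
    have ha' := abs_lt.1 ha
    have hb' := abs_lt.1 hb
    have m1 := min_le_left (t - j * s) s
    have m2 := min_le_right (t - j * s) s
    exact dist_eq_of_lip_of_ends hlip hends ⟨by linarith, by linarith⟩ ⟨by linarith, by linarith⟩

end Pool.Agent.Lib.MP_3eff7f_gt
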