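import Pool.Agent.Lib.MP_3eff7f_gt.ChartData
import Pool.Agent.Lib.MP_3eff7f_gt.Seg

set_option autoImplicit false

open Set Filter Topology Metric

namespace Pool.Agent.Lib.MP_3eff7f_gt

variable {E : Type*} [NormedAddCommGroup E] [NormedSpace ℝ E] {M : Type*} [MetricSpace M]

theorem IsSeg.dist_left_le_dist {u v : M} {c : ℝ → M} (h : IsSeg u v c) (t : ℝ) :
    dist u (c t) ≤ dist u v := by
  rcases le_total t 0 with h0 | h0
  · rw [h.2.1 t h0, dist_self]; exact dist_nonneg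
  · rcases le_total t (dist u v) with h1 | h1
    · exact (h.dist_left_le h0).trans h1
    · rw [h.2.2 t h1]

theorem step_ineq {gβ ga gb : E →L[ℝ] E →L[ℝ] ℝ} (hβ : ∀ v w, gβ v w = gβ w v)
    (ha : ∀ v w, ga v w = ga w v) {lam K₁ K₂ s : ℝ} (hc : ∀ v, lam * ‖v‖ ^ 2 ≤ gβ v v)
    (h1 : ‖gβ - ga‖ ≤ K₁) (h2 : ‖gb + ga - (gβ + gβ)‖ ≤ K₂) {A B : E} (hA : ‖A‖ ≤ s)
    (hB : ‖B‖ ≤ s) :
    gβ ((1 / 2 : ℝ) • (A + B)) ((1 / 2 : ℝ) • (A + B)) ≤ (ga A A + gb B B) / 2
      + K₁ * ‖A - B‖ * s + K₂ * s ^ 2 / 2 - lam / 4 * ‖A - B‖ ^ 2 := by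
  have hs : 0 ≤ s := (norm_nonneg _).trans hA
  have e1 := hc (A - B)
  have e2 : (gβ - ga) (A - B) (A + B) ≤ K₁ * ‖A - B‖ * (2 * s) := by
    refine (Real.le_norm_self _).trans (((gβ - ga).le_opNorm₂ _ _).trans ?_)
    have hK : 0 ≤ K₁ := le_trans (ContinuousLinearMap.opNorm_nonneg _) h1
    gcongr
    exact (norm_add_le _ _).trans (by linarith)
  have e3 : -((gb + ga - (gβ + gβ)) B B) ≤ K₂ * s ^ 2 := by
    refine (neg_le_abs _).trans ?_
    rw [← Real.norm_eq_abs]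
    refine ((gb + ga - (gβ + gβ)).le_opNorm₂ _ _).trans ?_
    have hK : 0 ≤ K₂ := le_trans (ContinuousLinearMap.opNorm_nonneg _) h2
    rw [pow_two, ← mul_assoc]
    gcongr
  simp only [sub_apply, add_apply, map_sub, map_add, map_smul, smul_apply, smul_eq_mul] at *
  have s1 := hβ A B
  have s2 := ha A B
  nlinarith

namespace ChartData

variable {p : M} (D : ChartData E p)

theorem grid_close {r κ : ℝ} (hκ : 0 < κ) (hκl : 2 ≤ D.lam * κ ^ 2) (hr : 2 * r ≤ D.ρ')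
    (hrs : D.C * κ * r / 2 + D.C * κ ^ 2 * r ^ 2 / 8 ≤ D.lam / 8)
    {u v : M} {c c' : ℝ → M} (hu : dist u p < r) (huv : dist u v < r) (hc : IsSeg u v c)
    (hc' : IsSeg u v c') {ε : ℝ} (hε : 0 < ε) (hε1 : ε ≤ 1) :
    ∃ δ > 0, (∀ s t, |s - t| < δ → ‖D.φ (c t) - D.φ (c s)‖ ≤ κ * |s - t| ∧
        ‖D.φ (c' t) - D.φ (c' s)‖ ≤ κ * |s - t|) ∧
      ∀ N : ℕ, 0 < N → dist u v / N < δ → ∀ i ≤ N,
      D.lam * ‖D.φ (c' (i * (dist u v / N))) - D.φ (c (i * (dist u v / N)))‖ ^ 2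
        ≤ 24 * ε * dist u v ^ 2 := by
  have hlam := D.lam_pos
  have hC := D.C_nonneg
  obtain ⟨δ₁, hδ₁, hup⟩ := D.upper ε hε
  obtain ⟨δ₂, hδ₂, hlow⟩ := D.lower ε hε
  set ℓ := dist u v with hℓ
  have hℓ0 : 0 ≤ ℓ := dist_nonneg
  have hin : ∀ {c : ℝ → M}, IsSeg u v c → ∀ t, dist (c t) p < D.ρ' := by
    intro c hc t
    have h1 := hc.dist_left_le_dist t
    have h2 := dist_triangle (c t) u p
    rw [dist_comm (c t) u] at h2
    linarith
  have hstep : ∀ {c : ℝ → M}, IsSeg u v c → ∀ s t, |s - t| < δ₂ →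
      D.g (D.φ (c s)) (D.φ (c t) - D.φ (c s)) (D.φ (c t) - D.φ (c s)) ≤ (1 + ε) * |s - t| ^ 2 ∧
      ‖D.φ (c t) - D.φ (c s)‖ ≤ κ * |s - t| := by
    intro c hc s t hst
    have h1 := hlow (c s) (c t) (hin hc s) ((hc.1 s t).trans_lt hst)
    have h2 : dist (c s) (c t) ^ 2 ≤ |s - t| ^ 2 := pow_le_pow_left₀ dist_nonneg (hc.1 s t) 2
    have h3 : D.g (D.φ (c s)) (D.φ (c t) - D.φ (c s)) (D.φ (c t) - D.φ (c s))
        ≤ (1 + ε) * |s - t| ^ 2 := h1.trans (by gcongr)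
    refine ⟨h3, ?_⟩
    have h4 := D.coer _ (D.maps _ (hin hc s)) (D.φ (c t) - D.φ (c s))
    apply le_of_sq_le_sq _ (by positivity)
    apply le_of_mul_le_mul_left _ hlam
    have h5 := sq_nonneg |s - t|
    rw [mul_pow]
    nlinarith
  refine ⟨min δ₂ (δ₁ / (κ + 1)), lt_min hδ₂ (by positivity), fun s t hst => ?_, ?_⟩
  · exact ⟨(hstep hc s t (hst.trans_le (min_le_left _ _))).2,
      (hstep hc' s t (hst.trans_le (min_le_left _ _))).2⟩
  intro N hN hNδ
  have hNpos : (0 : ℝ) < N := by exact_mod_cast hN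
  set τ := ℓ / N with hτ
  have hτ0 : 0 ≤ τ := by positivity
  have hNτ : N * τ = ℓ := by rw [hτ]; field_simp
  let a : ℕ → E := fun i => D.φ (c (i * τ))
  let b : ℕ → E := fun i => D.φ (c' (i * τ))
  let β : ℕ → E := fun i => (1 / 2 : ℝ) • (a i + b i)
  let e : ℕ → ℝ := fun i => ‖(a (i + 1) - a i) - (b (i + 1) - b i)‖
  have habs : ∀ i : ℕ, |(i : ℝ) * τ - ((i + 1 : ℕ) : ℝ) * τ| = τ := by
    intro i
    push_cast
    rw [abs_of_nonpos (by linarith)]
    ring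
  have hτδ : τ < δ₂ := hNδ.trans_le (min_le_left _ _)
  have hA : ∀ i, D.g (a i) (a (i + 1) - a i) (a (i + 1) - a i) ≤ (1 + ε) * τ ^ 2 ∧
      ‖a (i + 1) - a i‖ ≤ κ * τ := by
    intro i
    have := hstep hc (i * τ) (((i + 1 : ℕ) : ℝ) * τ) (by rw [habs]; exact hτδ)
    rwa [habs] at this
  have hB : ∀ i, D.g (b i) (b (i + 1) - b i) (b (i + 1) - b i) ≤ (1 + ε) * τ ^ 2 ∧
      ‖b (i + 1) - b i‖ ≤ κ * τ := by
    intro i
    have := hstep hc' (i * τ) (((i + 1 : ℕ) : ℝ) * τ) (by rw [habs]; exact hτδ)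
    rwa [habs] at this
  have ha_mem : ∀ i, a i ∈ ball (D.φ p) D.ρ := fun i => D.maps _ (hin hc _)
  have hb_mem : ∀ i, b i ∈ ball (D.φ p) D.ρ := fun i => D.maps _ (hin hc' _)
  have hβ_mem : ∀ i, β i ∈ ball (D.φ p) D.ρ := by
    intro i
    have := (convex_ball (D.φ p) D.ρ) (ha_mem i) (hb_mem i) (show (0 : ℝ) ≤ 1 / 2 by norm_num)
      (show (0 : ℝ) ≤ 1 / 2 by norm_num) (by norm_num)
    simpa [β, smul_add] using this
  set W := ∑ i ∈ Finset.range N, e i with hW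
  set S := N * ∑ i ∈ Finset.range N, e i ^ 2 with hS
  have hW0 : 0 ≤ W := Finset.sum_nonneg fun i _ => norm_nonneg _
  have hWS : W ^ 2 ≤ S := by
    have := sq_sum_le_card_mul_sum_sq (s := Finset.range N) (f := e)
    rwa [Finset.card_range] at this
  have hab0 : a 0 = b 0 := by simp [a, b, hc.2.1 0 le_rfl, hc'.2.1 0 le_rfl]
  have hab : ∀ i, ‖b i - a i‖ ≤ ∑ j ∈ Finset.range i, e j := by
    intro i
    induction i with
    | zero => simp [hab0]
    | succ i ih =>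
      rw [Finset.sum_range_succ]
      have : b (i + 1) - a (i + 1) = (b i - a i) - ((a (i + 1) - a i) - (b (i + 1) - b i)) := by
        abel
      rw [this]
      exact (norm_sub_le _ _).trans (by gcongr)
  have habW : ∀ i ≤ N, ‖b i - a i‖ ≤ W := fun i hi => (hab i).trans
    (Finset.sum_le_sum_of_subset_of_nonneg (Finset.range_mono hi) fun j _ _ => norm_nonneg _)
  have hone : ∀ i ∈ Finset.range N, dist (D.ψ (β i)) (D.ψ (β (i + 1))) ^ 2 ≤ (1 + ε) *
      ((1 + ε) * τ ^ 2 + D.C * (W / 2) * e i * (κ * τ) + D.C * (W / 2) ^ 2 * (κ * τ) ^ 2 / 2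
        - D.lam / 4 * e i ^ 2) := by
    intro i hi
    have hi' : i ≤ N := (Finset.mem_range.1 hi).le
    have hΔ : β (i + 1) - β i = (1 / 2 : ℝ) • ((a (i + 1) - a i) + (b (i + 1) - b i)) := by
      simp only [β]
      module
    have hnorm : ‖β (i + 1) - β i‖ < δ₁ := by
      rw [hΔ, norm_smul]
      have h1 := norm_add_le (a (i + 1) - a i) (b (i + 1) - b i)
      have h2 : τ < δ₁ / (κ + 1) := hNδ.trans_le (min_le_right _ _)
      rw [lt_div_iff₀ (by positivity)] at h2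
      have h3 := (hA i).2
      have h4 := (hB i).2
      norm_num
      nlinarith
    refine (hup _ (hβ_mem i) _ (hβ_mem (i + 1)) hnorm).trans ?_
    apply mul_le_mul_of_nonneg_left _ (by linarith)
    set h : E := (1 / 2 : ℝ) • (b i - a i) with hh
    have hhn : ‖h‖ ≤ W / 2 := by
      rw [hh, norm_smul]
      have := habW i hi'
      norm_num
      linarith
    have ea : a i = β i - h := by simp only [β, hh]; module
    have eb : b i = β i + h := by simp only [β, hh]; module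
    have k1 : ‖D.g (β i) - D.g (a i)‖ ≤ D.C * (W / 2) := by
      refine (D.lip _ (hβ_mem i) _ (ha_mem i)).trans ?_
      have : β i - a i = h := by rw [ea]; abel
      rw [this]
      gcongr
    have k2 : ‖D.g (b i) + D.g (a i) - (D.g (β i) + D.g (β i))‖ ≤ D.C * (W / 2) ^ 2 := by
      have := D.second (β i) h (eb ▸ hb_mem i) (ea ▸ ha_mem i)
      rw [← ea, ← eb] at this
      refine this.trans ?_
      gcongr
    have := step_ineq (D.symm _ (hβ_mem i)) (D.symm _ (ha_mem i)) (D.coer _ (hβ_mem i)) k1 k2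
      (hA i).2 (hB i).2
    rw [hΔ]
    refine this.trans ?_
    have h1 := (hA i).1
    have h2 := (hB i).1
    simp only [e]
    linarith
  have hsum := Finset.sum_le_sum hone
  rw [← Finset.mul_sum] at hsum
  simp only [Finset.sum_sub_distrib, Finset.sum_add_distrib, Finset.sum_const, Finset.card_range,
    nsmul_eq_mul, ← Finset.mul_sum, ← Finset.sum_mul] at hsum
  rw [← hW] at hsum
  have hends : ℓ ≤ ∑ i ∈ Finset.range N, dist (D.ψ (β i)) (D.ψ (β (i + 1))) := by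
    have := dist_le_range_sum_dist (fun i => D.ψ (β i)) N
    have e0 : D.ψ (β 0) = u := by
      have : β 0 = D.φ u := by
        simp only [β, ← hab0]
        simp only [a, Nat.cast_zero, zero_mul, hc.2.1 0 le_rfl]
        module
      rw [this, D.left u (by linarith [dist_nonneg (x := u) (y := p)])]
    have eN : D.ψ (β N) = v := by
      have : β N = D.φ v := by
        simp only [β, a, b, hNτ, hc.2.2 ℓ le_rfl, hc'.2.2 ℓ le_rfl]
        module
      have h2 := hin hc ℓ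
      rw [hc.2.2 ℓ le_rfl] at h2
      rw [this, D.left v h2]
    simp only [e0, eN] at this
    exact this
  have hcs := sq_sum_le_card_mul_sum_sq (s := Finset.range N)
    (f := fun i => dist (D.ψ (β i)) (D.ψ (β (i + 1))))
  rw [Finset.card_range] at hcs
  have h1 : ℓ ^ 2 ≤ (1 + ε) * ((1 + ε) * ℓ ^ 2 + D.C * κ * ℓ / 2 * W ^ 2
      + D.C * κ ^ 2 * ℓ ^ 2 / 8 * W ^ 2 - D.lam / 4 * S) := by
    refine (pow_le_pow_left₀ hℓ0 hends 2).trans (hcs.trans ?_)
    refine (mul_le_mul_of_nonneg_left hsum hNpos.le).trans_eq ?_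
    rw [hS, ← hNτ]
    ring
  have h2 : D.C * κ * ℓ / 2 + D.C * κ ^ 2 * ℓ ^ 2 / 8 ≤ D.lam / 8 := by
    refine le_trans ?_ hrs
    gcongr
  have h3 : D.C * κ * ℓ / 2 * W ^ 2 + D.C * κ ^ 2 * ℓ ^ 2 / 8 * W ^ 2 ≤ D.lam / 8 * S := by
    rw [← add_mul]
    exact mul_le_mul h2 hWS (sq_nonneg _) (by positivity)
  have hS0 : 0 ≤ S := (sq_nonneg _).trans hWS
  have h4 : D.lam * S ≤ 24 * ε * ℓ ^ 2 := by
    have h5 : ℓ ^ 2 ≤ (1 + ε) * ((1 + ε) * ℓ ^ 2 - D.lam / 8 * S) :=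
      h1.trans (mul_le_mul_of_nonneg_left (by linarith) (by linarith))
    have h6 : 0 ≤ D.lam * S := by positivity
    have h7 := sq_nonneg ℓ
    have h8 : ε * ε * ℓ ^ 2 ≤ ε * ℓ ^ 2 := by
      apply mul_le_mul_of_nonneg_right _ h7
      nlinarith
    nlinarith
  intro i hi
  have h5 : ‖b i - a i‖ ^ 2 ≤ S := (pow_le_pow_left₀ (norm_nonneg _) (habW i hi) 2).trans hWS
  exact (mul_le_mul_of_nonneg_left h5 hlam.le).trans h4

include D in
theorem unique : ∃ r > 0, ∀ (u v : M) (c c' : ℝ → M), dist u p < r → dist u v < r →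
    IsSeg u v c → IsSeg u v c' → c = c' := by
  have hlam := D.lam_pos
  have hC := D.C_nonneg
  have hρ' := D.ρ'_pos
  set κ := √(2 / D.lam) with hκ_def
  have hκ : 0 < κ := Real.sqrt_pos.2 (by positivity)
  have hκl : 2 ≤ D.lam * κ ^ 2 := by
    rw [hκ_def, Real.sq_sqrt (by positivity)]
    apply le_of_eq
    field_simp
  obtain ⟨r, hr0, hr, hrs⟩ : ∃ r > 0, 2 * r ≤ D.ρ' ∧
      D.C * κ * r / 2 + D.C * κ ^ 2 * r ^ 2 / 8 ≤ D.lam / 8 := by
    have h1 : ∀ᶠ r in 𝓝 (0 : ℝ), 2 * r < D.ρ' :=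
      (by fun_prop : Continuous fun r : ℝ => 2 * r).continuousAt.eventually_lt
        continuousAt_const (by simpa using hρ')
    have h2 : ∀ᶠ r in 𝓝 (0 : ℝ), D.C * κ * r / 2 + D.C * κ ^ 2 * r ^ 2 / 8 < D.lam / 8 :=
      (by fun_prop : Continuous fun r : ℝ =>
        D.C * κ * r / 2 + D.C * κ ^ 2 * r ^ 2 / 8).continuousAt.eventually_lt
        continuousAt_const (by simpa using hlam)
    obtain ⟨r, ⟨h3, h4⟩, h5⟩ := (((h1.and h2).filter_mono nhdsWithin_le_nhds).and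
      (self_mem_nhdsWithin (s := Ioi (0 : ℝ)))).exists
    exact ⟨r, h5, h3.le, h4.le⟩
  refine ⟨r, hr0, fun u v c c' hu huv hc hc' => ?_⟩
  have hin : ∀ {c : ℝ → M}, IsSeg u v c → ∀ t, dist (c t) p < D.ρ' := by
    intro c hc t
    have h1 := hc.dist_left_le_dist t
    have h2 := dist_triangle (c t) u p
    rw [dist_comm (c t) u] at h2
    linarith
  funext t
  rcases le_or_gt t 0 with h0 | h0
  · rw [hc.2.1 t h0, hc'.2.1 t h0]
  rcases le_or_gt (dist u v) t with h1 | h1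
  · rw [hc.2.2 t h1, hc'.2.2 t h1]
  set ℓ := dist u v with hℓ
  have hℓ0 : 0 < ℓ := h0.trans h1
  suffices h : D.φ (c' t) = D.φ (c t) by
    rw [← D.left _ (hin hc t), ← h, D.left _ (hin hc' t)]
  rw [← sub_eq_zero, ← norm_le_zero_iff]
  apply le_of_forall_pos_le_add
  intro η hη
  set ε := min 1 (D.lam * (η / 3) ^ 2 / (24 * ℓ ^ 2)) with hε
  have hε0 : 0 < ε := lt_min one_pos (by positivity)
  obtain ⟨δ, hδ, hst, hgrid⟩ := D.grid_close hκ hκl hr hrs hu huv hc hc' hε0 (min_le_left _ _)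
  obtain ⟨N, hN⟩ := exists_nat_gt (ℓ / min δ (η / (3 * κ)))
  have hmin : 0 < min δ (η / (3 * κ)) := lt_min hδ (by positivity)
  have hNpos : (0 : ℝ) < N := lt_trans (by positivity) hN
  have hτ : ℓ / N < min δ (η / (3 * κ)) := by
    rw [div_lt_iff₀ hmin] at hN
    rw [div_lt_iff₀ hNpos]
    linarith
  set τ := ℓ / N with hτ_def
  have hτ0 : 0 < τ := by positivity
  set i := ⌊t / τ⌋₊ with hi
  have hi1 : (i : ℝ) * τ ≤ t := by
    have := Nat.floor_le (show 0 ≤ t / τ by positivity)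
    rwa [le_div_iff₀ hτ0] at this
  have hi2 : t < (i + 1) * τ := by
    have := Nat.lt_floor_add_one (t / τ)
    rwa [div_lt_iff₀ hτ0] at this
  have hiN : i ≤ N := by
    have h2 : (i : ℝ) * τ < N * τ := by
      have : N * τ = ℓ := by rw [hτ_def]; field_simp
      linarith
    have h3 : (i : ℝ) < N := lt_of_mul_lt_mul_right h2 hτ0.le
    exact_mod_cast h3.le
  have habs : |i * τ - t| < min δ (η / (3 * κ)) := by
    rw [abs_of_nonpos (by linarith)]
    linarith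
  obtain ⟨k1, k2⟩ := hst (i * τ) t (habs.trans_le (min_le_left _ _))
  have k3 : κ * |i * τ - t| ≤ η / 3 := by
    have := (habs.trans_le (min_le_right _ _)).le
    rw [le_div_iff₀ (by positivity)] at this
    linarith
  have k4 := hgrid N (by exact_mod_cast hNpos) (hτ.trans_le (min_le_left _ _)) i hiN
  have k5 : ‖D.φ (c' (i * τ)) - D.φ (c (i * τ))‖ ≤ η / 3 := by
    apply le_of_sq_le_sq _ (by positivity)
    apply le_of_mul_le_mul_left _ hlam
    refine k4.trans ?_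
    have : ε ≤ D.lam * (η / 3) ^ 2 / (24 * ℓ ^ 2) := min_le_right _ _
    rw [le_div_iff₀ (by positivity)] at this
    linarith
  have : D.φ (c' t) - D.φ (c t) = (D.φ (c' t) - D.φ (c' (i * τ)))
      + (D.φ (c' (i * τ)) - D.φ (c (i * τ))) - (D.φ (c t) - D.φ (c (i * τ))) := by abel
  rw [this]
  have k6 := norm_sub_le ((D.φ (c' t) - D.φ (c' (i * τ))) + (D.φ (c' (i * τ)) - D.φ (c (i * τ))))
    (D.φ (c t) - D.φ (c (i * τ)))
  have k7 := norm_add_le (D.φ (c' t) - D.φ (c' (i * τ))) (D.φ (c' (i * τ)) - D.φ (c (i * τ)))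
  linarith

end ChartData

theorem exists_geoData_of_chartData [CompactSpace M] (hgeo : ∀ u v : M, ∃ c, IsSeg u v c)
    (h : ∀ p : M, Nonempty (ChartData E p)) : ∃ r, GeoData M r := by
  choose r hr hu using fun p : M => (h p).some.unique
  obtain ⟨t, ht⟩ := isCompact_univ.elim_finite_subcover (fun p : M => ball p (r p))
    (fun p => isOpen_ball) (fun p _ => mem_iUnion.2 ⟨p, mem_ball_self (hr p)⟩)
  have hev : ∀ᶠ s in 𝓝[>] (0 : ℝ), ∀ p ∈ t, s < r p := by
    rw [eventually_all_finset]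
    intro p _
    exact (eventually_lt_nhds (hr p)).filter_mono nhdsWithin_le_nhds
  obtain ⟨s, hs, hs0⟩ := (hev.and self_mem_nhdsWithin).exists
  refine ⟨s, hs0, hgeo, fun u v c c' huv hc hc' => ?_⟩
  obtain ⟨p, hp, hup⟩ := mem_iUnion₂.1 (ht (mem_univ u))
  exact hu p u v c c' hup (huv.trans (hs p hp)) hc hc'

open Bundle Manifold in
open scoped ContDiff in
theorem exists_geoData [CompactSpace M] [ChartedSpace E M] [IsManifold 𝓘(ℝ, E) ∞ M]
    [RiemannianBundle (fun x : M => TangentSpace 𝓘(ℝ, E) x)] [IsRiemannianManifold 𝓘(ℝ, E) M]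
    [IsContMDiffRiemannianBundle 𝓘(ℝ, E) ∞ E (fun x : M => TangentSpace 𝓘(ℝ, E) x)] :
    ∃ r, GeoData M r :=
  exists_geoData_of_chartData (geo_of_riemannian (E := E)) (nonempty_chartData (E := E))

end Pool.Agent.Lib.MP_3eff7f_gt
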