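import Pool.Agent.Lib.MP_3eff7f_gt.Abstract
import Pool.Agent.Lib.MP_3eff7f_gt.Unique
import Pool.Agent.Lib.MP_3eff7f_gt.Cover

set_option autoImplicit false

open Set Filter Topology Metric

namespace Pool.Agent.Lib.MP_3eff7f_gt

theorem exists_involution {M : Type*} [MetricSpace M] (ρ : Circle →* (M ≃ᵢ M))
    (hρ : Continuous fun p : Circle × M => ρ p.1 p.2) (hne : ∃ g, ρ g ≠ 1) :
    ∃ θ : ℝ, ρ (Circle.exp θ) ≠ 1 ∧ ρ (Circle.exp (2 * θ)) = 1 := by
  classical
  have hex : ∃ k : ℕ, ρ (Circle.exp (2 * Real.pi / 2 ^ k)) ≠ 1 := by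
    by_contra hcon
    push Not at hcon
    obtain ⟨g, hg⟩ := hne
    apply hg
    let S : AddSubgroup ℝ :=
      { carrier := {t | ρ (Circle.exp t) = 1}
        zero_mem' := by simp
        add_mem' := by
          intro a b ha hb
          simp only [mem_ofPred_eq] at *
          rw [Circle.exp_add, map_mul, ha, hb, one_mul]
        neg_mem' := by
          intro a ha
          simp only [mem_ofPred_eq] at *
          rw [Circle.exp_neg, map_inv, ha, inv_one] }
    have hcl : IsClosed (S : Set ℝ) := by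
      have : (S : Set ℝ) = ⋂ x : M, {t | ρ (Circle.exp t) x = x} := by
        ext t
        simp only [mem_iInter, mem_ofPred_eq]
        constructor
        · intro h x
          have h' : ρ (Circle.exp t) = 1 := h
          rw [h']
          rfl
        · intro h
          exact IsometryEquiv.ext h
      rw [this]
      refine isClosed_iInter fun x => isClosed_eq ?_ continuous_const
      exact hρ.comp (Circle.exp.continuous.prodMk continuous_const)
    have hd : Dense (S : Set ℝ) := by
      apply S.dense_of_not_isolated_zero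
      intro ε hε
      have ht : Tendsto (fun k : ℕ => 2 * Real.pi / 2 ^ k) atTop (𝓝 0) :=
        tendsto_const_nhds.div_atTop (tendsto_pow_atTop_atTop_of_one_lt one_lt_two)
      obtain ⟨k, hk⟩ := (ht.eventually (eventually_lt_nhds hε)).exists
      exact ⟨_, hcon k, by positivity, hk⟩
    have huniv : (S : Set ℝ) = univ := by rw [← hcl.closure_eq, hd.closure_eq]
    obtain ⟨t, rfl⟩ := Circle.exp_surjective g
    exact (huniv ▸ mem_univ t : t ∈ (S : Set ℝ))
  have h1 := Nat.find_spec hex
  have h0 : Nat.find hex ≠ 0 := by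
    intro h
    rw [h] at h1
    simp at h1
  obtain ⟨k, hk⟩ := Nat.exists_eq_succ_of_ne_zero h0
  refine ⟨_, h1, ?_⟩
  have h2 := Nat.find_min hex (show k < Nat.find hex by omega)
  rw [not_not] at h2
  have h3 : 2 * (2 * Real.pi / 2 ^ (k + 1)) = 2 * Real.pi / 2 ^ k := by
    rw [pow_succ]
    field_simp
  rw [hk, h3, h2]

open Bundle Manifold in
open scoped ContDiff in
theorem main {E : Type*} [NormedAddCommGroup E] [NormedSpace ℝ E] [FiniteDimensional ℝ E]
    {M : Type*} [MetricSpace M] [CompactSpace M] [ChartedSpace E M] [IsManifold 𝓘(ℝ, E) ∞ M]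
    [RiemannianBundle (fun x : M => TangentSpace 𝓘(ℝ, E) x)] [IsRiemannianManifold 𝓘(ℝ, E) M]
    [IsContMDiffRiemannianBundle 𝓘(ℝ, E) ∞ E (fun x : M => TangentSpace 𝓘(ℝ, E) x)]
    (ρ : Circle →* (M ≃ᵢ M)) (hρ : Continuous fun p : Circle × M => ρ p.1 p.2)
    (hne : ∃ g, ρ g ≠ 1) {z : M} (hz : ∀ g, ρ g z = z) {D : ℝ} (hD : ∀ x, dist x z ≤ D) :
    HasShortGeodesic M (4 * (Module.finrank ℝ E + 1) * D) := by
  obtain ⟨θ, h1, h2⟩ := exists_involution ρ hρ hne
  obtain ⟨r, G⟩ := exists_geoData (E := E) (M := M)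
  obtain ⟨p, hp⟩ : ∃ p, ρ (Circle.exp θ) p ≠ p := by
    by_contra hcon
    push Not at hcon
    exact h1 (IsometryEquiv.ext hcon)
  have := G.abstract_main (m := Module.finrank ℝ E + 1) (by positivity) (smallCover E M)
    (R := fun a x => ρ (Circle.exp (a * θ)) x)
    (hρ.comp ((Circle.exp.continuous.comp (continuous_fst.mul continuous_const)).prodMk
      continuous_snd))
    (fun a => (ρ _).isometry) (z := z) (fun a => hz _) (fun x => by simp) (ρ (Circle.exp θ))
    (fun x => by simp) 2 two_pos (fun x => by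
      have : ρ (Circle.exp θ) * ρ (Circle.exp θ) = 1 := by
        rw [← map_mul, ← Circle.exp_add, ← two_mul, h2]
      exact congrArg (fun f : M ≃ᵢ M => f x) this) hp (helper13.chain_surj E p) hD
  refine this.mono (le_of_eq ?_)
  push_cast
  ring

end Pool.Agent.Lib.MP_3eff7f_gt
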