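import Pool.Agent.Lib.MP_3eff7f_gt.Energy
import Pool.Agent.Lib.MP_3eff7f_gt.Unique

set_option autoImplicit false

open Set Filter Topology Metric MeasureTheory

namespace Pool.Agent.Lib.MP_3eff7f_gt

universe u

theorem abs_clamp_sub (s t : ℝ) : |clamp s - clamp t| ≤ |s - t| := by
  unfold clamp
  rw [max_comm 0, max_comm 0]
  refine (abs_max_sub_max_le_abs _ _ _).trans ?_
  simpa using abs_min_sub_min_le_max s 1 t 1

theorem continuous_of_ug {V Y : Type*} [NormedAddCommGroup V] [MetricSpace Y] {F : V → Y}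
    (h : ∀ x, ∃ B, ∃ δ > 0, ∀ y, ‖x - y‖ ≤ δ → dist (F x) (F y) ≤ B * ‖x - y‖) : Continuous F := by
  rw [continuous_iff_continuousAt]
  intro x
  obtain ⟨B, δ, hδ, h⟩ := h x
  rw [ContinuousAt, tendsto_iff_dist_tendsto_zero]
  have hc : Continuous fun y : V => B * ‖x - y‖ := by fun_prop
  refine squeeze_zero' (Eventually.of_forall fun _ => dist_nonneg) ?_
    (by simpa using hc.tendsto x)
  filter_upwards [closedBall_mem_nhds x hδ] with y hy
  rw [dist_comm]
  exact h y (by rwa [mem_closedBall, dist_comm, dist_eq_norm] at hy)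

theorem sphere_metric {X : Type u} [MetricSpace X] [CompactSpace X] {r : ℝ} {k : ℕ} {C : ℝ}
    (hC : CoreBound.{u} k k C) (hk : 1 ≤ k) (G : GeoData X r) (F : C(OnePoint (Fin k → ℝ), X))
    {W : Type*} [NormedAddCommGroup W] [NormedSpace ℝ W] (D : BiChart W (F OnePoint.infty))
    {e : (Fin k → ℝ) → ℝ} (he : Continuous e) (he0 : ∀ x, 0 ≤ e x)
    (hug : ∀ R, ∀ η > 0, ∃ δ > 0, ∀ x y : Fin k → ℝ, ‖x‖ ≤ R → ‖y‖ ≤ R → ‖x - y‖ ≤ δ →
      dist (F x) (F y) ≤ (e x + η) * ‖x - y‖) (hi : Integrable fun x => e x ^ k) {ε : ℝ}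
    (hε : 0 < ε) (hE : ∫ x, e x ^ k ≤ ε ^ k)
    (hno : ¬ HasShortGeodesic X (C * (2 * (4 * ε)))) : F.Nullhomotopic := by
  have : Nonempty (Fin k) := ⟨⟨0, hk⟩⟩
  set p := F OnePoint.infty with hp
  have hL := D.one_le
  have hs := D.pos
  have hr := G.pos
  have hL2 : 1 ≤ D.L ^ 2 := one_le_pow₀ hL
  have hLL : D.L ≤ D.L ^ 2 := by nlinarith
  set δ₀ := min (min D.s r) (ε / 4) / (2 * D.L ^ 2) with hδ₀
  have hm0 : 0 < min (min D.s r) (ε / 4) := by positivity
  have hδ : 0 < δ₀ := by positivity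
  have hδ1 : D.L ^ 2 * δ₀ = min (min D.s r) (ε / 4) / 2 := by rw [hδ₀]; field_simp
  have hδs : D.L ^ 2 * δ₀ < D.s := by
    linarith [min_le_left (min D.s r) (ε / 4), min_le_left D.s r]
  have hδr : D.L ^ 2 * δ₀ < r := by
    linarith [min_le_left (min D.s r) (ε / 4), min_le_right D.s r]
  have hδε : D.L ^ 2 * δ₀ ≤ ε / 4 := by linarith [min_le_right (min D.s r) (ε / 4)]
  obtain ⟨R₀, hR₀⟩ : ∃ R₀, ∀ x : Fin k → ℝ, R₀ ≤ ‖x‖ → dist (F x) p < δ₀ := by
    have h1 : Tendsto (fun x : Fin k → ℝ => F x) (cocompact _) (𝓝 p) := by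
      rw [← coclosedCompact_eq_cocompact]
      exact (F.continuous.tendsto _).comp OnePoint.tendsto_coe_infty
    obtain ⟨K, hK, hK'⟩ := mem_cocompact.1 (h1 (ball_mem_nhds p hδ))
    obtain ⟨R, hR⟩ := hK.isBounded.subset_ball 0
    exact ⟨R, fun x hx => hK' fun h => absurd (mem_ball_zero_iff.1 (hR h)) (not_lt.2 hx)⟩
  obtain ⟨R, hR1, hR2, hR3⟩ : ∃ R : ℝ, 0 < R ∧ R₀ ≤ R / 2 ∧
      ∫ x, (clamp (4 * ‖x‖ / R - 2) * D.L ^ 2 * e x) ^ k ≤ ε ^ k := by
    have h1 := tendsto_integral_of_dominated_convergence (μ := volume)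
      (F := fun (j : ℕ) (x : Fin k → ℝ) => (clamp (4 * ‖x‖ / j - 2) * D.L ^ 2 * e x) ^ k)
      (f := fun _ => 0) (fun x => (D.L ^ 2) ^ k * e x ^ k)
      (fun j => Continuous.aestronglyMeasurable (by fun_prop)) (hi.const_mul _)
      (fun j => Eventually.of_forall fun x => by
        have h1 := clamp_nonneg (4 * ‖x‖ / j - 2)
        have h2 := clamp_le_one (4 * ‖x‖ / j - 2)
        have h3 := he0 x
        rw [Real.norm_eq_abs, abs_of_nonneg (by positivity), ← mul_pow]
        apply pow_le_pow_left₀ (by positivity)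
        rw [mul_assoc]
        exact mul_le_of_le_one_left (by positivity) h2)
      (Eventually.of_forall fun x => by
        refine tendsto_const_nhds.congr' ?_
        filter_upwards [tendsto_natCast_atTop_atTop.eventually_gt_atTop (2 * ‖x‖)] with j hj
        have h1 : (0 : ℝ) < j := lt_of_le_of_lt (by positivity) hj
        rw [clamp_of_nonpos (by rw [sub_nonpos, div_le_iff₀ h1]; linarith)]
        simp [show k ≠ 0 by omega])
    rw [integral_zero] at h1
    obtain ⟨j, h2, h3, h4⟩ := ((h1.eventually (eventually_le_nhds (pow_pos hε k))).and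
      ((tendsto_natCast_atTop_atTop.eventually_gt_atTop (0 : ℝ)).and
        (tendsto_natCast_atTop_atTop.eventually_ge_atTop (2 * R₀)))).exists
    exact ⟨j, h3, by linarith, h2⟩
  let χ : (Fin k → ℝ) → ℝ := fun x => clamp (2 - ‖x‖ / R)
  let y : (Fin k → ℝ) → W := fun x => D.φ p + χ x • (D.φ (F x) - D.φ p)
  let F' : (Fin k → ℝ) → X := fun x => if ‖x‖ ≤ R then F x else D.ψ (y x)
  have hφ : ∀ x : Fin k → ℝ, R / 2 ≤ ‖x‖ → dist (F x) p < D.s ∧ ‖D.φ (F x) - D.φ p‖ ≤ D.L * δ₀ := by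
    intro x hx
    have h1 := hR₀ x (hR2.trans hx)
    have h2 : dist (F x) p < D.s := by nlinarith
    exact ⟨h2, (D.lipφ _ _ h2 (by simpa using hs)).trans (by gcongr)⟩
  have hy : ∀ x : Fin k → ℝ, R / 2 ≤ ‖x‖ → ‖y x - D.φ p‖ < D.s := by
    intro x hx
    simp only [y, add_sub_cancel_left, norm_smul, Real.norm_eq_abs]
    rw [abs_of_nonneg (clamp_nonneg _)]
    have := mul_le_of_le_one_left (norm_nonneg (D.φ (F x) - D.φ p)) (clamp_le_one (2 - ‖x‖ / R))
    nlinarith [(hφ x hx).2]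
  have hF' : ∀ x : Fin k → ℝ, R / 2 ≤ ‖x‖ → F' x = D.ψ (y x) := by
    intro x hx
    simp only [F']
    split_ifs with h
    · have : χ x = 1 := clamp_of_one_le (by
        have := (div_le_one hR1).2 h
        linarith)
      simp only [y, this, one_smul, add_sub_cancel, D.left _ (hφ x hx).1]
    · rfl
  have hout : ∀ x : Fin k → ℝ, 2 * R ≤ ‖x‖ → F' x = p := by
    intro x hx
    have : χ x = 0 := clamp_of_nonpos (by rw [sub_nonpos, le_div_iff₀ hR1]; exact hx)
    rw [hF' x (by linarith)]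
    simp only [y, this, zero_smul, add_zero]
    exact D.left p (by simpa using hs)
  let e' : (Fin k → ℝ) → ℝ := fun x =>
    (e x + clamp (4 * ‖x‖ / R - 2) * D.L ^ 2 * e x) + D.L ^ 2 * δ₀ / R
  have he1 : ∀ x, 0 ≤ clamp (4 * ‖x‖ / R - 2) * D.L ^ 2 * e x := fun x =>
    mul_nonneg (mul_nonneg (clamp_nonneg _) (by positivity)) (he0 x)
  have he2 : 0 ≤ D.L ^ 2 * δ₀ / R := by positivity
  have hug' : ∀ R', ∀ η > 0, ∃ δ > 0, ∀ x x' : Fin k → ℝ, ‖x‖ ≤ R' → ‖x'‖ ≤ R' → ‖x - x'‖ ≤ δ →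
      dist (F' x) (F' x') ≤ (e' x + η) * ‖x - x'‖ := by
    intro R' η hη
    obtain ⟨δ, hδ0, h⟩ := hug R' (η / D.L ^ 2) (by positivity)
    refine ⟨min δ (R / 4), by positivity, fun x x' h1 h2 h3 => ?_⟩
    have h4 := h x x' h1 h2 (h3.trans (min_le_left _ _))
    have h5 := abs_le.1 ((abs_norm_sub_norm_le x x').trans (h3.trans (min_le_right _ _)))
    have h6 := norm_nonneg (x - x')
    by_cases hx : ‖x‖ ≤ 3 * R / 4
    · simp only [F', if_pos (show ‖x‖ ≤ R by linarith), if_pos (show ‖x'‖ ≤ R by linarith)]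
      refine h4.trans (mul_le_mul_of_nonneg_right ?_ h6)
      simp only [e']
      linarith [he1 x, div_le_self hη.le hL2]
    · have a1 : R / 2 ≤ ‖x‖ := by linarith
      have a2 : R / 2 ≤ ‖x'‖ := by linarith
      rw [hF' x a1, hF' x' a2]
      refine (D.lipψ _ _ (hy x a1) (hy x' a2)).trans ?_
      have e1 : y x - y x' = χ x • (D.φ (F x) - D.φ (F x')) +
          (χ x - χ x') • (D.φ (F x') - D.φ p) := by
        simp only [y]
        module
      have e2 : ‖χ x • (D.φ (F x) - D.φ (F x'))‖ ≤ D.L * ((e x + η / D.L ^ 2) * ‖x - x'‖) := by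
        rw [norm_smul, Real.norm_eq_abs, abs_of_nonneg (clamp_nonneg _)]
        refine (mul_le_of_le_one_left (norm_nonneg _) (clamp_le_one _)).trans ?_
        exact (D.lipφ _ _ (hφ x a1).1 (hφ x' a2).1).trans (by gcongr)
      have e3 : ‖(χ x - χ x') • (D.φ (F x') - D.φ p)‖ ≤ ‖x - x'‖ / R * (D.L * δ₀) := by
        rw [norm_smul, Real.norm_eq_abs]
        refine mul_le_mul ((abs_clamp_sub _ _).trans ?_) (hφ x' a2).2 (norm_nonneg _)
          (by positivity)
        rw [sub_sub_sub_cancel_left, ← sub_div, abs_div, abs_of_pos hR1, abs_sub_comm]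
        gcongr
        exact abs_norm_sub_norm_le x x'
      have e4 : clamp (4 * ‖x‖ / R - 2) = 1 := clamp_of_one_le (by
        rw [le_sub_iff_add_le, le_div_iff₀ hR1]
        linarith)
      rw [e1]
      calc D.L * ‖χ x • (D.φ (F x) - D.φ (F x')) + (χ x - χ x') • (D.φ (F x') - D.φ p)‖
          ≤ D.L * (D.L * ((e x + η / D.L ^ 2) * ‖x - x'‖) + ‖x - x'‖ / R * (D.L * δ₀)) := by
            gcongr
            exact (norm_add_le _ _).trans (add_le_add e2 e3)
        _ = (D.L ^ 2 * e x + D.L ^ 2 * δ₀ / R + η) * ‖x - x'‖ := by field_simp; ring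
        _ ≤ _ := by
            simp only [e', e4]
            gcongr
            linarith [he0 x]
  have hF'c : Continuous F' := continuous_of_ug fun x => by
    obtain ⟨δ, hδ0, h⟩ := hug' (‖x‖ + 1) 1 one_pos
    refine ⟨_, min δ 1, by positivity, fun x' h' => h x x' (by linarith) ?_
      (h'.trans (min_le_left _ _))⟩
    linarith [(abs_le.1 ((abs_norm_sub_norm_le x x').trans (h'.trans (min_le_right _ _)))).1]
  have hN : Null F' := by
    refine hC.null_of_energy hk G hF'c (R := 2 * R) (by positivity) hout (e := e') (by fun_prop)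
      (fun x => add_nonneg (add_nonneg (he0 x) (he1 x)) he2) (hug' _) (by positivity) ?_ hno
    have hI : ∀ f : (Fin k → ℝ) → ℝ, Continuous f → IntegrableOn f (closedBall 0 (2 * R)) :=
      fun f hf => hf.continuousOn.integrableOn_compact (isCompact_closedBall _ _)
    have hi2 : Integrable fun x => (clamp (4 * ‖x‖ / R - 2) * D.L ^ 2 * e x) ^ k := by
      refine (hi.const_mul ((D.L ^ 2) ^ k)).mono' (Continuous.aestronglyMeasurable (by fun_prop))
        (Eventually.of_forall fun x => ?_)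
      rw [Real.norm_eq_abs, abs_of_nonneg (pow_nonneg (he1 x) k), ← mul_pow]
      apply pow_le_pow_left₀ (he1 x)
      rw [mul_assoc]
      exact mul_le_of_le_one_left (mul_nonneg (by positivity) (he0 x)) (clamp_le_one _)
    have b1 := (setIntegral_le_integral (s := closedBall 0 (2 * R)) hi
      (Eventually.of_forall fun x => pow_nonneg (he0 x) k)).trans hE
    have b2 := (setIntegral_le_integral (s := closedBall 0 (2 * R)) hi2
      (Eventually.of_forall fun x => pow_nonneg (he1 x) k)).trans hR3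
    have b3 : ∫ _x in closedBall (0 : Fin k → ℝ) (2 * R), (D.L ^ 2 * δ₀ / R) ^ k ≤ ε ^ k := by
      rw [setIntegral_const, Measure.real, Real.volume_pi_closedBall _ (by positivity),
        ENNReal.toReal_ofReal (by positivity), Fintype.card_fin, smul_eq_mul, ← mul_pow]
      apply pow_le_pow_left₀ (by positivity)
      have : 2 * (2 * R) * (D.L ^ 2 * δ₀ / R) = 4 * (D.L ^ 2 * δ₀) := by field_simp; ring
      linarith
    have b4 : (1 : ℝ) ≤ 2 ^ (k - 1) := one_le_pow₀ one_le_two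
    calc ∫ x in closedBall 0 (2 * R), e' x ^ k
        ≤ ∫ x in closedBall 0 (2 * R), 2 ^ (k - 1) * (2 ^ (k - 1) * (e x ^ k +
            (clamp (4 * ‖x‖ / R - 2) * D.L ^ 2 * e x) ^ k) + (D.L ^ 2 * δ₀ / R) ^ k) := by
          refine setIntegral_mono (hI _ (by fun_prop)) (hI _ (by fun_prop)) fun x => ?_
          refine (add_pow_le (add_nonneg (he0 x) (he1 x)) he2 k).trans ?_
          gcongr
          exact add_pow_le (he0 x) (he1 x) k
      _ = 2 ^ (k - 1) * (2 ^ (k - 1) * ((∫ x in closedBall 0 (2 * R), e x ^ k) +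
            ∫ x in closedBall 0 (2 * R), (clamp (4 * ‖x‖ / R - 2) * D.L ^ 2 * e x) ^ k) +
            ∫ _x in closedBall (0 : Fin k → ℝ) (2 * R), (D.L ^ 2 * δ₀ / R) ^ k) := by
          rw [integral_const_mul, integral_add (hI _ (by fun_prop)) (hI _ continuous_const),
            integral_const_mul, integral_add (hI _ (by fun_prop)) (hI _ (by fun_prop))]
      _ ≤ 2 ^ (k - 1) * (2 ^ (k - 1) * (ε ^ k + ε ^ k) + 2 ^ (k - 1) * (2 * ε ^ k)) := by
          gcongr
          nlinarith [pow_pos hε k]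
      _ = (4 * ε) ^ k := by
          obtain ⟨k, rfl⟩ := Nat.exists_eq_add_of_le' hk
          rw [Nat.add_sub_cancel, show (4 : ℝ) = 2 * 2 by norm_num, mul_pow, mul_pow]
          ring
  obtain ⟨q, hq⟩ := hN.onePoint hout
  have h1 : Htp (fun _ => True) F fun z : OnePoint (Fin k → ℝ) => z.elim p F' := by
    refine G.htp_of_close F.continuous hq.continuous_left (fun z => ?_) fun _ _ => trivial
    induction z using OnePoint.rec with
    | infty => simpa [hp] using hr
    | coe x =>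
      simp only [OnePoint.elim_some]
      by_cases hx : ‖x‖ ≤ R
      · simpa [F', hx] using hr
      · have a1 : R / 2 ≤ ‖x‖ := by linarith
        rw [hF' x a1, ← D.left _ (hφ x a1).1]
        refine (D.lipψ _ _ (by nlinarith [(hφ x a1).2]) (hy x a1)).trans_lt ?_
        have e1 : D.φ (F x) - y x = (1 - χ x) • (D.φ (F x) - D.φ p) := by
          simp only [y]
          module
        rw [e1, norm_smul, Real.norm_eq_abs, abs_of_nonneg (sub_nonneg.2 (clamp_le_one _))]
        have e2 := mul_le_of_le_one_left (norm_nonneg (D.φ (F x) - D.φ p))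
          (show 1 - χ x ≤ 1 by linarith [clamp_nonneg (2 - ‖x‖ / R)])
        nlinarith [(hφ x a1).2]
  exact ⟨q, (h1.trans hq).homotopic (g := ContinuousMap.const _ q)⟩

open Bundle Manifold
open scoped ContDiff

variable {E : Type} [NormedAddCommGroup E] [NormedSpace ℝ E] [FiniteDimensional ℝ E]
  {M : Type} [MetricSpace M] [CompactSpace M] [ChartedSpace E M] [IsManifold 𝓘(ℝ, E) ∞ M]
  [RiemannianBundle (fun x : M => TangentSpace 𝓘(ℝ, E) x)]
  [IsContMDiffRiemannianBundle 𝓘(ℝ, E) ∞ E (fun x : M => TangentSpace 𝓘(ℝ, E) x)]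
  [IsRiemannianManifold 𝓘(ℝ, E) M]

set_option backward.isDefEq.respectTransparency false in
theorem sphere_pi {k : ℕ} (hk : 3 ≤ k) (F : C(OnePoint (Fin k → ℝ), M)) {e : (Fin k → ℝ) → ℝ}
    (hF : ContMDiff 𝓘(ℝ, Fin k → ℝ) 𝓘(ℝ, E) 1 (fun x : Fin k → ℝ => F x))
    (he : ∀ x i, ‖mfderiv 𝓘(ℝ, Fin k → ℝ) 𝓘(ℝ, E) (fun x : Fin k → ℝ => F x) x (Pi.single i 1)‖
      ≤ e x) (hi : Integrable fun x => e x ^ k) (hne : ¬ F.Nullhomotopic) :
    HasShortGeodesic M (4000 * k ^ 5 * (∫ x, e x ^ k) ^ (1 / k : ℝ)) := by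
  have hC := core.{0} (k := k) (n := k) (by omega) le_rfl hk
  by_contra hno
  apply hne
  obtain ⟨r, G⟩ := exists_geoData (E := E) (M := M)
  obtain ⟨D⟩ := nonempty_biChart (E := E) (F OnePoint.infty)
  set s : (Fin k → ℝ) → ℝ := fun x => ∑ i, ‖mfderiv 𝓘(ℝ, Fin k → ℝ) 𝓘(ℝ, E)
      (fun x : Fin k → ℝ => F x) x (Pi.single i 1)‖ with hs
  have hsc : Continuous s := continuous_finsetSum _ fun i _ => continuous_norm_mfderiv hF _
  have hs0 : ∀ x, 0 ≤ s x := fun x => Finset.sum_nonneg fun _ _ => norm_nonneg _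
  have hsv : ∀ x v : Fin k → ℝ, ‖mfderiv 𝓘(ℝ, Fin k → ℝ) 𝓘(ℝ, E)
      (fun x : Fin k → ℝ => F x) x v‖ ≤ s x * ‖v‖ := by
    intro x v
    let A : (Fin k → ℝ) →L[ℝ] TangentSpace 𝓘(ℝ, E) (F x) :=
      mfderiv 𝓘(ℝ, Fin k → ℝ) 𝓘(ℝ, E) (fun x : Fin k → ℝ => F x) x
    have e1 : A v = ∑ i, v i • A (Pi.single i 1) := by
      conv_lhs => rw [pi_eq_sum_univ' v]
      simp only [map_sum, map_smul]
    show ‖A v‖ ≤ _
    rw [e1, hs, Finset.sum_mul]
    refine (norm_sum_le _ _).trans (Finset.sum_le_sum fun i _ => ?_)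
    rw [norm_smul, mul_comm]
    exact mul_le_mul_of_nonneg_left (norm_le_pi_norm v i) (norm_nonneg _)
  have hk0 : (0 : ℝ) < k := by exact_mod_cast (show 0 < k by omega)
  have : Nonempty (Fin k) := ⟨⟨0, by omega⟩⟩
  have he0 : ∀ x, 0 ≤ e x := fun x => (norm_nonneg _).trans (he x ⟨0, by omega⟩)
  have hse : ∀ x, s x ^ k ≤ k ^ k * e x ^ k := fun x => by
    rw [← mul_pow]
    refine pow_le_pow_left₀ (hs0 x) ((Finset.sum_le_sum fun i _ => he x i).trans ?_) k
    simp
  have hsi : Integrable fun x => s x ^ k :=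
    (hi.const_mul (k ^ k)).mono' (hsc.pow k).aestronglyMeasurable (Eventually.of_forall fun x => by
      rw [Real.norm_eq_abs, abs_of_nonneg (pow_nonneg (hs0 x) k)]
      exact hse x)
  have hle : ∫ x, s x ^ k ≤ k ^ k * ∫ x, e x ^ k := by
    rw [← integral_const_mul]
    exact integral_mono hsi (hi.const_mul _) hse
  rcases (show 0 ≤ ∫ x, e x ^ k from integral_nonneg fun x => pow_nonneg (he0 x) k).eq_or_lt
    with hE | hE
  · rw [← hE, mul_zero] at hle
    have h1 := (integral_eq_zero_iff_of_nonneg (fun x => pow_nonneg (hs0 x) k) hsi).1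
      (le_antisymm hle (integral_nonneg fun x => pow_nonneg (hs0 x) k))
    replace h1 := (Continuous.ae_eq_iff_eq volume (hsc.pow k) continuous_zero).1 h1
    have h2 : ∀ x, s x = 0 := fun x => pow_eq_zero_iff (show k ≠ 0 by omega) |>.1 (congrFun h1 x)
    have h3 : ∀ x : Fin k → ℝ, F x = F (0 : Fin k → ℝ) := fun x => dist_le_zero.1
      (dist_le_of_mfderiv hF le_rfl fun t _ => by simpa [h2] using hsv (x + t • (0 - x)) (0 - x))
    have h4 : F = ContinuousMap.const _ (F (0 : Fin k → ℝ)) := ContinuousMap.ext (congrFun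
      (OnePoint.denseRange_coe.equalizer F.continuous continuous_const (funext h3)))
    rw [h4]
    exact ContinuousMap.nullhomotopic_of_constant _
  · refine sphere_metric hC (by omega) G F D hsc hs0 (fun R η hη => ?_) hsi
      (ε := k * (∫ x, e x ^ k) ^ (1 / k : ℝ)) (by positivity) (hle.trans_eq ?_) fun h => hno ?_
    · obtain ⟨δ, hδ, hu⟩ := Metric.uniformContinuousOn_iff.1
        ((isCompact_closedBall (0 : Fin k → ℝ) R).uniformContinuousOn_of_continuous
          hsc.continuousOn) η hη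
      refine ⟨δ / 2, by positivity, fun x y hx hy hxy => ?_⟩
      rw [norm_sub_rev] at hxy ⊢
      have := hs0 x
      refine dist_le_of_mfderiv hF (by positivity) fun t ht => (hsv _ _).trans ?_
      apply mul_le_mul_of_nonneg_right _ (norm_nonneg _)
      have h1 := hu _ ((convex_closedBall (0 : Fin k → ℝ) R).add_smul_sub_mem
        (mem_closedBall_zero_iff.2 hx) (mem_closedBall_zero_iff.2 hy) ht) x
        (mem_closedBall_zero_iff.2 hx) (by
          rw [dist_eq_norm, add_sub_cancel_left, norm_smul, Real.norm_eq_abs, abs_of_nonneg ht.1]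
          nlinarith [ht.2, norm_nonneg (y - x)])
      rw [Real.dist_eq] at h1
      linarith [le_abs_self (s (x + t • (y - x)) - s x)]
    · rw [mul_pow, one_div, Real.rpow_inv_natCast_pow hE.le (by omega)]
    · refine h.mono ?_
      have : 0 ≤ (k : ℝ) ^ 5 * (∫ x, e x ^ k) ^ (1 / k : ℝ) := by positivity
      linarith

set_option backward.isDefEq.respectTransparency false in
theorem sphere_main {V : Type} [NormedAddCommGroup V] [InnerProductSpace ℝ V]
    [FiniteDimensional ℝ V] [MeasurableSpace V] [BorelSpace V] {k : ℕ}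
    (hV : Module.finrank ℝ V = k) (hk : 3 ≤ k) (F : C(OnePoint V, M)) {e : V → ℝ}
    (hF : ContMDiff 𝓘(ℝ, V) 𝓘(ℝ, E) 1 (fun x : V => F x))
    (he : ∀ x v : V, ‖mfderiv 𝓘(ℝ, V) 𝓘(ℝ, E) (fun x : V => F x) x v‖ ≤ e x * ‖v‖)
    (hi : Integrable fun x => e x ^ k) (hne : ¬ F.Nullhomotopic) :
    HasShortGeodesic M (4000 * k ^ 5 * (∫ x, e x ^ k) ^ (1 / k : ℝ)) := by
  subst hV
  let b := stdOrthonormalBasis ℝ V
  let L : (Fin (Module.finrank ℝ V) → ℝ) ≃L[ℝ] V :=
    (EuclideanSpace.equiv _ ℝ).symm.trans b.repr.symm.toContinuousLinearEquiv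
  have hL : MeasurePreserving L :=
    b.measurePreserving_repr_symm.comp (PiLp.volume_preserving_toLp _)
  have hLb : ∀ i, L (Pi.single i 1) = b i := fun i => b.repr_symm_single i
  let Φ : C(OnePoint (Fin (Module.finrank ℝ V) → ℝ), OnePoint V) := L.toHomeomorph.onePointCongr
  have hLs : ContMDiff 𝓘(ℝ, Fin (Module.finrank ℝ V) → ℝ) 𝓘(ℝ, V) 1 L :=
    L.contDiff.contMDiff
  have := sphere_pi (E := E) hk (F.comp Φ) (e := e ∘ L) (hF.comp hLs) (fun x i => by
      have e1 := mfderiv_comp x (hF.mdifferentiable one_ne_zero _)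
        (hLs.mdifferentiable one_ne_zero x)
      have e2 : mfderiv 𝓘(ℝ, Fin (Module.finrank ℝ V) → ℝ) 𝓘(ℝ, V) L x (Pi.single i 1) = b i := by
        rw [mfderiv_eq_fderiv, L.fderiv]
        exact hLb i
      have e3 := he (L x) (b i)
      rw [b.norm_eq_one, mul_one, ← e2] at e3
      exact le_of_eq_of_le (congrArg (fun A => ‖A (Pi.single i 1)‖) e1) e3)
    ((hL.integrable_comp_emb L.toHomeomorph.measurableEmbedding).2 hi) fun h => hne (by
      have h1 := h.comp_left (L.toHomeomorph.onePointCongr.symm : C(OnePoint V, _))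
      have h2 : (F.comp Φ).comp (L.toHomeomorph.onePointCongr.symm : C(OnePoint V, _)) = F :=
        ContinuousMap.ext fun z => congrArg F (L.toHomeomorph.onePointCongr.apply_symm_apply z)
      rwa [h2] at h1)
  have h3 := hL.integral_comp L.toHomeomorph.measurableEmbedding
    fun x => e x ^ Module.finrank ℝ V
  simp only [Function.comp] at this
  rwa [h3] at this

end Pool.Agent.Lib.MP_3eff7f_gt
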