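import Pool.Agent.Lib.MP_3eff7f_gt.LoopFlow
import Pool.Agent.Lib.MP_3eff7f_gt.Stair

set_option autoImplicit false

open Set Filter Topology Metric

namespace Pool.Agent.Lib.MP_3eff7f_gt

noncomputable def sq1 (t : ℝ) : ℝ := -1 + 2 * clamp (4 * t) - 2 * clamp (4 * t - 2)

noncomputable def sq2 (t : ℝ) : ℝ := -1 + 2 * clamp (4 * t - 1) - 2 * clamp (4 * t - 3)

@[fun_prop]
theorem continuous_sq1 : Continuous sq1 := by
  unfold sq1
  fun_prop

@[fun_prop]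
theorem continuous_sq2 : Continuous sq2 := by
  unfold sq2
  fun_prop

theorem sq_a {t : ℝ} (h0 : 0 ≤ t) (h1 : t ≤ 1 / 4) : sq1 t = -1 + 8 * t ∧ sq2 t = -1 := by
  rw [sq1, sq2, clamp_of_mem (by linarith) (by linarith), clamp_of_nonpos (by linarith),
    clamp_of_nonpos (by linarith), clamp_of_nonpos (by linarith)]
  constructor <;> ring

theorem sq_b {t : ℝ} (h0 : 1 / 4 ≤ t) (h1 : t ≤ 1 / 2) : sq1 t = 1 ∧ sq2 t = -3 + 8 * t := by
  rw [sq1, sq2, clamp_of_one_le (by linarith), clamp_of_nonpos (by linarith),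
    clamp_of_mem (by linarith) (by linarith), clamp_of_nonpos (by linarith)]
  constructor <;> ring

theorem sq_c {t : ℝ} (h0 : 1 / 2 ≤ t) (h1 : t ≤ 3 / 4) : sq1 t = 5 - 8 * t ∧ sq2 t = 1 := by
  rw [sq1, sq2, clamp_of_one_le (by linarith), clamp_of_mem (by linarith) (by linarith),
    clamp_of_one_le (by linarith), clamp_of_nonpos (by linarith)]
  constructor <;> ring

theorem sq_d {t : ℝ} (h0 : 3 / 4 ≤ t) (h1 : t ≤ 1) : sq1 t = -1 ∧ sq2 t = 7 - 8 * t := by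
  rw [sq1, sq2, clamp_of_one_le (by linarith), clamp_of_one_le (by linarith),
    clamp_of_one_le (by linarith), clamp_of_mem (by linarith) (by linarith)]
  constructor <;> ring

theorem sq_end {t : ℝ} (h : t ≤ 0 ∨ 1 ≤ t) : sq1 t = -1 ∧ sq2 t = -1 := by
  rcases h with h | h
  · rw [sq1, sq2, clamp_of_nonpos (by linarith), clamp_of_nonpos (by linarith),
      clamp_of_nonpos (by linarith), clamp_of_nonpos (by linarith)]
    constructor <;> ring
  · rw [sq1, sq2, clamp_of_one_le (by linarith), clamp_of_one_le (by linarith),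
      clamp_of_one_le (by linarith), clamp_of_one_le (by linarith)]
    constructor <;> ring

theorem sq_cases {t : ℝ} (h0 : 0 ≤ t) (h1 : t ≤ 1) :
    (t ≤ 1 / 4 ∧ sq1 t = -1 + 8 * t ∧ sq2 t = -1) ∨
    (1 / 4 ≤ t ∧ t ≤ 1 / 2 ∧ sq1 t = 1 ∧ sq2 t = -3 + 8 * t) ∨
    (1 / 2 ≤ t ∧ t ≤ 3 / 4 ∧ sq1 t = 5 - 8 * t ∧ sq2 t = 1) ∨
    (3 / 4 ≤ t ∧ sq1 t = -1 ∧ sq2 t = 7 - 8 * t) := by
  rcases le_total t (1 / 4) with a | a
  · exact Or.inl ⟨a, sq_a h0 a⟩
  rcases le_total t (1 / 2) with b | b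
  · exact Or.inr (Or.inl ⟨a, b, sq_b a b⟩)
  rcases le_total t (3 / 4) with c | c
  · exact Or.inr (Or.inr (Or.inl ⟨b, c, sq_c b c⟩))
  · exact Or.inr (Or.inr (Or.inr ⟨c, sq_d c h1⟩))

theorem sq_norm (t : ℝ) : max |sq1 t| |sq2 t| = 1 := by
  by_cases h : t ≤ 0 ∨ 1 ≤ t
  · simp [(sq_end h).1, (sq_end h).2]
  · push Not at h
    rcases sq_cases h.1.le h.2.le with ⟨a, e1, e2⟩ | ⟨a, b, e1, e2⟩ | ⟨a, b, e1, e2⟩ | ⟨a, e1, e2⟩ <;>
      rw [e1, e2] <;> simp only [abs_neg, abs_one]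
    · exact max_eq_right (abs_le.2 ⟨by linarith [h.1], by linarith⟩)
    · exact max_eq_left (abs_le.2 ⟨by linarith, by linarith⟩)
    · exact max_eq_right (abs_le.2 ⟨by linarith, by linarith⟩)
    · exact max_eq_left (abs_le.2 ⟨by linarith [h.2], by linarith⟩)

theorem sq_inj {t t' : ℝ} (h0 : 0 ≤ t) (h1 : t ≤ 1) (h0' : 0 ≤ t') (h1' : t' ≤ 1)
    (e1 : sq1 t = sq1 t') (e2 : sq2 t = sq2 t') :
    t = t' ∨ ((t ≤ 0 ∨ 1 ≤ t) ∧ (t' ≤ 0 ∨ 1 ≤ t')) := by
  rcases sq_cases h0 h1 with ⟨a, c1, c2⟩ | ⟨a, b, c1, c2⟩ | ⟨a, b, c1, c2⟩ | ⟨a, c1, c2⟩ <;>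
  rcases sq_cases h0' h1' with ⟨a', d1, d2⟩ | ⟨a', b', d1, d2⟩ | ⟨a', b', d1, d2⟩ | ⟨a', d1, d2⟩ <;>
  rw [c1, d1] at e1 <;> rw [c2, d2] at e2 <;>
  first
    | exact Or.inl (by linarith)
    | exact Or.inr ⟨Or.inl (by linarith), Or.inr (by linarith)⟩
    | exact Or.inr ⟨Or.inr (by linarith), Or.inl (by linarith)⟩

theorem sq_surj {c d : ℝ} (h : max |c| |d| = 1) :
    ∃ t ∈ Icc (0 : ℝ) 1, sq1 t = c ∧ sq2 t = d := by
  have hc := abs_le.1 ((le_max_left _ _).trans h.le : |c| ≤ 1)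
  have hd := abs_le.1 ((le_max_right _ _).trans h.le : |d| ≤ 1)
  have : |c| = 1 ∨ |d| = 1 := by
    rcases max_choice |c| |d| with e | e <;> rw [e] at h
    · exact Or.inl h
    · exact Or.inr h
  rcases this with e | e <;> rcases (abs_eq zero_le_one).1 e with e | e
  · have := sq_b (t := (d + 3) / 8) (by linarith) (by linarith)
    exact ⟨(d + 3) / 8, ⟨by linarith, by linarith⟩, by linarith, by linarith⟩
  · have := sq_d (t := (7 - d) / 8) (by linarith) (by linarith)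
    exact ⟨(7 - d) / 8, ⟨by linarith, by linarith⟩, by linarith, by linarith⟩
  · have := sq_c (t := (5 - c) / 8) (by linarith) (by linarith)
    exact ⟨(5 - c) / 8, ⟨by linarith, by linarith⟩, by linarith, by linarith⟩
  · have := sq_a (t := (c + 1) / 8) (by linarith) (by linarith)
    exact ⟨(c + 1) / 8, ⟨by linarith, by linarith⟩, by linarith, by linarith⟩

variable {X : Type*} [MetricSpace X]

theorem clk_square {f : ℝ → ℝ → X} {r ℓ : ℝ} (hr : 0 ≤ r)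
    (h1 : ∀ c, |c| = r → Clk (fun t => f t c) (-r) r ℓ)
    (h2 : ∀ c, |c| = r → Clk (fun t => f c t) (-r) r ℓ) :
    Clk (fun t => f (r * sq1 t) (r * sq2 t)) 0 1 (4 * ℓ) := by
  have a1 : |-r| = r := by rw [abs_neg, abs_of_nonneg hr]
  have a2 : |r| = r := abs_of_nonneg hr
  have s1 : Clk (fun t => f (r * sq1 t) (r * sq2 t)) 0 (1 / 4) ℓ :=
    ((h1 _ a1).comp_mono (σ := fun t => r * (-1 + 8 * t)) (by norm_num)
      (fun s t _ h _ => by nlinarith) (by simp) (by norm_num)).congr fun t a b => by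
        simp [(sq_a a b).1, (sq_a a b).2]
  have s2 : Clk (fun t => f (r * sq1 t) (r * sq2 t)) (1 / 4) (1 / 2) ℓ :=
    ((h2 _ a2).comp_mono (σ := fun t => r * (-3 + 8 * t)) (by norm_num)
      (fun s t _ h _ => by nlinarith) (by norm_num) (by norm_num)).congr fun t a b => by
        simp [(sq_b a b).1, (sq_b a b).2]
  have s3 : Clk (fun t => f (r * sq1 t) (r * sq2 t)) (1 / 2) (3 / 4) ℓ :=
    ((h1 _ a2).comp_anti (σ := fun t => r * (5 - 8 * t)) (by norm_num)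
      (fun s t _ h _ => by nlinarith) (by norm_num) (by norm_num)).congr fun t a b => by
        simp [(sq_c a b).1, (sq_c a b).2]
  have s4 : Clk (fun t => f (r * sq1 t) (r * sq2 t)) (3 / 4) 1 ℓ :=
    ((h2 _ a1).comp_anti (σ := fun t => r * (7 - 8 * t)) (by norm_num)
      (fun s t _ h _ => by nlinarith) (by norm_num) (by norm_num)).congr fun t a b => by
        simp [(sq_d a b).1, (sq_d a b).2]
  exact (Clk.trans (by norm_num) (by norm_num) (Clk.trans (by norm_num) (by norm_num) s1 s2)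
    (Clk.trans (by norm_num) (by norm_num) s3 s4)).mono (by linarith)

theorem GeoData.null_of_squares [CompactSpace X] {r : ℝ} (G : GeoData X r) {ℓ : ℝ} (hℓ : 0 ≤ ℓ)
    (hno : ¬ HasShortGeodesic X ℓ) {Y : Type*} [NormedAddCommGroup Y] [NormedSpace ℝ Y]
    [ProperSpace Y] {F : Y × ℝ × ℝ → X} (hF : Continuous F) {R : ℝ} (hR : 0 < R) {p₀ : X}
    (hout : ∀ z, R ≤ ‖z‖ → F z = p₀)
    (hlen : ∀ y ρ, 0 ≤ ρ → Clk (fun t => F (y, ρ * sq1 t, ρ * sq2 t)) 0 1 ℓ) : Null F := by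
  let H := closedBall (0 : Y) R × Icc (0 : ℝ) R
  have : CompactSpace (closedBall (0 : Y) R) :=
    isCompact_iff_compactSpace.1 (isCompact_closedBall _ _)
  let q : H × ℝ → Y × ℝ × ℝ := fun z => (z.1.1, z.1.2 * sq1 z.2, z.1.2 * sq2 z.2)
  have hqc : Continuous q := by
    show Continuous fun z : (closedBall (0 : Y) R × Icc (0 : ℝ) R) × ℝ =>
      (((z.1.1 : Y), (z.1.2 : ℝ) * sq1 z.2, (z.1.2 : ℝ) * sq2 z.2) : Y × ℝ × ℝ)
    fun_prop
  have hqn : ∀ z, ‖q z‖ = max ‖(z.1.1 : Y)‖ z.1.2 := by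
    intro z
    have h0 : 0 ≤ (z.1.2 : ℝ) := z.1.2.2.1
    simp only [q, Prod.norm_def, Real.norm_eq_abs, abs_mul, abs_of_nonneg h0]
    rw [← mul_max_of_nonneg _ _ h0, sq_norm, mul_one]
  have hqle : ∀ z, ‖q z‖ ≤ R := fun z => by
    rw [hqn]
    exact max_le (mem_closedBall_zero_iff.1 z.1.1.2) z.1.2.2.2
  obtain ⟨g, Λ, hΛc, hΛ0, hΛ1, hΛP⟩ := G.loop_contract hℓ hno (Γ := F ∘ q) (hF.comp hqc)
    (fun h t ht => by
      simp only [Function.comp, q, (sq_end ht).1, (sq_end ht).2, (sq_end (Or.inl le_rfl)).1,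
        (sq_end (Or.inl le_rfl)).2])
    fun h => hlen h.1 h.2 h.2.2.1
  have hgc : Continuous g := by
    have : g = fun h => Λ 1 (h, 0) := by rw [hΛ1]
    rw [this]
    exact hΛc.comp (f := fun h : H => ((1 : ℝ), (h, (0 : ℝ)))) (by fun_prop)
  have hbd : ∀ τ ∈ Icc (0 : ℝ) 1, ∀ (h : H) t, R ≤ max ‖(h.1 : Y)‖ h.2 → Λ τ (h, t) = p₀ := by
    intro τ hτ h t hh
    have e : ∀ t, (F ∘ q) (h, t) = p₀ := fun t => hout _ (by rw [hqn]; exact hh)
    rw [(hΛP τ hτ).2 h (fun t => by rw [e, e]) t, e]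
  have hg : ∀ h : H, R ≤ max ‖(h.1 : Y)‖ h.2 → g h = p₀ := fun h hh => by
    have := hbd 1 ⟨zero_le_one, le_rfl⟩ h 0 hh
    rwa [hΛ1] at this
  let Q : Icc (0 : ℝ) 1 × H × Icc (0 : ℝ) 1 → Icc (0 : ℝ) 1 × closedBall (0 : Y × ℝ × ℝ) R :=
    fun z => (z.1, ⟨q (z.2.1, z.2.2), mem_closedBall_zero_iff.2 (hqle _)⟩)
  have hQc : Continuous Q := by fun_prop
  have hsec : ∀ z : Y × ℝ × ℝ, ∀ hz : ‖z‖ ≤ R, ∃ t ∈ Icc (0 : ℝ) 1,
      q ((⟨z.1, mem_closedBall_zero_iff.2 ((norm_fst_le z).trans hz)⟩,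
        ⟨‖z.2‖, norm_nonneg _, (norm_snd_le z).trans hz⟩), t) = z := by
    rintro ⟨y, c, d⟩ hz
    rcases (norm_nonneg ((c, d) : ℝ × ℝ)).eq_or_lt with h | h
    · refine ⟨0, ⟨le_rfl, zero_le_one⟩, ?_⟩
      have h' := norm_eq_zero.1 h.symm
      simp only [Prod.mk_eq_zero] at h'
      simp [q, h'.1, h'.2]
    · obtain ⟨t, ht, e1, e2⟩ := sq_surj (c := c / ‖((c, d) : ℝ × ℝ)‖)
        (d := d / ‖((c, d) : ℝ × ℝ)‖) (by
          rw [abs_div, abs_div, abs_of_pos h, max_div_div_right h.le]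
          exact div_self h.ne')
      refine ⟨t, ht, ?_⟩
      simp only [q, e1, e2, mul_div_cancel₀ _ h.ne']
  obtain ⟨L, hLc, hL⟩ := exists_descend hQc (by
      rintro ⟨τ, z, hz⟩
      obtain ⟨t, ht, e⟩ := hsec z (mem_closedBall_zero_iff.1 hz)
      exact ⟨(τ, _, ⟨t, ht⟩), Prod.ext rfl (Subtype.ext e)⟩)
    (H := fun z => Λ z.1 (z.2.1, z.2.2))
    (hΛc.comp (f := fun z : Icc (0 : ℝ) 1 × H × Icc (0 : ℝ) 1 =>
      ((z.1 : ℝ), (z.2.1, (z.2.2 : ℝ)))) (by fun_prop)) (by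
      rintro ⟨τ, ⟨y, ρ⟩, t⟩ ⟨τ', ⟨y', ρ'⟩, t'⟩ e
      simp only [Q, q, Prod.mk.injEq, Subtype.mk.injEq] at e
      obtain ⟨rfl, e0, e1, e2⟩ := e
      obtain rfl : y = y' := Subtype.ext e0
      obtain rfl : ρ = ρ' := by
        apply Subtype.ext
        have a1 : max |ρ * sq1 t| |ρ * sq2 t| = max |ρ' * sq1 t'| |ρ' * sq2 t'| := by rw [e1, e2]
        simp only [abs_mul, abs_of_nonneg ρ.2.1, abs_of_nonneg ρ'.2.1] at a1
        rwa [← mul_max_of_nonneg _ _ ρ.2.1, ← mul_max_of_nonneg _ _ ρ'.2.1, sq_norm, sq_norm,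
          mul_one, mul_one] at a1
      rcases ρ.2.1.eq_or_lt with h | h
      · have := (hΛP τ τ.2).2 (y, ρ) fun t => by simp only [Function.comp, q, ← h, zero_mul]
        simp only [this]
      · rcases sq_inj t.2.1 t.2.2 t'.2.1 t'.2.2 (mul_left_cancel₀ h.ne' e1)
          (mul_left_cancel₀ h.ne' e2) with e | ⟨a1, a2⟩
        · simp only [e]
        · simp only [(hΛP τ τ.2).1 _ _ a1, (hΛP τ τ.2).1 _ _ a2])
  let π : Y × ℝ × ℝ → Y × ℝ × ℝ := fun z => (R / max R ‖z‖) • z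
  have hmax : ∀ z : Y × ℝ × ℝ, 0 < max R ‖z‖ := fun z => hR.trans_le (le_max_left _ _)
  have hπc : Continuous π :=
    (continuous_const.div (by fun_prop) fun z => (hmax z).ne').smul continuous_id
  have hπ1 : ∀ z, ‖z‖ ≤ R → π z = z := fun z hz => by
    simp only [π, max_eq_left hz, div_self hR.ne', one_smul]
  have hπ2 : ∀ z, R ≤ ‖z‖ → ‖π z‖ = R := fun z hz => by
    simp only [π, max_eq_right hz, norm_smul, Real.norm_eq_abs]
    rw [abs_of_pos (div_pos hR (hR.trans_le hz)), div_mul_cancel₀ _ (hR.trans_le hz).ne']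
  have hπ : ∀ z, ‖π z‖ ≤ R := fun z => by
    rcases le_total ‖z‖ R with h | h
    · rwa [hπ1 z h]
    · exact (hπ2 z h).le
  let hz : Y × ℝ × ℝ → H := fun z =>
    (⟨(π z).1, mem_closedBall_zero_iff.2 ((norm_fst_le _).trans (hπ z))⟩,
      ⟨‖(π z).2‖, norm_nonneg _, (norm_snd_le _).trans (hπ z)⟩)
  have hLz : ∀ z, ∃ t ∈ Icc (0 : ℝ) 1, q (hz z, t) = π z ∧ ∀ τ : Icc (0 : ℝ) 1,
      L (τ, ⟨π z, mem_closedBall_zero_iff.2 (hπ z)⟩) = Λ τ (hz z, t) := by
    intro z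
    obtain ⟨t, ht, e⟩ := hsec (π z) (hπ z)
    refine ⟨t, ht, e, fun τ => ?_⟩
    rw [← hL (τ, hz z, ⟨t, ht⟩)]
    congr 1
    exact Prod.ext rfl (Subtype.ext e.symm)
  have hzR : ∀ z, R ≤ ‖z‖ → R ≤ max ‖((hz z).1 : Y)‖ (hz z).2 := fun z h => (hπ2 z h).ge
  have s1 : Htp (CstOut R) F (g ∘ hz) := by
    refine ⟨fun τ z => L (projIcc 0 1 zero_le_one τ, ⟨π z, mem_closedBall_zero_iff.2 (hπ z)⟩),
      hLc.comp ((continuous_projIcc.comp continuous_fst).prodMk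
        ((hπc.comp continuous_snd).subtype_mk _)), ?_, ?_, ?_⟩
    · funext z
      obtain ⟨t, -, e, e'⟩ := hLz z
      beta_reduce
      rw [e', projIcc_left, hΛ0, Function.comp_apply, e]
      rcases le_total ‖z‖ R with h | h
      · rw [hπ1 z h]
      · rw [hout z h, hout _ (hπ2 z h).ge]
    · funext z
      obtain ⟨t, -, -, e'⟩ := hLz z
      beta_reduce
      rw [e', projIcc_right, hΛ1]
      rfl
    · have : ∀ τ : Icc (0 : ℝ) 1, ∀ z, R ≤ ‖z‖ →
          L (τ, ⟨π z, mem_closedBall_zero_iff.2 (hπ z)⟩) = p₀ := by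
        intro τ z h
        obtain ⟨t, -, -, e'⟩ := hLz z
        rw [e', hbd _ τ.2 _ _ (hzR z h)]
      intro τ _ x y hx hy
      simp only [this _ x hx, this _ y hy]
  have s2 : Htp (CstOut R) (g ∘ hz) fun _ => p₀ := by
    have hzc : Continuous hz := by
      refine ((continuous_fst.comp hπc).subtype_mk _).prodMk ?_
      exact ((continuous_snd.comp hπc).norm).subtype_mk _
    refine ⟨fun τ z => g ((hz z).1, projIcc 0 R hR.le ((hz z).2 + τ * R)), hgc.comp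
      (Continuous.prodMk (continuous_fst.comp (hzc.comp continuous_snd)) (continuous_projIcc.comp
        ((continuous_subtype_val.comp (continuous_snd.comp (hzc.comp continuous_snd))).add
          (continuous_fst.mul continuous_const)))), ?_, ?_, ?_⟩
    · funext z
      simp only [zero_mul, add_zero, projIcc_val, Function.comp_apply]
      rfl
    · funext z
      apply hg
      rw [projIcc_of_right_le _ (by linarith [(hz z).2.2.1])]
      exact le_max_right _ _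
    · have : ∀ τ ∈ Icc (0 : ℝ) 1, ∀ z, R ≤ ‖z‖ →
          g ((hz z).1, projIcc 0 R hR.le ((hz z).2 + τ * R)) = p₀ := by
        intro τ hτ z h
        apply hg
        rcases le_max_iff.1 (hzR z h) with h' | h'
        · exact h'.trans (le_max_left _ _)
        · rw [projIcc_of_right_le _ (by nlinarith [hτ.1])]
          exact le_max_right _ _
      intro τ hτ x y hx hy
      simp only [this τ hτ x hx, this τ hτ y hy]
  exact ⟨R, p₀, s1.trans s2⟩

end Pool.Agent.Lib.MP_3eff7f_gt
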